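import Pool.Agent.L0h29.SP.Pull

/-!
# Project SP: families of closed sets which can be cleared off flat discs
-/

set_option autoImplicit false
set_option linter.unusedSectionVars false
set_option linter.unusedVariables false

open Set Filter Topology Metric Function MeasureTheory
open scoped Manifold ContDiff

noncomputable section

namespace Pool.Agent.L0h29.SP

open Pool.Agent.Y522 Pool.Agent.N550.KH Pool.Agent.N550.KH.One Pool.Agent.L0h29.CS
  Pool.Agent.L0h29.EN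

variable {X : Type} [TopologicalSpace X] [ChartedSpace (E 4) X]

/-- families of closed sets which are invariant under diffeomorphisms and whose members can be
cleared off flat discs -/
structure Fam (𝒢 : Set X → Prop) : Prop where
  closed : ∀ Z, 𝒢 Z → IsClosed Z
  move : ∀ Z, 𝒢 Z → ∀ κ : X → X, IsDf 4 κ → 𝒢 (κ '' Z)
  clear : ∀ Z, 𝒢 Z → ∀ K : Set X, IsClosed K → Disjoint K Z → ∀ h : E 4 → X, Cell h →
    ∀ (i j : Fin 4), i ≠ j → ∀ (a b : ℝ) (C : Set (E 4)), IsCompact C →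
    (∀ z ∈ C, z i = a ∧ z j = b) → ∃ Z', 𝒢 Z' ∧ Disjoint K Z' ∧ Disjoint (h '' C) Z'

/-- clearing of finitely many flat discs -/
theorem Fam.clears {𝒢 : Set X → Prop} (hF : Fam 𝒢) [T2Space X] {ψ : E 4 → X} (hψ : Cell ψ)
    {ι : Type} [DecidableEq ι] (s : Finset ι) (C : ι → Set (E 4)) (hC : ∀ x ∈ s, IsCompact (C x))
    (hpl : ∀ x ∈ s, ∃ i j : Fin 4, i ≠ j ∧ ∃ a b : ℝ, ∀ z ∈ C x, z i = a ∧ z j = b) {K : Set X}
    (hK : IsClosed K) {Z : Set X} (hZ : 𝒢 Z) (hKZ : Disjoint K Z) :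
    ∃ Z', 𝒢 Z' ∧ Disjoint K Z' ∧ ∀ x ∈ s, Disjoint (ψ '' C x) Z' := by
  induction s using Finset.induction_on with
  | empty => exact ⟨Z, hZ, hKZ, fun x hx => absurd hx (Finset.notMem_empty x)⟩
  | insert x s hx ih =>
    obtain ⟨Z₁, h1, h2, h3⟩ := ih (fun y hy => hC y (Finset.mem_insert_of_mem hy))
      (fun y hy => hpl y (Finset.mem_insert_of_mem hy))
    have hcl : IsClosed (⋃ y ∈ s, ψ '' C y) := (s.isCompact_biUnion fun y hy =>
      (hC y (Finset.mem_insert_of_mem hy)).image hψ.cont).isClosed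
    obtain ⟨i, j, hij, a, b, hab⟩ := hpl x (Finset.mem_insert_self _ _)
    obtain ⟨Z₂, e1, e2, e3⟩ := hF.clear Z₁ h1 (K ∪ ⋃ y ∈ s, ψ '' C y) (hK.union hcl) (by
      rw [disjoint_union_left]
      refine ⟨h2, ?_⟩
      rw [disjoint_iUnion₂_left]
      exact h3) ψ hψ i j hij a b (C x) (hC x (Finset.mem_insert_self _ _)) hab
    rw [disjoint_union_left, disjoint_iUnion₂_left] at e2
    refine ⟨Z₂, e1, e2.1, fun y hy => ?_⟩
    rcases Finset.mem_insert.1 hy with rfl | hy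
    · exact e3
    · exact e2.2 y hy

/-- the two-dimensional skeleton of the boundary of the box -/
def Sk (m : ℕ) (τ : E 4) : Set (E 4) :=
  {z | ∃ i j : Fin 4, i ≠ j ∧ |z i - τ i| = 3 ∧ ∃ k : ℤ, (m : ℝ) * (z j - τ j) = k}

/-- the boundary of the box -/
def bd (τ : E 4) : Set (E 4) := qc τ \ qo τ

/-- the closed cube of a label -/
def QL (m : ℕ) (τ : E 4) (L : Fin 4 → ℤ × ℤ) : Set (E 4) :=
  {z | ∀ j, ((L j).1 : ℝ) ≤ (m : ℝ) * (z j - τ j) ∧ (m : ℝ) * (z j - τ j) ≤ ((L j).2 : ℝ)}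

theorem isCompact_bd (τ : E 4) : IsCompact (bd τ) := (isCompact_qc τ).diff (isOpen_qo τ)

theorem isClosed_QL (m : ℕ) (τ : E 4) (L : Fin 4 → ℤ × ℤ) : IsClosed (QL m τ L) := by
  simp only [QL, ofPred_forall]
  refine isClosed_iInter fun j => ?_
  have hcj : Continuous fun z : E 4 => (m : ℝ) * (z j - τ j) := by fun_prop
  exact (isClosed_le continuous_const hcj).inter (isClosed_le hcj continuous_const)

theorem mem_QL (m : ℕ) (τ z : E 4) : z ∈ QL m τ (lb m τ z) := fun j => lb_self m τ z j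

theorem face_eq {m : ℕ} (hm : 0 < m) {τ y z : E 4} (hz : z ∈ QL m τ (lb m τ y)) {i : Fin 4}
    (hi : |y i - τ i| = 3) : z i = y i := lb_face hm (hz i) hi

theorem seg_QL {m : ℕ} (hm : 0 < m) {τ y z : E 4} (hy : y ∈ bd τ)
    (hz : z ∈ QL m τ (lb m τ y)) (hzb : z ∈ bd τ) {t : ℝ} (ht : t ∈ Icc (0 : ℝ) 1) :
    ln y z t ∈ QL m τ (lb m τ y) ∩ bd τ := by
  have ht0 := ht.1
  have ht1 := ht.2
  refine ⟨fun j => ?_, ?_, fun hcon => ?_⟩
  · have e1 := lb_self m τ y j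
    have e2 := hz j
    have h3 : (m : ℝ) * (ln y z t j - τ j) = (m : ℝ) * (y j - τ j) +
        t * ((m : ℝ) * (z j - τ j) - (m : ℝ) * (y j - τ j)) := by
      rw [ln_apply]; ring
    rw [h3]
    constructor <;> nlinarith [e1.1, e1.2, e2.1, e2.2]
  · intro i
    have e1 := hy.1 i
    have e2 := hzb.1 i
    rw [ln_apply]
    rw [abs_le] at e1 e2 ⊢
    constructor <;> nlinarith
  · obtain ⟨i, hi⟩ := mem_bd hy
    have h1 := hcon i
    rw [ln_apply, face_eq hm hz hi, sub_self, mul_zero, add_zero, hi] at h1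
    exact lt_irrefl _ h1

theorem QL_dist {m : ℕ} (hm : 0 < m) {τ y z z' : E 4} (hz : z ∈ QL m τ (lb m τ y))
    (hz' : z' ∈ QL m τ (lb m τ y)) : dist z z' ≤ 2 * (1 / m) := by
  have hm' : (0 : ℝ) < m := by exact_mod_cast hm
  rw [dist_eq_norm]
  refine norm_le_two (by positivity) fun j => ?_
  have e1 := hz j
  have e2 := hz' j
  have e3 : (((lb m τ y j).2 : ℤ) : ℝ) ≤ ((lb m τ y j).1 : ℝ) + 1 := by
    simp only [lb]
    exact_mod_cast Int.ceil_le_floor_add_one _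
  have h5 : (z - z') j = z j - z' j := by simp
  rw [h5, abs_le, ← sub_nonneg, ← sub_nonneg (a := 1 / (m : ℝ))]
  constructor
  · have : 0 ≤ ((m : ℝ) * (z j - τ j) - (m : ℝ) * (z' j - τ j) + 1) / m :=
      div_nonneg (by linarith [e1.1, e2.2]) hm'.le
    have h6 : ((m : ℝ) * (z j - τ j) - (m : ℝ) * (z' j - τ j) + 1) / m = z j - z' j - -(1 / m) := by
      field_simp
      ring
    rwa [h6] at this
  · have : 0 ≤ (1 - ((m : ℝ) * (z j - τ j) - (m : ℝ) * (z' j - τ j))) / m :=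
      div_nonneg (by linarith [e1.2, e2.1]) hm'.le
    have h6 : (1 - ((m : ℝ) * (z j - τ j) - (m : ℝ) * (z' j - τ j))) / m = 1 / m - (z j - z' j) := by
      field_simp
      ring
    rwa [h6] at this

/-- integral coordinates are seen by the labels -/
theorem lb_int {m : ℕ} {τ z : E 4} {j : Fin 4} :
    (lb m τ z j).1 = (lb m τ z j).2 ↔ ∃ k : ℤ, (m : ℝ) * (z j - τ j) = k := by
  simp only [lb]
  constructor
  · intro h
    refine ⟨⌊(m : ℝ) * (z j - τ j)⌋, le_antisymm ?_ (Int.floor_le _)⟩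
    rw [h]
    exact Int.le_ceil _
  · rintro ⟨k, hk⟩
    rw [hk, Int.floor_intCast, Int.ceil_intCast]

theorem int_of_three {m : ℕ} {x : ℝ} (h : |x| = 3) : ∃ k : ℤ, (m : ℝ) * x = k := by
  rcases eq_or_eq_neg_of_abs_eq h with h1 | h1
  · exact ⟨3 * m, by rw [h1]; push_cast; ring⟩
  · exact ⟨-(3 * m), by rw [h1]; push_cast; ring⟩

theorem notMem_Sk {m : ℕ} {τ y z : E 4} (hy : y ∈ bd τ) (hys : y ∉ Sk m τ)
    (h : lb m τ z = lb m τ y) : z ∉ Sk m τ := by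
  rintro ⟨i', j', hij, h1, h2⟩
  have e1 : ∃ k : ℤ, (m : ℝ) * (y i' - τ i') = k := by
    rw [← lb_int, ← h, lb_int]
    exact int_of_three h1
  have e2 : ∃ k : ℤ, (m : ℝ) * (y j' - τ j') = k := by
    rw [← lb_int, ← h, lb_int]
    exact h2
  obtain ⟨i, hi⟩ := mem_bd hy
  by_cases hii : i = i'
  · subst hii
    exact hys ⟨i, j', hij, hi, e2⟩
  · exact hys ⟨i, i', hii, hi, e1⟩

theorem lb_closed' {m : ℕ} {τ : E 4} {z z' : E 4} (hm : 0 < m) (hz : z ∈ bd τ)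
    (hs : z ∉ Sk m τ) (hz' : z' ∈ bd τ) (hs' : z' ∉ Sk m τ)
    (h : z' ∈ QL m τ (lb m τ z)) : lb m τ z' = lb m τ z := by
  have hm' : (0 : ℝ) < m := by exact_mod_cast hm
  obtain ⟨i, hi⟩ := mem_bd hz
  have h1 : z' i = z i := face_eq hm h hi
  have hi' : |z' i - τ i| = 3 := by rw [h1, hi]
  funext j
  by_cases hj : i = j
  · rw [← hj]
    simp only [lb, h1]
  · have e1 : ∀ k : ℤ, (m : ℝ) * (z j - τ j) ≠ k := fun k hk => hs ⟨i, j, hj, hi, k, hk⟩
    have e2 : ∀ k : ℤ, (m : ℝ) * (z' j - τ j) ≠ k := fun k hk => hs' ⟨i, j, hj, hi', k, hk⟩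
    have e3 := h j
    simp only [lb] at e3 ⊢
    generalize (m : ℝ) * (z j - τ j) = x at *
    generalize (m : ℝ) * (z' j - τ j) = x' at *
    have hceil : ∀ x : ℝ, (∀ k : ℤ, x ≠ k) → ⌈x⌉ = ⌊x⌋ + 1 := by
      intro x hx
      rw [Int.ceil_eq_iff]
      push_cast
      refine ⟨?_, (Int.lt_floor_add_one x).le⟩
      rw [add_sub_cancel_right]
      exact lt_of_le_of_ne (Int.floor_le x) (hx _).symm
    rw [hceil x e1, hceil x' e2]
    rw [hceil x e1] at e3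
    have h5 : ⌊x'⌋ = ⌊x⌋ := by
      rw [Int.floor_eq_iff]
      refine ⟨e3.1, lt_of_le_of_ne ?_ ?_⟩
      · have := e3.2
        push_cast at this
        exact this
      · have := e2 (⌊x⌋ + 1)
        push_cast at this
        exact this
    rw [h5]

/-- clearing of the skeleton -/
theorem Fam.skeleton {𝒢 : Set X → Prop} (hF : Fam 𝒢) [T2Space X] {ψ : E 4 → X} (hψ : Cell ψ)
    {m : ℕ} (hm : 0 < m) (τ : E 4) {K : Set X} (hK : IsClosed K) {Z : Set X} (hZ : 𝒢 Z)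
    (hKZ : Disjoint K Z) : ∃ Z', 𝒢 Z' ∧ Disjoint K Z' ∧ ∀ z ∈ bd τ, z ∈ Sk m τ → ψ z ∉ Z' := by
  classical
  have hm' : (0 : ℝ) < m := by exact_mod_cast hm
  let C : (Fin 4 × Fin 4) × (ℤ × ℤ) → Set (E 4) := fun x =>
    qc τ ∩ {z | z x.1.1 = τ x.1.1 + x.2.1 ∧ z x.1.2 = τ x.1.2 + x.2.2 / m}
  let s : Finset ((Fin 4 × Fin 4) × (ℤ × ℤ)) :=
    (Finset.univ.filter fun x : Fin 4 × Fin 4 => x.1 ≠ x.2) ×ˢ
      (({3, -3} : Finset ℤ) ×ˢ Finset.Icc (-(3 * m : ℤ)) (3 * m))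
  obtain ⟨Z', h1, h2, h3⟩ := hF.clears hψ s C (fun x _ => by
    refine (isCompact_qc τ).inter_right ?_
    exact (isClosed_eq (by fun_prop) continuous_const).inter
      (isClosed_eq (by fun_prop) continuous_const)) (fun x hx => by
    simp only [s, Finset.mem_product, Finset.mem_filter, Finset.mem_univ, true_and] at hx
    exact ⟨x.1.1, x.1.2, hx.1, _, _, fun z hz => hz.2⟩) hK hZ hKZ
  refine ⟨Z', h1, h2, ?_⟩
  rintro z hz ⟨i, j, hij, hi, k, hk⟩ hcon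
  obtain ⟨σ, hσ, hσi⟩ : ∃ σ : ℤ, σ ∈ ({3, -3} : Finset ℤ) ∧ z i = τ i + σ := by
    rcases eq_or_eq_neg_of_abs_eq hi with h4 | h4
    · exact ⟨3, by simp, by push_cast; linarith⟩
    · exact ⟨-3, by simp, by push_cast; linarith⟩
  have hkj : z j = τ j + k / m := by
    rw [← hk]
    field_simp
    ring
  have hkm : k ∈ Finset.Icc (-(3 * m : ℤ)) (3 * m) := by
    have h4 := abs_le.1 (hz.1 j)
    rw [Finset.mem_Icc]
    constructor
    · have : ((-(3 * m) : ℤ) : ℝ) ≤ (k : ℝ) := by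
        rw [← hk]; push_cast; nlinarith [h4.1]
      exact_mod_cast this
    · have : (k : ℝ) ≤ ((3 * m : ℤ) : ℝ) := by
        rw [← hk]; push_cast; nlinarith [h4.2]
      exact_mod_cast this
  refine disjoint_left.1 (h3 ((i, j), (σ, k)) ?_) ⟨z, ⟨hz.1, hσi, hkj⟩, rfl⟩ hcon
  simp only [s, Finset.mem_product, Finset.mem_filter, Finset.mem_univ, true_and]
  exact ⟨hij, hσ, hkm⟩

/-- compression of the part over the boundary of the box, in one cube -/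
theorem Fam.squash {𝒢 : Set X → Prop} (hF : Fam 𝒢) [T2Space X] {ψ : E 4 → X} (hψ : Cell ψ)
    {m : ℕ} (hm : 0 < m) {τ y : E 4} (hy : y ∈ bd τ) (hys : y ∉ Sk m τ) {V : Set (E 4)}
    (hV : IsOpen V) (hyV : y ∈ V) {W : Set X} (hW : IsOpen W) {Z : Set X} (hZ : 𝒢 Z)
    (ha : Z \ ψ '' qo τ ⊆ W) (hb : ∀ z ∈ bd τ, ψ z ∈ Z → z ∉ Sk m τ)
    (hc : ∀ z ∈ bd τ, ψ z ∈ Z → lb m τ z = lb m τ y → ∀ t ∈ Icc (0 : ℝ) 1, ψ (ln y z t) ∈ W) :
    ∃ Z', 𝒢 Z' ∧ Z' \ ψ '' qo τ ⊆ W ∧ ∀ z ∈ bd τ, ψ z ∈ Z' →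
      (lb m τ z = lb m τ y ∧ z ∈ V) ∨ (lb m τ z ≠ lb m τ y ∧ ψ z ∈ Z) := by
  have hm' : (0 : ℝ) < m := by exact_mod_cast hm
  obtain ⟨i, hi⟩ := mem_bd hy
  set L := lb m τ y with hL
  -- the part in the cube
  set A : Set (E 4) := {z | z ∈ bd τ ∧ ψ z ∈ Z ∧ lb m τ z = L} with hA
  have hAc : IsCompact A := by
    have h1 : A = (bd τ ∩ ψ ⁻¹' Z) ∩ QL m τ L := by
      ext z
      constructor
      · rintro ⟨h1, h2, h3⟩
        exact ⟨⟨h1, h2⟩, by rw [← h3]; exact mem_QL m τ z⟩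
      · rintro ⟨⟨h1, h2⟩, h3⟩
        exact ⟨h1, h2, lb_closed' hm hy hys h1 (hb z h1 h2) h3⟩
    rw [h1]
    exact ((isCompact_bd τ).inter_right ((hF.closed Z hZ).preimage hψ.cont)).inter_right
      (isClosed_QL m τ L)
  have hDc : IsCompact (cone y A) := cone_cpt y hAc
  -- the open neighbourhood
  set G₀ : Set (E 4) := {z | ∀ j, j ≠ i → ((L j).1 : ℝ) < (m : ℝ) * (z j - τ j) ∧
    (m : ℝ) * (z j - τ j) < ((L j).2 : ℝ)} ∩ {z | |z i - y i| < 1} with hG₀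
  have hG₀o : IsOpen G₀ := by
    refine IsOpen.inter ?_ (isOpen_lt (by fun_prop) continuous_const)
    simp only [ofPred_forall]
    refine isOpen_iInter_of_finite fun j => isOpen_iInter_of_finite fun _ => ?_
    have hcj : Continuous fun z : E 4 => (m : ℝ) * (z j - τ j) := by fun_prop
    exact (isOpen_lt continuous_const hcj).inter (isOpen_lt hcj continuous_const)
  have hG₀L : ∀ z, z ∉ Sk m τ → lb m τ z = L → z i = y i → z ∈ G₀ := by
    intro z hz hzL hzi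
    refine ⟨fun j hj => ?_, by
      show |z i - y i| < 1
      rw [hzi, sub_self, abs_zero]; exact one_pos⟩
    have h1 := lb_self m τ z j
    rw [hzL] at h1
    have h2 : ∀ k : ℤ, (m : ℝ) * (z j - τ j) ≠ k := fun k hk =>
      hz ⟨i, j, hj.symm, by rw [hzi]; exact hi, k, hk⟩
    exact ⟨lt_of_le_of_ne h1.1 (h2 _).symm, lt_of_le_of_ne h1.2 (h2 _)⟩
  have hi0 : ∀ z, lb m τ z = L → z i = y i := fun z hz =>
    face_eq hm (by rw [← hL, ← hz]; exact mem_QL m τ z) hi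
  have hlab : ∀ P ∈ cone y A, lb m τ P = L ∧ P ∈ bd τ ∧ ψ P ∈ W ∧ P ∉ Sk m τ := by
    rintro _ ⟨z, ⟨hz1, hz2, hz3⟩, t, ht, rfl⟩
    have h1 : lb m τ (ln y z t) = L := lb_ln hz3.symm ht
    refine ⟨h1, (seg_QL hm hy (by rw [← hL, ← hz3]; exact mem_QL m τ z) hz1 ht).2,
      hc z hz1 hz2 hz3 t ht, notMem_Sk hy hys h1⟩
  set G : Set (E 4) := G₀ ∩ ψ ⁻¹' W with hG
  have hGo : IsOpen G := hG₀o.inter (hW.preimage hψ.cont)
  have hDG : cone y A ⊆ G := fun P hP => by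
    obtain ⟨h1, h2, h3, h4⟩ := hlab P hP
    exact ⟨hG₀L P h4 h1 (hi0 P h1), h3⟩
  -- the projection
  let Lp : E 4 →L[ℝ] E 4 := ContinuousLinearMap.id ℝ (E 4) -
    (ContinuousLinearMap.smulRight (EuclideanSpace.proj i : E 4 →L[ℝ] ℝ)
      (EuclideanSpace.single i (1 : ℝ)))
  have hLp : ∀ (u : E 4) (j : Fin 4), Lp u j = if j = i then 0 else u j := by
    intro u j
    simp only [Lp, _root_.sub_apply, ContinuousLinearMap.id_apply,
      ContinuousLinearMap.smulRight_apply, PiLp.sub_apply, PiLp.smul_apply, smul_eq_mul]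
    by_cases hj : j = i
    · subst hj
      simp
    · simp [hj]
  obtain ⟨χ, ε, hχ⟩ := exists_cn hDc hGo hDG Lp y
  -- coordinates of the points of `G`
  have hint : ∀ j, j ≠ i → ∀ x : ℝ, ((L j).1 : ℝ) < (m : ℝ) * x → (m : ℝ) * x < ((L j).2 : ℝ) →
      |x| < 3 := by
    intro j hj x h1 h2
    have h3 := abs_le.1 (hy.1 j)
    have h4 : -(3 * (m : ℝ)) ≤ ((L j).1 : ℝ) := by
      have : (-(3 * m : ℤ)) ≤ (L j).1 := by
        rw [hL]
        simp only [lb]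
        rw [Int.le_floor]
        push_cast
        nlinarith [h3.1]
      exact_mod_cast this
    have h5 : ((L j).2 : ℝ) ≤ 3 * (m : ℝ) := by
      have : (L j).2 ≤ (3 * m : ℤ) := by
        rw [hL]
        simp only [lb]
        rw [Int.ceil_le]
        push_cast
        nlinarith [h3.2]
      exact_mod_cast this
    rw [abs_lt]
    constructor
    · by_contra hcon
      push Not at hcon
      nlinarith
    · by_contra hcon
      push Not at hcon
      nlinarith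
  have hyG : ∀ j, j ≠ i → ((L j).1 : ℝ) < (m : ℝ) * (y j - τ j) ∧
      (m : ℝ) * (y j - τ j) < ((L j).2 : ℝ) := (hG₀L y hys rfl rfl).1
  have hSi : ∀ P (s : ℝ), (P - s • Lp (P - y)) i = P i := by
    intro P s
    simp only [PiLp.sub_apply, PiLp.smul_apply, smul_eq_mul, hLp, if_pos, mul_zero, sub_zero]
  have hS0 : ∀ P ∈ G₀, ∀ s ∈ Icc (0 : ℝ) (1 / 2), P - s • Lp (P - y) ∈ G₀ := by
    intro P hP s hs
    refine ⟨fun j hj => ?_, by
      show |(P - s • Lp (P - y)) i - y i| < 1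
      rw [hSi]; exact hP.2⟩
    have e1 := hP.1 j hj
    have e2 := hyG j hj
    have h3 : (m : ℝ) * ((P - s • Lp (P - y)) j - τ j) = (m : ℝ) * (P j - τ j) +
        s * ((m : ℝ) * (y j - τ j) - (m : ℝ) * (P j - τ j)) := by
      simp only [PiLp.sub_apply, PiLp.smul_apply, smul_eq_mul, hLp, if_neg hj]
      ring
    rw [h3]
    have hs0 := hs.1
    have hs1 := hs.2
    constructor <;> nlinarith [e1.1, e1.2, e2.1, e2.2]
  have hqoG : ∀ P ∈ G₀, (P ∈ qo τ ↔ |P i - τ i| < 3) := by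
    intro P hP
    refine ⟨fun h => h i, fun h j => ?_⟩
    by_cases hj : j = i
    · rw [hj]; exact h
    · exact hint j hj _ (hP.1 j hj).1 (hP.1 j hj).2
  have hqcG : ∀ P ∈ G₀, (P ∈ qc τ ↔ |P i - τ i| ≤ 3) := by
    intro P hP
    refine ⟨fun h => h i, fun h j => ?_⟩
    by_cases hj : j = i
    · rw [hj]; exact h
    · exact (hint j hj _ (hP.1 j hj).1 (hP.1 j hj).2).le
  have hqo : ∀ n P, (cn χ ε Lp y)^[n] P ∈ qo τ ↔ P ∈ qo τ := fun n P =>
    hχ.iter (fun P hP s hs => by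
      rw [hqoG _ (hS0 P hP.1 s hs), hqoG P hP.1, hSi]) n P
  have hqc : ∀ n P, (cn χ ε Lp y)^[n] P ∈ qc τ ↔ P ∈ qc τ := fun n P =>
    hχ.iter (fun P hP s hs => by
      rw [hqcG _ (hS0 P hP.1 s hs), hqcG P hP.1, hSi]) n P
  have hbd : ∀ n P, (cn χ ε Lp y)^[n] P ∈ bd τ ↔ P ∈ bd τ := fun n P => by
    rw [bd, Set.mem_sdiff, Set.mem_sdiff, hqo, hqc]
  have hGi : ∀ n P, (cn χ ε Lp y)^[n] P ∈ G ↔ P ∈ G := by
    intro n
    induction n with
    | zero => exact fun P => Iff.rfl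
    | succ n ih =>
      intro P
      rw [Function.iterate_succ']
      exact hχ.memG.trans (ih P)
  -- points of `G` in the boundary
  have hGbd : ∀ P ∈ G₀, P ∈ bd τ → lb m τ P = L := by
    intro P hP hPb
    have hface : ∀ i', |P i' - τ i'| = 3 → i' = i := by
      intro i' h1
      by_contra hcon
      have := hint i' hcon _ (hP.1 i' hcon).1 (hP.1 i' hcon).2
      rw [h1] at this
      exact lt_irrefl _ this
    have hPs : P ∉ Sk m τ := by
      rintro ⟨i', j', hij, h1, k, h2⟩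
      have h4 : j' ≠ i := fun h => hij ((hface i' h1).trans h.symm)
      have h5 := hP.1 j' h4
      have h6 : (L j').2 ≤ (L j').1 + 1 := by
        rw [hL]; simp only [lb]; exact Int.ceil_le_floor_add_one _
      rw [h2] at h5
      have h7 : (L j').1 < k := by exact_mod_cast h5.1
      have h8 : k < (L j').2 := by exact_mod_cast h5.2
      omega
    have hPi : P i = y i := by
      obtain ⟨i', hi'⟩ := mem_bd hPb
      rw [hface i' hi'] at hi'
      have h3 := abs_lt.1 (show |P i - y i| < 1 from hP.2)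
      rcases eq_or_eq_neg_of_abs_eq hi' with h4 | h4 <;>
        rcases eq_or_eq_neg_of_abs_eq hi with h5 | h5 <;> linarith
    refine lb_closed' hm hy hys hPb hPs fun j => ?_
    by_cases hj : j = i
    · rw [hj, hPi]
      exact lb_self m τ y i
    · exact ⟨(hP.1 j hj).1.le, (hP.1 j hj).2.le⟩
  -- iteration on the cone
  have hiter : ∀ P ∈ A, ∀ n : ℕ, (cn χ ε Lp y)^[n] P = ln y P ((1 - ε) ^ n) := by
    intro P hP n
    have hε0 := hχ.pos
    have hε1 := hχ.le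
    have hn01 : ∀ n : ℕ, (1 - ε) ^ n ∈ Icc (0 : ℝ) 1 := fun n =>
      ⟨pow_nonneg (by linarith) n, pow_le_one₀ (by linarith) (by linarith)⟩
    induction n with
    | zero => simp
    | succ n ih =>
      rw [Function.iterate_succ']
      show cn χ ε Lp y ((cn χ ε Lp y)^[n] P) = _
      rw [ih]
      have h1 : ln y P ((1 - ε) ^ n) ∈ cone y A := ⟨P, hP, _, hn01 n, rfl⟩
      rw [cn, hχ.one _ h1, mul_one]
      ext j
      simp only [PiLp.sub_apply, PiLp.smul_apply, smul_eq_mul, hLp, ln_apply]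
      by_cases hj : j = i
      · rw [if_pos hj, hj, hi0 P hP.2.2]
        ring
      · rw [if_neg hj]
        ring
  obtain ⟨n, hn⟩ : ∃ n : ℕ, ∀ P ∈ A, (cn χ ε Lp y)^[n] P ∈ V := by
    obtain ⟨r, hr, hrV⟩ := Metric.isOpen_iff.1 hV y hyV
    obtain ⟨B, hB⟩ := hAc.isBounded.exists_norm_le
    obtain ⟨n, hn⟩ : ∃ n : ℕ, (1 - ε) ^ n * (B + ‖y‖) < r := by
      have h1 : Tendsto (fun m : ℕ => (1 - ε) ^ m * (B + ‖y‖)) atTop (𝓝 (0 * (B + ‖y‖))) :=
        (tendsto_pow_atTop_nhds_zero_of_lt_one (by linarith [hχ.le])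
          (by linarith [hχ.pos])).mul_const _
      rw [zero_mul] at h1
      exact (h1.eventually (gt_mem_nhds hr)).exists
    refine ⟨n, fun P hP => hrV ?_⟩
    rw [hiter P hP n, mem_ball_iff_norm]
    have h1 : ln y P ((1 - ε) ^ n) - y = ((1 - ε) ^ n) • (P - y) := by simp [ln]
    have h0 : (0 : ℝ) ≤ (1 - ε) ^ n := pow_nonneg (by linarith [hχ.le]) n
    rw [h1, norm_smul, Real.norm_of_nonneg h0]
    refine lt_of_le_of_lt (mul_le_mul_of_nonneg_left ?_ h0) hn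
    calc ‖P - y‖ ≤ ‖P‖ + ‖y‖ := norm_sub_le _ _
      _ ≤ B + ‖y‖ := by gcongr; exact hB P hP
  obtain ⟨κ, hκ, hκψ, hκo⟩ := hχ.exists hψ n
  refine ⟨κ '' Z, hF.move Z hZ κ hκ, ?_, ?_⟩
  · rintro _ ⟨⟨x, hx, rfl⟩, hxo⟩
    by_cases hxr : x ∈ range ψ
    · obtain ⟨P, rfl⟩ := hxr
      rw [hκψ] at hxo ⊢
      by_cases hPG : P ∈ G
      · exact ((hGi n P).2 hPG).2
      · rw [hχ.fix' hPG] at hxo ⊢
        exact ha ⟨hx, hxo⟩
    · rw [hκo x hxr] at hxo ⊢
      exact ha ⟨hx, hxo⟩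
  · rintro z hz ⟨x, hx, hxz⟩
    have hxr : x ∈ range ψ := by
      by_contra hcon
      rw [hκo x hcon] at hxz
      exact hcon ⟨z, hxz.symm⟩
    obtain ⟨P, rfl⟩ := hxr
    rw [hκψ] at hxz
    have hPz : (cn χ ε Lp y)^[n] P = z := hψ.1 hxz
    rw [← hPz] at hz ⊢
    have hPb : P ∈ bd τ := (hbd n P).1 hz
    by_cases hPG : P ∈ G
    · have h1 : lb m τ P = L := hGbd P hPG.1 hPb
      have h2 : lb m τ ((cn χ ε Lp y)^[n] P) = L := hGbd _ ((hGi n P).2 hPG).1 hz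
      exact Or.inl ⟨h2, hn P ⟨hPb, hx, h1⟩⟩
    · rw [hχ.fix' hPG]
      refine Or.inr ⟨fun h1 => hPG (hDG ?_), hx⟩
      exact subset_cone _ _ ⟨hPb, hx, h1⟩

/-- compression of the part in the box -/
theorem Fam.squash_box {𝒢 : Set X → Prop} (hF : Fam 𝒢) [T2Space X] {ψ : E 4 → X} (hψ : Cell ψ)
    {τ : E 4} {W : Set X} (hW : IsOpen W) {Z : Set X} (hZ : 𝒢 Z) (ha : Z \ ψ '' qo τ ⊆ W)
    (hτ : ψ τ ∈ W) (hb : ∀ z ∈ bd τ, ψ z ∈ Z → ∀ t ∈ Icc (0 : ℝ) 1, ψ (ln τ z t) ∈ W) :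
    ∃ Z', 𝒢 Z' ∧ Z' ⊆ W := by
  set O : Set (E 4) := {P | ∀ t ∈ Icc (0 : ℝ) 1, ψ (ln τ P t) ∈ W} with hO
  have hOo : IsOpen O := by
    rw [isOpen_iff_mem_nhds]
    intro P hP
    refine IsCompact.eventually_forall_of_forall_eventually isCompact_Icc fun t ht => ?_
    have h1 : Continuous fun q : E 4 × ℝ => ψ (ln τ q.1 q.2) := by
      refine hψ.cont.comp ?_
      unfold ln; fun_prop
    exact h1.continuousAt.preimage_mem_nhds (hW.mem_nhds (hP t ht))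
  have hOs : ∀ P ∈ O, ∀ t ∈ Icc (0 : ℝ) 1, ln τ P t ∈ O := by
    intro P hP t ht s hs
    rw [ln_ln]
    exact hP _ ⟨mul_nonneg hs.1 ht.1, mul_le_one₀ hs.2 ht.1 ht.2⟩
  set A : Set (E 4) := ψ ⁻¹' Z ∩ qc τ with hA
  have hAc : IsCompact A := (isCompact_qc τ).inter_left ((hF.closed Z hZ).preimage hψ.cont)
  have hD : IsCompact (cone τ A \ O) := (cone_cpt τ hAc).diff hOo
  have hDq : cone τ A \ O ⊆ qo τ := by
    rintro _ ⟨⟨z, hz, t, ht, rfl⟩, hPO⟩
    rcases ht.2.eq_or_lt with h1 | h1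
    · rw [h1, ln_one] at hPO ⊢
      by_contra hcon
      exact hPO (hb z ⟨hz.2, hcon⟩ hz.1)
    · exact qo_of_lt hz.2 ht.1 h1
  obtain ⟨χ, ε, hχ⟩ := exists_cn hD (isOpen_qo τ) hDq (ContinuousLinearMap.id ℝ (E 4)) τ
  have hSln : ∀ P, cn χ ε (ContinuousLinearMap.id ℝ (E 4)) τ P = ln τ P (1 - ε * χ P) := by
    intro P
    show P - (ε * χ P) • (P - τ) = τ + (1 - ε * χ P) • (P - τ)
    rw [sub_smul, one_smul]
    abel
  have hSt : ∀ P, (1 - ε * χ P) ∈ Icc (0 : ℝ) 1 := by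
    intro P
    have := hχ.mem P
    have := hχ.pos
    have := hχ.le
    constructor <;> nlinarith
  obtain ⟨r, hr, hrO⟩ : ∃ r : ℝ, 0 < r ∧ ball τ r ⊆ O := by
    have h1 : τ ∈ O := by
      intro t _
      have : ln τ τ t = τ := by simp [ln]
      rw [this]
      exact hτ
    exact Metric.isOpen_iff.1 hOo τ h1
  have hiter : ∀ P ∈ cone τ A, ∀ m : ℕ,
      ((cn χ ε (ContinuousLinearMap.id ℝ (E 4)) τ)^[m] P ∈ cone τ A) ∧
      ((cn χ ε (ContinuousLinearMap.id ℝ (E 4)) τ)^[m] P ∈ O ∨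
        ‖(cn χ ε (ContinuousLinearMap.id ℝ (E 4)) τ)^[m] P - τ‖ ≤ (1 - ε) ^ m * ‖P - τ‖) := by
    intro P hP m
    induction m with
    | zero => exact ⟨hP, Or.inr (by simp)⟩
    | succ m ih =>
      rw [Function.iterate_succ']
      show cn χ ε _ τ ((cn χ ε _ τ)^[m] P) ∈ _ ∧ (cn χ ε _ τ ((cn χ ε _ τ)^[m] P) ∈ O ∨ _)
      refine ⟨?_, ?_⟩
      · rw [hSln]
        exact cone_star ih.1 (hSt _)
      · by_cases h1 : (cn χ ε (ContinuousLinearMap.id ℝ (E 4)) τ)^[m] P ∈ O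
        · left
          rw [hSln]
          exact hOs _ h1 _ (hSt _)
        · right
          have h2 := ih.2.resolve_left h1
          have h3 : ∀ Q, cn χ ε (ContinuousLinearMap.id ℝ (E 4)) τ Q - τ =
              (1 - ε * χ Q) • (Q - τ) := by
            intro Q
            rw [hSln]
            simp [ln]
          show ‖cn χ ε _ τ ((cn χ ε _ τ)^[m] P) - τ‖ ≤ _
          rw [h3, hχ.one _ ⟨ih.1, h1⟩, mul_one, norm_smul,
            Real.norm_of_nonneg (by linarith [hχ.le])]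
          calc (1 - ε) * ‖(cn χ ε (ContinuousLinearMap.id ℝ (E 4)) τ)^[m] P - τ‖
              ≤ (1 - ε) * ((1 - ε) ^ m * ‖P - τ‖) := by
                gcongr
                linarith [hχ.le]
            _ = (1 - ε) ^ (m + 1) * ‖P - τ‖ := by ring
  obtain ⟨B, hB⟩ := (cone_cpt τ hAc).isBounded.exists_norm_le
  obtain ⟨m, hm⟩ : ∃ m : ℕ, (1 - ε) ^ m * (B + ‖τ‖) < r := by
    have h1 : Tendsto (fun m : ℕ => (1 - ε) ^ m * (B + ‖τ‖)) atTop (𝓝 (0 * (B + ‖τ‖))) :=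
      (tendsto_pow_atTop_nhds_zero_of_lt_one (by linarith [hχ.le])
        (by linarith [hχ.pos])).mul_const _
    rw [zero_mul] at h1
    exact (h1.eventually (gt_mem_nhds hr)).exists
  have hend : ∀ P ∈ cone τ A, (cn χ ε (ContinuousLinearMap.id ℝ (E 4)) τ)^[m] P ∈ O := by
    intro P hP
    rcases (hiter P hP m).2 with h1 | h1
    · exact h1
    · apply hrO
      rw [mem_ball_iff_norm]
      refine lt_of_le_of_lt h1 (lt_of_le_of_lt ?_ hm)
      refine mul_le_mul_of_nonneg_left ?_ (pow_nonneg (by linarith [hχ.le]) m)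
      calc ‖P - τ‖ ≤ ‖P‖ + ‖τ‖ := norm_sub_le _ _
        _ ≤ B + ‖τ‖ := by gcongr; exact hB P hP
  obtain ⟨κ, hκ, hκψ, hκo⟩ := hχ.exists hψ m
  refine ⟨κ '' Z, hF.move Z hZ κ hκ, ?_⟩
  rintro _ ⟨x, hx, rfl⟩
  by_cases hxr : x ∈ range ψ
  · obtain ⟨P, rfl⟩ := hxr
    rw [hκψ]
    by_cases hP : P ∈ qo τ
    · have h1 := hend P (subset_cone _ _ ⟨hx, qo_qc hP⟩) 1 ⟨zero_le_one, le_rfl⟩
      rwa [ln_one] at h1
    · rw [hχ.fix' hP]
      refine ha ⟨hx, ?_⟩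
      rintro ⟨Q, hQ, hQP⟩
      rw [hψ.1 hQP] at hQ
      exact hP hQ
  · rw [hκo x hxr]
    exact ha ⟨hx, fun h => hxr (image_subset_range _ _ h)⟩

end Pool.Agent.L0h29.SP
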