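import Pool.Agent.L0h29.SP.Cube
import Pool.Agent.L0h29.EN.Lab

/-!
# Project SP: clearing of squares
-/

set_option autoImplicit false
set_option linter.unusedSectionVars false
set_option linter.unusedVariables false

open Set Filter Topology Metric Function MeasureTheory
open scoped Manifold ContDiff

noncomputable section

namespace Pool.Agent.L0h29.SP

open Pool.Agent.Y522 Pool.Agent.N550.KH Pool.Agent.N550.KH.One Pool.Agent.L0h29.CS
  Pool.Agent.L0h29.EN

variable {M N : Type} [TopologicalSpace M] [CompactSpace M] [T2Space M]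
  [ChartedSpace (E 4) M] [IsManifold (𝓡 4) ∞ M]
  [TopologicalSpace N] [CompactSpace N] [T2Space N] [ChartedSpace (E 4) N]
  [IsManifold (𝓡 4) ∞ N]

/-- cubes with directions in `J` can be cleared -/
def Clr (f₀ : M → N) (Z₀ : Set N) (J : Finset (Fin 4)) : Prop :=
  ∀ g : E 4 → N, Injective g → (∀ z, LD 4 g z) → ∀ (p : E 4) (r : ℝ), 0 < r →
    ∀ U, St 4 f₀ Z₀ U → ∀ K, IsClosed K → K ⊆ U →
    ∃ U', St 4 f₀ Z₀ U' ∧ K ⊆ U' ∧ ∀ z ∈ cub J p r, g z ∈ U'

/-- cubes with directions in `J` and with clear boundary can be cleared -/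
def Prm (f₀ : M → N) (Z₀ : Set N) (J : Finset (Fin 4)) : Prop :=
  ∀ g : E 4 → N, Injective g → (∀ z, LD 4 g z) → ∀ (p : E 4) (r : ℝ), 0 < r →
    ∀ U, St 4 f₀ Z₀ U → ∀ K, IsClosed K → K ⊆ U →
    (∀ z ∈ cub J p r, (∀ i ∈ J, |z i - p i| < r) → g z ∉ K) →
    (∀ z ∈ cub J p r, (∃ i ∈ J, |z i - p i| = r) → g z ∈ U) →
    ∃ U', St 4 f₀ Z₀ U' ∧ K ⊆ U' ∧ ∀ z ∈ cub J p r, g z ∈ U'

theorem clr_empty (f₀ : M → N) (Z₀ : Set N) : Clr f₀ Z₀ ∅ := by
  intro g hg hgl p r hr U hU K hKc hKU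
  obtain ⟨U', h1, h2, h3⟩ := hU.point (by norm_num) hg hgl p hKc hKU
  refine ⟨U', h1, h2, fun z hz => ?_⟩
  have : z = p := by
    ext i
    exact (hz i).2 (Finset.notMem_empty i)
  rw [this]
  exact h3

theorem perm_one : ∀ J : Finset (Fin 4), J.card = 1 → ∃ e : Equiv.Perm (Fin 4),
    ∀ x : Fin 4, e x ∈ J ↔ (x : ℕ) < 1 := by
  intro J hJ
  obtain ⟨a, rfl⟩ := Finset.card_eq_one.1 hJ
  refine ⟨Equiv.swap 0 a, fun x => ?_⟩
  rw [Finset.mem_singleton]
  constructor
  · intro h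
    have h1 : x = 0 := by
      rw [← Equiv.swap_apply_left (0 : Fin 4) a] at h
      exact (Equiv.swap 0 a).injective h
    rw [h1]; norm_num
  · intro h
    have h1 : x = 0 := by
      apply Fin.ext
      simp only [Fin.val_zero]
      omega
    rw [h1, Equiv.swap_apply_left]

theorem perm_two : ∀ J : Finset (Fin 4), J.card = 2 → ∃ e : Equiv.Perm (Fin 4),
    ∀ x : Fin 4, e x ∈ J ↔ (x : ℕ) < 2 := by
  decide

theorem prm_one (f₀ : M → N) (Z₀ : Set N) {J : Finset (Fin 4)} (hJ : J.card = 1) :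
    Prm f₀ Z₀ J := by
  intro g hg hgl p r hr U hU K hKc hKU h1 h2
  obtain ⟨e, he⟩ := perm_one J hJ
  exact St.cube (m := 1) (k := 3) (by norm_num) (mdf1 3) hU hg hgl e he p hr hKc hKU h1 h2

theorem prm_two (f₀ : M → N) (Z₀ : Set N) {J : Finset (Fin 4)} (hJ : J.card = 2) :
    Prm f₀ Z₀ J := by
  intro g hg hgl p r hr U hU K hKc hKU h1 h2
  obtain ⟨e, he⟩ := perm_two J hJ
  exact St.cube (m := 2) (k := 2) (by norm_num) (mdf2 2) hU hg hgl e he p hr hKc hKU h1 h2

/-- finite families -/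
theorem clear_list {f₀ : M → N} {Z₀ : Set N} {ι : Type} [DecidableEq ι] (s : Finset ι)
    (C : ι → Set N) (hC : ∀ x ∈ s, IsClosed (C x))
    (hcl : ∀ x ∈ s, ∀ U, St 4 f₀ Z₀ U → ∀ K, IsClosed K → K ⊆ U →
      ∃ U', St 4 f₀ Z₀ U' ∧ K ⊆ U' ∧ C x ⊆ U') {U : Set N} (hU : St 4 f₀ Z₀ U) {K : Set N}
    (hK : IsClosed K) (hKU : K ⊆ U) :
    ∃ U', St 4 f₀ Z₀ U' ∧ K ⊆ U' ∧ ∀ x ∈ s, C x ⊆ U' := by
  induction s using Finset.induction_on with
  | empty => exact ⟨U, hU, hKU, fun x hx => absurd hx (Finset.notMem_empty x)⟩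
  | insert x s _ ih =>
    obtain ⟨U₁, h1, h2, h3⟩ := ih (fun y hy => hC y (Finset.mem_insert_of_mem hy))
      (fun y hy => hcl y (Finset.mem_insert_of_mem hy))
    have hcl' : IsClosed (⋃ y ∈ s, C y) := isClosed_biUnion_finset fun y hy =>
      hC y (Finset.mem_insert_of_mem hy)
    obtain ⟨U₂, e1, e2, e3⟩ := hcl x (Finset.mem_insert_self _ _) U₁ h1 (K ∪ ⋃ y ∈ s, C y)
      (hK.union hcl') (union_subset h2 (iUnion₂_subset h3))
    refine ⟨U₂, e1, subset_union_left.trans e2, fun y hy => ?_⟩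
    rcases Finset.mem_insert.1 hy with rfl | hy
    · exact e3
    · exact (subset_biUnion_of_mem (u := C) (show y ∈ (s : Set ι) from hy)).trans
        (subset_union_right.trans e2)

/-- subdivision -/
theorem clr_of {f₀ : M → N} {Z₀ : Set N} {J : Finset (Fin 4)} (hP : Prm f₀ Z₀ J)
    (hE : ∀ j ∈ J, Clr f₀ Z₀ (J.erase j)) : Clr f₀ Z₀ J := by
  classical
  intro g hg hgl p r hr U hU K hKc hKU
  have hUo : IsOpen U := hU.isOpen
  have hgc : Continuous g := continuous_iff_continuousAt.2 fun z => (hgl z).continuousAt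
  -- the mesh
  obtain ⟨n, hn0, hn⟩ : ∃ n : ℕ, 0 < n ∧ ∀ z z' : E 4, z ∈ cub J p r → g z ∈ K →
      (∀ i, |z' i - z i| ≤ 2 * (r / n)) → g z' ∈ U := by
    obtain ⟨ε, hε, hεU⟩ := ((isCompact_cub J p hr.le).inter_right
      (hKc.preimage hgc)).exists_thickening_subset_open (hUo.preimage hgc)
      (fun z hz => hKU hz.2)
    obtain ⟨n, hn⟩ := exists_nat_gt (4 * r / ε)
    have hn' : (0 : ℝ) < n := lt_trans (by positivity) hn
    refine ⟨n, by exact_mod_cast hn', fun z z' hz hzK hd => hεU ?_⟩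
    rw [mem_thickening_iff]
    refine ⟨z, ⟨hz, hzK⟩, ?_⟩
    rw [dist_eq_norm]
    refine lt_of_le_of_lt (norm_le_two (x := z' - z) (r := 2 * (r / n)) (by positivity)
      (fun i => by simpa using hd i)) ?_
    rw [div_lt_iff₀ hε] at hn
    have h1 : 2 * (2 * (r / n)) = 4 * r / (n : ℝ) := by ring
    rw [h1, div_lt_iff₀ hn']
    linarith
  have hn' : (0 : ℝ) < n := by exact_mod_cast hn0
  have hrn : 0 < r / n := by positivity
  -- coordinates
  let T : E 4 → Fin 4 → ℝ := fun z i => (z i - p i + r) * (n / (2 * r))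
  have hT1 : ∀ z i, z i - p i = (2 * (r / n)) * T z i - r := by
    intro z i
    show z i - p i = (2 * (r / n)) * ((z i - p i + r) * (n / (2 * r))) - r
    field_simp
    ring
  let c : (Fin 4 → ℤ) → E 4 := fun a => WithLp.toLp 2 fun i =>
    if i ∈ J then p i - r + (2 * (a i : ℝ) + 1) * (r / n) else p i
  have hcJ : ∀ a i, i ∈ J → c a i = p i - r + (2 * (a i : ℝ) + 1) * (r / n) := fun a i hi => by
    show (if i ∈ J then _ else _) = _
    rw [if_pos hi]
  have hcN : ∀ a i, i ∉ J → c a i = p i := fun a i hi => by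
    show (if i ∈ J then _ else _) = _
    rw [if_neg hi]
  have hT2 : ∀ a z i, i ∈ J → z i - c a i = (2 * (r / n)) * (T z i - a i - 1 / 2) := by
    intro a z i hi
    rw [hcJ a i hi]
    have := hT1 z i
    linear_combination this
  have hle : ∀ a z i, i ∈ J → (|z i - c a i| ≤ r / n ↔ ((a i : ℝ) ≤ T z i ∧ T z i ≤ a i + 1)) := by
    intro a z i hi
    rw [hT2 a z i hi, abs_mul, abs_of_pos (by positivity : 0 < 2 * (r / n)), mul_comm (2 : ℝ),
      mul_assoc, mul_le_iff_le_one_right hrn, ← le_div_iff₀' (by norm_num : (0 : ℝ) < 2), abs_le]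
    constructor
    · rintro ⟨h1, h2⟩; constructor <;> linarith
    · rintro ⟨h1, h2⟩; constructor <;> linarith
  have hlt : ∀ a z i, i ∈ J → (|z i - c a i| < r / n ↔ ((a i : ℝ) < T z i ∧ T z i < a i + 1)) := by
    intro a z i hi
    rw [hT2 a z i hi, abs_mul, abs_of_pos (by positivity : 0 < 2 * (r / n)), mul_comm (2 : ℝ),
      mul_assoc, mul_lt_iff_lt_one_right hrn, ← lt_div_iff₀' (by norm_num : (0 : ℝ) < 2), abs_lt]
    constructor
    · rintro ⟨h1, h2⟩; constructor <;> linarith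
    · rintro ⟨h1, h2⟩; constructor <;> linarith
  have heq : ∀ a z i, i ∈ J → |z i - c a i| = r / n → T z i = a i ∨ T z i = a i + 1 := by
    intro a z i hi h
    have h1 := (hle a z i hi).1 h.le
    by_contra hcon
    rw [not_or] at hcon
    have h2 := (hlt a z i hi).2 ⟨lt_of_le_of_ne h1.1 (fun h => hcon.1 h.symm),
      lt_of_le_of_ne h1.2 hcon.2⟩
    exact absurd h (ne_of_lt h2)
  have hbig : ∀ z i, (0 ≤ T z i ∧ T z i ≤ n ↔ |z i - p i| ≤ r) := by
    intro z i
    rw [hT1 z i, abs_le]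
    have h1 : 2 * (r / n) * (n : ℝ) = 2 * r := by field_simp
    have h2 : (0 : ℝ) < 2 * (r / n) := by positivity
    constructor
    · rintro ⟨h3, h4⟩
      constructor
      · nlinarith
      · have := mul_le_mul_of_nonneg_left h4 h2.le
        linarith
    · rintro ⟨h3, h4⟩
      constructor
      · by_contra hcon
        push Not at hcon
        nlinarith
      · by_contra hcon
        push Not at hcon
        have := mul_lt_mul_of_pos_left hcon h2
        linarith
  -- the indices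
  let S : Finset (Fin 4 → ℤ) := Fintype.piFinset fun i =>
    if i ∈ J then Finset.Icc (0 : ℤ) (n - 1) else {0}
  have hS : ∀ a, a ∈ S ↔ ∀ i, (i ∈ J → 0 ≤ a i ∧ a i ≤ n - 1) ∧ (i ∉ J → a i = 0) := by
    intro a
    rw [Fintype.mem_piFinset]
    refine forall_congr' fun i => ?_
    by_cases hi : i ∈ J
    · rw [if_pos hi, Finset.mem_Icc]
      exact ⟨fun h => ⟨fun _ => h, fun h' => absurd hi h'⟩, fun h => h.1 hi⟩
    · rw [if_neg hi, Finset.mem_singleton]
      exact ⟨fun h => ⟨fun h' => absurd h' hi, fun _ => h⟩, fun h => h.2 hi⟩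
  let Q : (Fin 4 → ℤ) → Set (E 4) := fun a => cub J (c a) (r / n)
  have hQsub : ∀ a ∈ S, Q a ⊆ cub J p r := by
    intro a ha z hz i
    refine ⟨fun hi => ?_, fun hi => ?_⟩
    · rw [← hbig]
      have h1 := (hle a z i hi).1 ((hz i).1 hi)
      have h2 := ((hS a).1 ha i).1 hi
      have h3 : (0 : ℝ) ≤ a i := by exact_mod_cast h2.1
      have h4 : (a i : ℝ) ≤ n - 1 := by exact_mod_cast h2.2
      constructor <;> linarith
    · rw [(hz i).2 hi, hcN a i hi]
  have hcov : ∀ z ∈ cub J p r, ∃ a ∈ S, z ∈ Q a := by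
    intro z hz
    refine ⟨fun i => if i ∈ J then min ⌊T z i⌋ (n - 1) else 0, ?_, fun i => ⟨fun hi => ?_,
      fun hi => ?_⟩⟩
    · rw [hS]
      intro i
      refine ⟨fun hi => ?_, fun hi => by simp [hi]⟩
      simp only [if_pos hi]
      have h1 := (hbig z i).2 ((hz i).1 hi)
      refine ⟨le_min (Int.floor_nonneg.2 h1.1) (by omega), min_le_right _ _⟩
    · rw [hle _ z i hi]
      simp only [if_pos hi]
      have h1 := (hbig z i).2 ((hz i).1 hi)
      rcases le_total ⌊T z i⌋ ((n : ℤ) - 1) with h2 | h2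
      · rw [min_eq_left h2]
        exact ⟨Int.floor_le _, (Int.lt_floor_add_one _).le⟩
      · rw [min_eq_right h2]
        have h3 : (((n : ℤ) - 1 : ℤ) : ℝ) ≤ (⌊T z i⌋ : ℝ) := by exact_mod_cast h2
        refine ⟨h3.trans (Int.floor_le _), ?_⟩
        push_cast
        linarith [h1.2]
    · rw [hcN _ i hi]
      exact (hz i).2 hi
  have hQc : ∀ a, IsClosed (g '' Q a) := fun a =>
    ((isCompact_cub J (c a) hrn.le).image hgc).isClosed
  have huniq : ∀ a ∈ S, ∀ b ∈ S, ∀ z, (∀ i ∈ J, |z i - c a i| < r / n) → z ∈ Q b → a = b := by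
    intro a ha b hb z hz hzb
    funext i
    by_cases hi : i ∈ J
    · have h1 := (hlt a z i hi).1 (hz i hi)
      have h2 := (hle b z i hi).1 ((hzb i).1 hi)
      have h3 : (a i : ℝ) < b i + 1 := by linarith
      have h4 : (b i : ℝ) < a i + 1 := by linarith
      have h5 : a i < b i + 1 := by exact_mod_cast h3
      have h6 : b i < a i + 1 := by exact_mod_cast h4
      omega
    · rw [((hS a).1 ha i).2 hi, ((hS b).1 hb i).2 hi]
  -- the enlarged set
  let B : Finset (Fin 4 → ℤ) := S.filter fun a => ∃ z ∈ Q a, g z ∈ K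
  set K₀ : Set N := K ∪ ⋃ a ∈ B, g '' Q a with hK₀
  have hK₀c : IsClosed K₀ := hKc.union (isClosed_biUnion_finset fun a _ => hQc a)
  have hK₀U : K₀ ⊆ U := by
    refine union_subset hKU (iUnion₂_subset fun a ha => ?_)
    obtain ⟨haS, z, hz, hzK⟩ := Finset.mem_filter.1 ha
    rintro _ ⟨z', hz', rfl⟩
    refine hn z z' (hQsub a haS hz) hzK fun i => ?_
    by_cases hi : i ∈ J
    · have h1 := (hz i).1 hi
      have h2 := (hz' i).1 hi
      rw [abs_le] at h1 h2 ⊢
      constructor <;> linarith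
    · rw [(hz i).2 hi, (hz' i).2 hi, sub_self, abs_zero]
      positivity
  -- the slices
  let I : Finset (Fin 4 × ℤ) := J ×ˢ Finset.Icc (0 : ℤ) n
  let Sl : Fin 4 × ℤ → Set (E 4) := fun x => cub J p r ∩ {z | T z x.1 = x.2}
  have hSlc : ∀ x, IsClosed (g '' Sl x) := fun x => by
    refine (((isCompact_cub J p hr.le).inter_right ?_).image hgc).isClosed
    exact isClosed_eq (by fun_prop) continuous_const
  obtain ⟨U₁, hU₁, hK₀U₁, hSlU₁⟩ := clear_list I (fun x => g '' Sl x) (fun x _ => hSlc x) (by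
    intro x hx V hV K' hK' hKV
    rw [Finset.mem_product] at hx
    let q : E 4 := WithLp.toLp 2 fun i => if i = x.1 then p i - r + 2 * (r / n) * x.2 else p i
    obtain ⟨V', h1, h2, h3⟩ := hE x.1 hx.1 g hg hgl q r hr V hV K' hK' hKV
    refine ⟨V', h1, h2, ?_⟩
    rintro _ ⟨z, ⟨hz, hzT⟩, rfl⟩
    refine h3 z fun i => ?_
    have hq1 : q x.1 = p x.1 - r + 2 * (r / n) * x.2 := by
      show (if x.1 = x.1 then _ else _) = _
      rw [if_pos rfl]
    have hq2 : ∀ i, i ≠ x.1 → q i = p i := fun i hi => by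
      show (if i = x.1 then _ else _) = _
      rw [if_neg hi]
    refine ⟨fun hi => ?_, fun hi => ?_⟩
    · rw [Finset.mem_erase] at hi
      rw [hq2 i hi.1]
      exact (hz i).1 hi.2
    · by_cases hix : i = x.1
      · rw [hix, hq1]
        have h4 := hT1 z x.1
        rw [show T z x.1 = x.2 from hzT] at h4
        linarith
      · rw [hq2 i hix]
        exact (hz i).2 fun h => hi (Finset.mem_erase.2 ⟨hix, h⟩)) hU hK₀c hK₀U
  set K₁ : Set N := K₀ ∪ ⋃ x ∈ I, g '' Sl x with hK₁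
  have hK₁c : IsClosed K₁ := hK₀c.union (isClosed_biUnion_finset fun x _ => hSlc x)
  have hK₁U₁ : K₁ ⊆ U₁ := union_subset hK₀U₁ (iUnion₂_subset hSlU₁)
  -- the small cubes
  have key : ∀ s : Finset (Fin 4 → ℤ), s ⊆ S → ∃ U', St 4 f₀ Z₀ U' ∧ K₁ ⊆ U' ∧
      ∀ a ∈ s, g '' Q a ⊆ U' := by
    intro s
    induction s using Finset.induction_on with
    | empty => exact fun _ => ⟨U₁, hU₁, hK₁U₁, fun a ha => absurd ha (Finset.notMem_empty a)⟩
    | insert a s ha ih =>
      intro hs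
      have haS : a ∈ S := hs (Finset.mem_insert_self _ _)
      have hsS : s ⊆ S := (Finset.subset_insert _ _).trans hs
      obtain ⟨U₂, h1, h2, h3⟩ := ih hsS
      by_cases haB : a ∈ B
      · refine ⟨U₂, h1, h2, fun b hb => ?_⟩
        rcases Finset.mem_insert.1 hb with rfl | hb
        · exact fun y hy => h2 (Or.inl (Or.inr (mem_iUnion₂.2 ⟨_, haB, hy⟩)))
        · exact h3 b hb
      have hKc2 : IsClosed (K₁ ∪ ⋃ b ∈ s, g '' Q b) :=
        hK₁c.union (isClosed_biUnion_finset fun b _ => hQc b)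
      obtain ⟨U₃, e1, e2, e3⟩ := hP g hg hgl (c a) (r / n) hrn U₂ h1 _ hKc2
        (union_subset h2 (iUnion₂_subset h3)) (by
          rintro z hz hzs (((hzK | hzK) | hzK) | hzK)
          · exact haB (Finset.mem_filter.2 ⟨haS, z, hz, hzK⟩)
          · obtain ⟨b, hb, w, hw, hwz⟩ := mem_iUnion₂.1 hzK
            rw [hg hwz] at hw
            rw [huniq a haS b (Finset.mem_filter.1 hb).1 z hzs hw] at haB
            exact haB hb
          · obtain ⟨x, hx, w, ⟨-, hw⟩, hwz⟩ := mem_iUnion₂.1 hzK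
            rw [hg hwz] at hw
            have hxJ := (Finset.mem_product.1 hx).1
            have h4 := (hlt a z x.1 hxJ).1 (hzs x.1 hxJ)
            rw [show T z x.1 = x.2 from hw] at h4
            have h5 : a x.1 < x.2 := by exact_mod_cast h4.1
            have h6 : x.2 < a x.1 + 1 := by exact_mod_cast h4.2
            omega
          · obtain ⟨b, hb, w, hw, hwz⟩ := mem_iUnion₂.1 hzK
            rw [hg hwz] at hw
            rw [huniq a haS b (hsS hb) z hzs hw] at ha
            exact ha hb) (by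
          rintro z hz ⟨i, hi, hzi⟩
          apply h2
          right
          have h4 := ((hS a).1 haS i).1 hi
          rcases heq a z i hi hzi with h5 | h5
          · exact mem_iUnion₂.2 ⟨(i, a i), Finset.mem_product.2 ⟨hi, Finset.mem_Icc.2
              ⟨h4.1, by omega⟩⟩, z, ⟨hQsub a haS hz, h5⟩, rfl⟩
          · exact mem_iUnion₂.2 ⟨(i, a i + 1), Finset.mem_product.2 ⟨hi, Finset.mem_Icc.2
              ⟨by omega, by omega⟩⟩, z, ⟨hQsub a haS hz, by
                show T z i = ((a i + 1 : ℤ) : ℝ)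
                push_cast
                exact h5⟩, rfl⟩)
      refine ⟨U₃, e1, subset_union_left.trans e2, fun b hb => ?_⟩
      rcases Finset.mem_insert.1 hb with rfl | hb
      · rintro _ ⟨z, hz, rfl⟩
        exact e3 z hz
      · exact fun y hy => e2 (Or.inr (mem_iUnion₂.2 ⟨b, hb, hy⟩))
  obtain ⟨U', h1, h2, h3⟩ := key S (Finset.Subset.refl S)
  refine ⟨U', h1, fun y hy => h2 (Or.inl (Or.inl hy)), fun z hz => ?_⟩
  obtain ⟨a, ha, hza⟩ := hcov z hz
  exact h3 a ha ⟨z, hza, rfl⟩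

theorem clr_one (f₀ : M → N) (Z₀ : Set N) {J : Finset (Fin 4)} (hJ : J.card = 1) :
    Clr f₀ Z₀ J := by
  refine clr_of (prm_one f₀ Z₀ hJ) fun j hj => ?_
  have h1 : J.erase j = ∅ := by
    rw [← Finset.card_eq_zero, Finset.card_erase_of_mem hj, hJ]
  rw [h1]
  exact clr_empty f₀ Z₀

theorem clr_two (f₀ : M → N) (Z₀ : Set N) {J : Finset (Fin 4)} (hJ : J.card = 2) :
    Clr f₀ Z₀ J := by
  refine clr_of (prm_two f₀ Z₀ hJ) fun j hj => ?_
  exact clr_one f₀ Z₀ (by rw [Finset.card_erase_of_mem hj, hJ])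

end Pool.Agent.L0h29.SP
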