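import Pool.Agent.L0h29.SP.Prim

/-!
# Project SP: clearing of a cube with clear boundary
-/

set_option autoImplicit false
set_option linter.unusedSectionVars false
set_option linter.unusedVariables false

open Set Filter Topology Metric Function MeasureTheory
open scoped Manifold ContDiff

noncomputable section

namespace Pool.Agent.L0h29.SP

open Pool.Agent.Y522 Pool.Agent.N550.KH Pool.Agent.N550.KH.One Pool.Agent.L0h29.CS

/-- a diffeomorphism of the line with an interval -/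
def sq (x : ℝ) : ℝ := x / √(1 + x ^ 2)

def sqi (y : ℝ) : ℝ := y / √(1 - y ^ 2)

theorem sqrt_pos' (x : ℝ) : 0 < √(1 + x ^ 2) := Real.sqrt_pos.2 (by positivity)

theorem sq_smooth : ContDiff ℝ ∞ sq := by
  have h1 : ContDiff ℝ ∞ fun x : ℝ => √(1 + x ^ 2) :=
    (contDiff_const.add (contDiff_id.pow 2)).sqrt fun x => by positivity
  exact contDiff_id.div h1 fun x => (sqrt_pos' x).ne'

theorem sq_sq (x : ℝ) : sq x ^ 2 = x ^ 2 / (1 + x ^ 2) := by
  rw [sq, div_pow, Real.sq_sqrt (by positivity)]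

theorem abs_sq_lt (x : ℝ) : |sq x| < 1 := by
  rw [← sq_lt_one_iff_abs_lt_one, sq_sq, div_lt_one (by positivity)]
  linarith

theorem sqi_sq (x : ℝ) : sqi (sq x) = x := by
  have h1 : 1 - sq x ^ 2 = (1 + x ^ 2)⁻¹ := by
    rw [sq_sq]
    field_simp
    ring
  have h2 := sqrt_pos' x
  rw [sqi, h1, Real.sqrt_inv, div_inv_eq_mul, sq, div_mul_cancel₀ _ h2.ne']

theorem sq_sqi {y : ℝ} (hy : |y| < 1) : sq (sqi y) = y := by
  have h0 : 0 < 1 - y ^ 2 := by
    have := (sq_lt_one_iff_abs_lt_one y).2 hy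
    linarith
  have h1 : 1 + sqi y ^ 2 = (1 - y ^ 2)⁻¹ := by
    rw [sqi, div_pow, Real.sq_sqrt h0.le]
    field_simp
    ring
  have h2 : 0 < √(1 - y ^ 2) := Real.sqrt_pos.2 h0
  rw [sq, h1, Real.sqrt_inv, div_inv_eq_mul, sqi, div_mul_cancel₀ _ h2.ne']

theorem sq_mono {c x : ℝ} (hc : 0 ≤ c) (h : c ≤ |x|) : sq c ≤ |sq x| := by
  have h1 : 0 ≤ sq c := div_nonneg hc (Real.sqrt_nonneg _)
  rw [← abs_of_nonneg h1]
  rw [← sq_le_sq, sq_sq, sq_sq, div_le_div_iff₀ (by positivity) (by positivity)]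
  have h2 : c ^ 2 ≤ x ^ 2 := by
    rw [sq_le_sq, abs_of_nonneg hc]
    exact h
  nlinarith

theorem sq_large {c η : ℝ} (hc : 0 < c) (hη : 0 < η) : ∃ R : ℝ, 0 < R ∧ 1 - η ≤ sq (R * c) := by
  refine ⟨1 / (η * c), by positivity, ?_⟩
  have h1 : 1 / (η * c) * c = 1 / η := by field_simp
  rw [h1]
  have h2 : √(1 + (1 / η) ^ 2) ≤ 1 + 1 / η := by
    rw [Real.sqrt_le_left (by positivity)]
    have : 0 < 1 / η := by positivity
    nlinarith
  have h3 : 1 / η / (1 + 1 / η) ≤ sq (1 / η) :=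
    div_le_div_of_nonneg_left (by positivity) (sqrt_pos' _) h2
  refine le_trans ?_ h3
  have h4 : 1 / η / (1 + 1 / η) = 1 / (1 + η) := by
    field_simp
    ring
  rw [h4, le_div_iff₀ (by positivity)]
  nlinarith

theorem sqi_diff {y : ℝ} (hy : |y| < 1) : DifferentiableAt ℝ sqi y := by
  have h0 : 0 < 1 - y ^ 2 := by
    have := (sq_lt_one_iff_abs_lt_one y).2 hy
    linarith
  have h1 : DifferentiableAt ℝ (fun y : ℝ => √(1 - y ^ 2)) y :=
    DifferentiableAt.sqrt (by fun_prop) h0.ne'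
  exact differentiableAt_id.div h1 (Real.sqrt_pos.2 h0).ne'

section

variable {n : ℕ}

/-- the closed cube with the directions in `J` -/
def cub (J : Finset (Fin n)) (p : E n) (r : ℝ) : Set (E n) :=
  {z | ∀ i, (i ∈ J → |z i - p i| ≤ r) ∧ (i ∉ J → z i = p i)}

theorem isClosed_cub (J : Finset (Fin n)) (p : E n) (r : ℝ) : IsClosed (cub J p r) := by
  have h : cub J p r = ⋂ i, ((⋂ _ : i ∈ J, {z : E n | |z i - p i| ≤ r}) ∩
      ⋂ _ : i ∉ J, {z : E n | z i = p i}) := by
    ext z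
    simp only [cub, mem_ofPred_eq, mem_iInter, mem_inter_iff]
  rw [h]
  refine isClosed_iInter fun i => IsClosed.inter (isClosed_iInter fun _ => ?_)
    (isClosed_iInter fun _ => ?_)
  · exact isClosed_le (by fun_prop) continuous_const
  · exact isClosed_eq (by fun_prop) continuous_const

theorem isCompact_cub (J : Finset (Fin n)) (p : E n) {r : ℝ} (hr : 0 ≤ r) :
    IsCompact (cub J p r) := by
  refine Metric.isCompact_of_isClosed_isBounded (isClosed_cub J p r) ?_
  refine (isBounded_closedBall (x := p) (r := √(n * r ^ 2))).subset fun z hz => ?_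
  rw [mem_closedBall, dist_eq_norm, EuclideanSpace.norm_eq]
  refine Real.sqrt_le_sqrt ?_
  have h1 : ∀ i ∈ (Finset.univ : Finset (Fin n)), ‖(z - p) i‖ ^ 2 ≤ r ^ 2 := by
    intro i _
    have h2 : (z - p) i = z i - p i := by simp
    rw [Real.norm_eq_abs, h2]
    refine pow_le_pow_left₀ (abs_nonneg _) ?_ 2
    by_cases hi : i ∈ J
    · exact (hz i).1 hi
    · rw [(hz i).2 hi, sub_self, abs_zero]
      exact hr
  refine (Finset.sum_le_card_nsmul _ _ _ h1).trans ?_
  simp

end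

section

variable {m k : ℕ}

/-- the parametrization of a neighbourhood of an open cube -/
def Phi (m k : ℕ) (R : ℝ) (e : Equiv.Perm (Fin (m + k))) (p : E (m + k)) (r : ℝ)
    (z : E (m + k)) : E (m + k) :=
  WithLp.toLp 2 fun i => p i + r * (if ((e.symm i : Fin (m + k)) : ℕ) < m then
    sq (R * z (e.symm i)) else z (e.symm i))

def Psi (m k : ℕ) (R : ℝ) (e : Equiv.Perm (Fin (m + k))) (p : E (m + k)) (r : ℝ)
    (w : E (m + k)) : E (m + k) :=
  WithLp.toLp 2 fun x => if (x : ℕ) < m then R⁻¹ * sqi (r⁻¹ * (w (e x) - p (e x))) else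
    r⁻¹ * (w (e x) - p (e x))

theorem Phi_apply {R : ℝ} {e : Equiv.Perm (Fin (m + k))} {p : E (m + k)} {r : ℝ}
    (z : E (m + k)) (x : Fin (m + k)) : Phi m k R e p r z (e x) = p (e x) +
      r * (if (x : ℕ) < m then sq (R * z x) else z x) := by
  simp [Phi]

theorem Psi_Phi {R : ℝ} (hR : 0 < R) {e : Equiv.Perm (Fin (m + k))} {p : E (m + k)} {r : ℝ}
    (hr : 0 < r) (z : E (m + k)) : Psi m k R e p r (Phi m k R e p r z) = z := by
  ext x
  show (if (x : ℕ) < m then R⁻¹ * sqi (r⁻¹ * (Phi m k R e p r z (e x) - p (e x))) else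
    r⁻¹ * (Phi m k R e p r z (e x) - p (e x))) = z x
  rw [Phi_apply, add_sub_cancel_left, ← mul_assoc, inv_mul_cancel₀ hr.ne', one_mul]
  split_ifs with h
  · rw [sqi_sq, ← mul_assoc, inv_mul_cancel₀ hR.ne', one_mul]
  · rfl

theorem Phi_Psi {R : ℝ} (hR : 0 < R) {e : Equiv.Perm (Fin (m + k))} {p : E (m + k)} {r : ℝ}
    (hr : 0 < r) {w : E (m + k)} (hw : ∀ x : Fin (m + k), (x : ℕ) < m → |w (e x) - p (e x)| < r) :
    Phi m k R e p r (Psi m k R e p r w) = w := by
  ext i
  obtain ⟨x, rfl⟩ := e.surjective i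
  rw [Phi_apply]
  show p (e x) + r * (if (x : ℕ) < m then sq (R * (if (x : ℕ) < m then
    R⁻¹ * sqi (r⁻¹ * (w (e x) - p (e x))) else r⁻¹ * (w (e x) - p (e x)))) else
    (if (x : ℕ) < m then R⁻¹ * sqi (r⁻¹ * (w (e x) - p (e x))) else
    r⁻¹ * (w (e x) - p (e x)))) = w (e x)
  split_ifs with h
  · rw [← mul_assoc R, mul_inv_cancel₀ hR.ne', one_mul, sq_sqi, ← mul_assoc,
      mul_inv_cancel₀ hr.ne', one_mul, add_sub_cancel]
    rw [abs_mul, abs_inv, abs_of_pos hr, inv_mul_lt_iff₀ hr, mul_one]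
    exact hw x h
  · rw [← mul_assoc, mul_inv_cancel₀ hr.ne', one_mul, add_sub_cancel]

theorem Phi_smooth (R : ℝ) (e : Equiv.Perm (Fin (m + k))) (p : E (m + k)) (r : ℝ) :
    ContDiff ℝ ∞ (Phi m k R e p r) := by
  rw [contDiff_euclidean]
  intro i
  have h1 : ContDiff ℝ ∞ fun z : E (m + k) => z (e.symm i) := by fun_prop
  show ContDiff ℝ ∞ fun z : E (m + k) => p i + r * (if ((e.symm i : Fin (m + k)) : ℕ) < m then
    sq (R * z (e.symm i)) else z (e.symm i))
  split_ifs with h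
  · exact contDiff_const.add (contDiff_const.mul (sq_smooth.comp (contDiff_const.mul h1)))
  · exact contDiff_const.add (contDiff_const.mul h1)

theorem Phi_ld {R : ℝ} (hR : 0 < R) (e : Equiv.Perm (Fin (m + k))) (p : E (m + k)) {r : ℝ}
    (hr : 0 < r) (z : E (m + k)) : LD (m + k) (Phi m k R e p r) z := by
  refine Sqz.ld_of_left_inverse (g := Psi m k R e p r)
    (Eventually.of_forall fun y => (Phi_smooth R e p r).contDiffAt) ?_
    (Eventually.of_forall fun y => Psi_Phi hR hr y)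
  rw [differentiableAt_euclidean]
  intro x
  have h1 : DifferentiableAt ℝ (fun w : E (m + k) => r⁻¹ * (w (e x) - p (e x)))
      (Phi m k R e p r z) := by fun_prop
  show DifferentiableAt ℝ (fun w : E (m + k) => if (x : ℕ) < m then
    R⁻¹ * sqi (r⁻¹ * (w (e x) - p (e x))) else r⁻¹ * (w (e x) - p (e x))) (Phi m k R e p r z)
  split_ifs with h
  · refine (differentiableAt_const _).mul ?_
    refine DifferentiableAt.comp (g := sqi) _ (sqi_diff ?_) h1
    rw [Phi_apply, if_pos h, add_sub_cancel_left, ← mul_assoc, inv_mul_cancel₀ hr.ne', one_mul]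
    exact abs_sq_lt _
  · exact h1

theorem norm_lt_one_of {m : ℕ} (u : E m) (h : ∀ x, |u x| < 1 / ((m : ℝ) + 1)) : ‖u‖ < 1 := by
  have h0 : (0 : ℝ) ≤ m := Nat.cast_nonneg m
  rw [← sq_lt_one_iff₀ (norm_nonneg _), EuclideanSpace.norm_sq_eq]
  have h1 : ∀ i ∈ (Finset.univ : Finset (Fin m)), ‖u i‖ ^ 2 ≤ (1 / ((m : ℝ) + 1)) ^ 2 := by
    intro i _
    rw [Real.norm_eq_abs]
    exact pow_le_pow_left₀ (abs_nonneg _) (h i).le 2
  refine lt_of_le_of_lt (Finset.sum_le_card_nsmul _ _ _ h1) ?_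
  simp only [Finset.card_univ, Fintype.card_fin, nsmul_eq_mul]
  rw [one_div, inv_pow, ← div_eq_mul_inv, div_lt_one (by positivity)]
  nlinarith

variable {M N : Type} [TopologicalSpace M] [CompactSpace M] [T2Space M]
  [ChartedSpace (E (m + k)) M] [IsManifold (𝓡 (m + k)) ∞ M]
  [TopologicalSpace N] [CompactSpace N] [T2Space N] [ChartedSpace (E (m + k)) N]
  [IsManifold (𝓡 (m + k)) ∞ N]

/-- a cube with clear boundary is cleared -/
theorem St.cube (hk : 2 ≤ k) (hMDF : MDF m k) {f₀ : M → N} {Z₀ U : Set N}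
    (h : St (m + k) f₀ Z₀ U) {g : E (m + k) → N} (hg : Injective g)
    (hgl : ∀ z, LD (m + k) g z) (e : Equiv.Perm (Fin (m + k))) {J : Finset (Fin (m + k))}
    (he : ∀ x, e x ∈ J ↔ (x : ℕ) < m) (p : E (m + k)) {r : ℝ} (hr : 0 < r) {K : Set N}
    (hKc : IsClosed K) (hKU : K ⊆ U)
    (hK : ∀ z ∈ cub J p r, (∀ i ∈ J, |z i - p i| < r) → g z ∉ K)
    (hU : ∀ z ∈ cub J p r, (∃ i ∈ J, |z i - p i| = r) → g z ∈ U) :
    ∃ U', St (m + k) f₀ Z₀ U' ∧ K ⊆ U' ∧ ∀ z ∈ cub J p r, g z ∈ U' := by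
  have hUo : IsOpen U := h.isOpen
  have hgc : Continuous g := continuous_iff_continuousAt.2 fun z => (hgl z).continuousAt
  -- the neighbourhood of the boundary
  obtain ⟨η, hη, hηU⟩ : ∃ η : ℝ, 0 < η ∧ ∀ z ∈ cub J p r, (∃ i ∈ J, (1 - η) * r ≤ |z i - p i|) →
      g z ∈ U := by
    have hbc : IsCompact {z | z ∈ cub J p r ∧ ∃ i ∈ J, |z i - p i| = r} := by
      have h1 : {z | z ∈ cub J p r ∧ ∃ i ∈ J, |z i - p i| = r} =
          cub J p r ∩ ⋃ i ∈ J, {z : E (m + k) | |z i - p i| = r} := by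
        ext z
        simp only [mem_ofPred_eq, mem_inter_iff, mem_iUnion, exists_prop]
      rw [h1]
      refine (isCompact_cub J p hr.le).inter_right ?_
      refine isClosed_biUnion_finset fun i _ => ?_
      exact isClosed_eq (by fun_prop) continuous_const
    obtain ⟨ε, hε, hεU⟩ := hbc.exists_thickening_subset_open (hUo.preimage hgc)
      (fun z hz => hU z hz.1 hz.2)
    refine ⟨ε / (2 * r), by positivity, ?_⟩
    rintro z hz ⟨i, hi, hzi⟩
    have hzr := (hz i).1 hi
    obtain ⟨s, hs, hsz⟩ : ∃ s : ℝ, |s| = r ∧ |z i - p i - s| ≤ ε / 2 := by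
      have h1 : (1 - ε / (2 * r)) * r = r - ε / 2 := by field_simp
      rw [h1] at hzi
      rcases le_total 0 (z i - p i) with h2 | h2
      · rw [abs_of_nonneg h2] at hzi hzr
        refine ⟨r, abs_of_pos hr, ?_⟩
        rw [abs_le]; constructor <;> linarith
      · rw [abs_of_nonpos h2] at hzi hzr
        refine ⟨-r, by rw [abs_neg, abs_of_pos hr], ?_⟩
        rw [abs_le]; constructor <;> linarith
    apply hεU
    rw [mem_thickening_iff]
    refine ⟨z - EuclideanSpace.single i (z i - p i - s), ⟨?_, i, hi, ?_⟩, ?_⟩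
    · intro j
      by_cases hj : j = i
      · subst hj
        refine ⟨fun _ => ?_, fun h => absurd hi h⟩
        have h1 : (z - EuclideanSpace.single j (z j - p j - s)) j - p j = s := by
          simp
          ring
        rw [h1, hs]
      · have h1 : (z - EuclideanSpace.single i (z i - p i - s)) j = z j := by
          simp [hj]
        rw [h1]
        exact hz j
    · have h1 : (z - EuclideanSpace.single i (z i - p i - s)) i - p i = s := by
        simp
        ring
      rw [h1, hs]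
    · rw [dist_eq_norm, sub_sub_cancel, PiLp.norm_single, Real.norm_eq_abs]
      linarith
  obtain ⟨R, hR, hRη⟩ := sq_large (c := 1 / ((m : ℝ) + 1)) (by positivity) hη
  set l : E (m + k) → N := fun z => g (Phi m k R e p r z) with hl
  have hli : Injective l := hg.comp (Function.LeftInverse.injective (Psi_Phi hR hr))
  have hll : ∀ z, LD (m + k) l z := fun z =>
    LD.comp_fun (g := g) (f := Phi m k R e p r) (hgl _) (Phi_ld hR e p hr z)
  have hlc : Continuous l := continuous_iff_continuousAt.2 fun z => (hll z).continuousAt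
  have hvp : ∀ z : E (m + k), vp m k z = 0 ↔ ∀ x : Fin (m + k), ¬ (x : ℕ) < m → z x = 0 := by
    intro z
    constructor
    · intro h0 x hx
      have h1 : x = Fin.natAdd m ⟨(x : ℕ) - m, by have := x.2; omega⟩ := by
        apply Fin.ext
        simp only [Fin.val_natAdd]
        omega
      have h2 : vp m k z ⟨(x : ℕ) - m, by have := x.2; omega⟩ = 0 := by rw [h0]; rfl
      rw [vp_apply, ← h1] at h2
      exact h2
    · intro h0
      ext i
      rw [vp_apply]
      exact h0 _ (by simp)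
  have hin : ∀ z, vp m k z = 0 → Phi m k R e p r z ∈ cub J p r ∧
      ∀ i ∈ J, |Phi m k R e p r z i - p i| < r := by
    intro z hz
    have h1 : ∀ i ∈ J, |Phi m k R e p r z i - p i| < r := by
      intro i hi
      obtain ⟨x, rfl⟩ := e.surjective i
      rw [Phi_apply, if_pos ((he x).1 hi), add_sub_cancel_left, abs_mul, abs_of_pos hr]
      have := abs_sq_lt (R * z x)
      nlinarith
    refine ⟨fun i => ⟨fun hi => (h1 i hi).le, fun hi => ?_⟩, h1⟩
    obtain ⟨x, rfl⟩ := e.surjective i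
    have hx : ¬ (x : ℕ) < m := fun h => hi ((he x).2 h)
    rw [Phi_apply, if_neg hx, (hvp z).1 hz x hx, mul_zero, add_zero]
  have hout : ∀ z, vp m k z = 0 → 1 ≤ ‖up m k z‖ → l z ∈ U := by
    intro z hz h1
    refine hηU _ (hin z hz).1 ?_
    obtain ⟨x, hx⟩ : ∃ x, 1 / ((m : ℝ) + 1) ≤ |up m k z x| := by
      by_contra hcon
      push Not at hcon
      exact absurd (norm_lt_one_of _ hcon) (not_lt.2 h1)
    have hxm : ((Fin.castAdd k x : Fin (m + k)) : ℕ) < m := by simp
    refine ⟨e (Fin.castAdd k x), (he _).2 hxm, ?_⟩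
    rw [Phi_apply, if_pos hxm, add_sub_cancel_left, abs_mul, abs_of_pos hr, mul_comm]
    refine mul_le_mul_of_nonneg_left ?_ hr.le
    refine hRη.trans (sq_mono (by positivity) ?_)
    rw [abs_mul, abs_of_pos hR]
    exact mul_le_mul_of_nonneg_left hx hR.le
  set D : Set (E (m + k)) := {z | z ∈ cub J p r ∧
    ∀ u, vp m k u = 0 → ‖up m k u‖ < 1 → Phi m k R e p r u ≠ z} with hD
  have hDU : ∀ z ∈ D, g z ∈ U := by
    rintro z ⟨hz, hz2⟩
    by_cases hb : ∃ i ∈ J, |z i - p i| = r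
    · exact hU z hz hb
    · push Not at hb
      have h1 : ∀ i ∈ J, |z i - p i| < r := fun i hi => lt_of_le_of_ne ((hz i).1 hi) (hb i hi)
      have h2 : Phi m k R e p r (Psi m k R e p r z) = z :=
        Phi_Psi hR hr fun x hx => h1 _ ((he x).2 hx)
      have h3 : vp m k (Psi m k R e p r z) = 0 := by
        rw [hvp]
        intro x hx
        show (if (x : ℕ) < m then R⁻¹ * sqi (r⁻¹ * (z (e x) - p (e x))) else
          r⁻¹ * (z (e x) - p (e x))) = 0
        rw [if_neg hx, (hz (e x)).2 (fun h => hx ((he x).1 h)), sub_self, mul_zero]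
      have h4 : 1 ≤ ‖up m k (Psi m k R e p r z)‖ := by
        by_contra hcon
        exact hz2 _ h3 (not_le.1 hcon) h2
      have h5 := hout _ h3 h4
      simp only [hl, h2] at h5
      exact h5
  have hcpt : IsCompact {z : E (m + k) | vp m k z = 0 ∧ ‖up m k z‖ ≤ 1} := by
    apply Metric.isCompact_of_isClosed_isBounded
    · exact (isClosed_eq (vp m k).continuous continuous_const).inter
        (isClosed_le (up m k).continuous.norm continuous_const)
    · refine (isBounded_closedBall (x := (0 : E (m + k))) (r := 1)).subset ?_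
      rintro z ⟨hz0, hz1⟩
      rw [mem_closedBall_zero_iff]
      have h1 := norm_sq_split z
      rw [hz0, norm_zero] at h1
      nlinarith [norm_nonneg z, norm_nonneg (up m k z)]
  obtain ⟨ε, hε, hεK⟩ := hcpt.exists_thickening_subset_open
    (hKc.isOpen_compl.preimage hlc) (fun z hz => hK _ (hin z hz.1).1 (hin z hz.1).2)
  obtain ⟨U', h1, h2, h3⟩ := h.handle hk hMDF hli hll (K := K ∪ g '' D)
    (union_subset hKU (by rintro _ ⟨z, hz, rfl⟩; exact hDU z hz)) ⟨ε, hε, by
      rintro z hz1 hz2 (hzK | ⟨w, hw, hwz⟩)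
      · refine hεK ?_ hzK
        rw [mem_thickening_iff]
        exact ⟨jn m k (up m k z) 0, ⟨by rw [vp_jn], by rw [up_jn]; exact hz1.le⟩, by
          rw [norm_sub_jn]; exact hz2⟩
      · have h4 : w = Phi m k R e p r z := hg hwz
        rw [h4] at hw
        refine hw.2 z ?_ hz1 rfl
        rw [hvp]
        intro x hx
        have h5 := (hw.1 (e x)).2 (fun h => hx ((he x).1 h))
        rw [Phi_apply, if_neg hx] at h5
        have h6 : r * z x = 0 := by linarith
        exact (mul_eq_zero.1 h6).resolve_left hr.ne'⟩ (fun z hz1 hz2 _ => hout z hz1 hz2)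
  refine ⟨U', h1, subset_union_left.trans h2, fun z hz => ?_⟩
  by_cases hzD : z ∈ D
  · exact h2 (Or.inr ⟨z, hzD, rfl⟩)
  · have h4 : ∃ u, vp m k u = 0 ∧ ‖up m k u‖ < 1 ∧ Phi m k R e p r u = z := by
      by_contra hcon
      push Not at hcon
      exact hzD ⟨hz, hcon⟩
    obtain ⟨u, hu1, hu2, rfl⟩ := h4
    exact h3 u hu1 hu2.le

end

/-- a point is cleared -/
theorem St.point {n : ℕ} (hn : 2 ≤ n) {M N : Type} [TopologicalSpace M] [CompactSpace M] [T2Space M]
    [ChartedSpace (E n) M] [IsManifold (𝓡 n) ∞ M]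
    [TopologicalSpace N] [CompactSpace N] [T2Space N] [ChartedSpace (E n) N]
    [IsManifold (𝓡 n) ∞ N] {f₀ : M → N} {Z₀ U : Set N}
    (h : St n f₀ Z₀ U) {g : E n → N} (hg : Injective g) (hgl : ∀ z, LD n g z) (p : E n)
    {K : Set N} (hKc : IsClosed K) (hKU : K ⊆ U) :
    ∃ U', St n f₀ Z₀ U' ∧ K ⊆ U' ∧ g p ∈ U' := by
  by_cases hp : g p ∈ K
  · exact ⟨U, h, hKU, hKU hp⟩
  have hgc : Continuous g := continuous_iff_continuousAt.2 fun z => (hgl z).continuousAt
  obtain ⟨δ, hδ, hδK⟩ := Metric.isOpen_iff.1 (hKc.isOpen_compl.preimage hgc) p hp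
  let a : E n → E n := fun z => p + δ • Sqz.bb n z
  have hai : ∀ z, Sqz.bi n (δ⁻¹ • (a z - p)) = z := by
    intro z
    show Sqz.bi n (δ⁻¹ • (p + δ • Sqz.bb n z - p)) = z
    rw [add_sub_cancel_left, smul_smul, inv_mul_cancel₀ hδ.ne', one_smul, Sqz.bi_bb]
  have hal : ∀ z, LD n a z := by
    intro z
    have hac : ContDiff ℝ ∞ a := contDiff_const.add ((Sqz.bb_smooth n).const_smul δ)
    refine Sqz.ld_of_left_inverse (g := fun w => Sqz.bi n (δ⁻¹ • (w - p)))
      (Eventually.of_forall fun y => hac.contDiffAt) ?_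
      (Eventually.of_forall fun y => hai y)
    have h1 : DifferentiableAt ℝ (Sqz.bi n) (δ⁻¹ • (a z - p)) := by
      have h2 : δ⁻¹ • (a z - p) = Sqz.bb n z := by
        show δ⁻¹ • (p + δ • Sqz.bb n z - p) = _
        rw [add_sub_cancel_left, smul_smul, inv_mul_cancel₀ hδ.ne', one_smul]
      rw [h2]
      exact ((Sqz.bi_smooth n).contDiffAt (isOpen_ball.mem_nhds
        (mem_ball_zero_iff.2 (Sqz.bb_mem n z)))).differentiableAt (by simp)
    exact DifferentiableAt.comp (g := Sqz.bi n) _ h1 (by fun_prop)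
  obtain ⟨U', h1, h2⟩ := h.zero hn (b := fun z => g (a z))
    (hg.comp (Function.LeftInverse.injective (g := fun w => Sqz.bi n (δ⁻¹ • (w - p))) hai))
    (fun z => LD.comp_fun (g := g) (f := a) (hgl _) (hal z)) hKU (fun z hz => by
      refine hδK ?_ hz
      rw [mem_ball_iff_norm]
      show ‖p + δ • Sqz.bb n z - p‖ < δ
      rw [add_sub_cancel_left, norm_smul, Real.norm_of_nonneg hδ.le]
      have := Sqz.bb_mem n z
      nlinarith)
  refine ⟨U', h1, subset_union_left.trans h2, h2 (Or.inr ⟨0, mem_closedBall_self zero_le_one, ?_⟩)⟩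
  show g (p + δ • Sqz.bb n 0) = g p
  rw [(Sqz.bb_eq_zero n 0).2 rfl, smul_zero, add_zero]

end Pool.Agent.L0h29.SP
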