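import Pool.Agent.L0h29.EN.Thin
import Pool.Agent.L0h29.EN.Lab

/-!
# Project SP: gauge functions and finite coverings by small balls
-/

set_option autoImplicit false
set_option linter.unusedSectionVars false
set_option linter.unusedVariables false

open Set Filter Topology Metric Function MeasureTheory
open scoped Manifold ContDiff ENNReal NNReal

noncomputable section

namespace Pool.Agent.L0h29.SP

open Pool.Agent.Y522 Pool.Agent.N550.KH Pool.Agent.N550.KH.One Pool.Agent.L0h29.CS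
  Pool.Agent.L0h29.EN

/-! ### Sets with quadratic covering numbers -/

/-- `A` is covered by `C / r ^ 2` balls of radius `r`, for all `r ≤ 1` -/
def Bc {α : Type*} [MetricSpace α] (A : Set α) : Prop :=
  ∃ C : ℝ, 0 ≤ C ∧ ∀ r : ℝ, 0 < r → r ≤ 1 → ∃ t : Finset α, (t.card : ℝ) ≤ C / r ^ 2 ∧
    ∀ z ∈ A, ∃ p ∈ t, dist z p < r

theorem bc_empty {α : Type*} [MetricSpace α] : Bc (∅ : Set α) :=
  ⟨0, le_rfl, fun r _ _ => ⟨∅, by simp, by simp⟩⟩

theorem Bc.mono {α : Type*} [MetricSpace α] {A B : Set α} (h : A ⊆ B) (hB : Bc B) : Bc A := by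
  obtain ⟨C, hC, h1⟩ := hB
  refine ⟨C, hC, fun r hr hr1 => ?_⟩
  obtain ⟨t, h2, h3⟩ := h1 r hr hr1
  exact ⟨t, h2, fun z hz => h3 z (h hz)⟩

theorem Bc.union {α : Type*} [MetricSpace α] {A B : Set α} (hA : Bc A) (hB : Bc B) :
    Bc (A ∪ B) := by
  classical
  obtain ⟨C, hC, h1⟩ := hA
  obtain ⟨C', hC', h1'⟩ := hB
  refine ⟨C + C', by positivity, fun r hr hr1 => ?_⟩
  obtain ⟨t, h2, h3⟩ := h1 r hr hr1
  obtain ⟨t', h2', h3'⟩ := h1' r hr hr1
  refine ⟨t ∪ t', ?_, ?_⟩
  · have h4 : ((t ∪ t').card : ℝ) ≤ t.card + t'.card := by exact_mod_cast Finset.card_union_le t t'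
    rw [add_div]
    linarith
  · rintro z (hz | hz)
    · obtain ⟨p, hp, hpz⟩ := h3 z hz
      exact ⟨p, Finset.mem_union_left _ hp, hpz⟩
    · obtain ⟨p, hp, hpz⟩ := h3' z hz
      exact ⟨p, Finset.mem_union_right _ hp, hpz⟩

theorem Bc.image {α β : Type*} [MetricSpace α] [MetricSpace β] {A : Set α} {F : α → β} {K : ℝ≥0}
    (hA : Bc A) (hF : LipschitzOnWith K F A) : Bc (F '' A) := by
  classical
  obtain ⟨C, hC, h1⟩ := hA
  set K' : ℝ := max K 1 with hK'
  have hK1 : 1 ≤ K' := le_max_right _ _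
  have hK0 : 0 < K' := by linarith
  have hKK : (K : ℝ) ≤ K' := le_max_left _ _
  refine ⟨C * (2 * K') ^ 2, by positivity, fun r hr hr1 => ?_⟩
  have hr' : 0 < r / (2 * K') := by positivity
  have hr1' : r / (2 * K') ≤ 1 := by
    rw [div_le_one (by positivity)]
    linarith
  obtain ⟨t, h2, h3⟩ := h1 (r / (2 * K')) hr' hr1'
  let w : α → α := fun p => if h : ∃ w ∈ A, dist w p < r / (2 * K') then h.choose else p
  refine ⟨t.image fun p => F (w p), ?_, ?_⟩
  · have h4 : ((t.image fun p => F (w p)).card : ℝ) ≤ t.card := by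
      exact_mod_cast Finset.card_image_le
    refine h4.trans (h2.trans (le_of_eq ?_))
    field_simp
  · rintro _ ⟨z, hz, rfl⟩
    obtain ⟨p, hp, hpz⟩ := h3 z hz
    refine ⟨F (w p), Finset.mem_image.2 ⟨p, hp, rfl⟩, ?_⟩
    have hex : ∃ w ∈ A, dist w p < r / (2 * K') := ⟨z, hz, hpz⟩
    have hw : w p = hex.choose := dif_pos hex
    have hwA : w p ∈ A := by rw [hw]; exact hex.choose_spec.1
    have hwd : dist (w p) p < r / (2 * K') := by rw [hw]; exact hex.choose_spec.2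
    have h5 : dist z (w p) < 2 * (r / (2 * K')) := by
      have := dist_triangle_right z (w p) p
      linarith
    calc dist (F z) (F (w p)) ≤ K * dist z (w p) := hF.dist_le_mul z hz (w p) hwA
      _ ≤ K' * dist z (w p) := by gcongr
      _ < K' * (2 * (r / (2 * K'))) := by gcongr
      _ = r := by field_simp

theorem others : ∀ i j : Fin 4, i ≠ j → ∃ k l : Fin 4, i ≠ k ∧ j ≠ k ∧ i ≠ l ∧ j ≠ l ∧ k ≠ l ∧
    ∀ m : Fin 4, m = i ∨ m = j ∨ m = k ∨ m = l := by decide

/-- flat bounded sets of dimension two -/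
theorem bc_flat {i j : Fin 4} (hij : i ≠ j) {a b L : ℝ} (hL : 0 ≤ L) {A : Set (E 4)}
    (hA : ∀ z ∈ A, z i = a ∧ z j = b) (hAL : ∀ z ∈ A, ∀ k, |z k| ≤ L) : Bc A := by
  classical
  obtain ⟨k, l, hik, hjk, hil, hjl, hkl, hall⟩ := others i j hij
  refine ⟨9 * (2 * L + 3) ^ 2, by positivity, fun r hr hr1 => ?_⟩
  set s : ℝ := r / 3 with hs
  have hs0 : 0 < s := by positivity
  have hs1 : s ≤ 1 := by rw [hs]; linarith
  set n : ℤ := ⌈L / s⌉ with hn
  have hn0 : 0 ≤ n := Int.ceil_nonneg (by positivity)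
  let P : ℤ × ℤ → E 4 := fun q => WithLp.toLp 2 fun m =>
    if m = i then a else if m = j then b else s * (if m = k then (q.1 : ℝ) else q.2)
  refine ⟨(Finset.Icc (-n) n ×ˢ Finset.Icc (-n) n).image P, ?_, ?_⟩
  · have h1 : (((Finset.Icc (-n) n ×ˢ Finset.Icc (-n) n).image P).card : ℝ) ≤
        ((Finset.Icc (-n) n ×ˢ Finset.Icc (-n) n).card : ℝ) := by
      exact_mod_cast Finset.card_image_le
    refine h1.trans ?_
    rw [Finset.card_product, Int.card_Icc]
    have h2 : (((n + 1 - -n).toNat : ℕ) : ℝ) = 2 * n + 1 := by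
      have h3 : (((n + 1 - -n).toNat : ℕ) : ℤ) = 2 * n + 1 := by
        rw [Int.toNat_of_nonneg (by linarith)]
        ring
      exact_mod_cast h3
    push_cast
    rw [h2]
    have h4 : (n : ℝ) < L / s + 1 := Int.ceil_lt_add_one _
    have h5 : 2 * (n : ℝ) + 1 ≤ (2 * L + 3) / s := by
      have h6 : (2 * L + 3) / s = 2 * (L / s) + 3 / s := by ring
      have h7 : 3 ≤ 3 / s := by
        rw [le_div_iff₀ hs0]
        linarith
      rw [h6]
      linarith
    have hn0' : (0 : ℝ) ≤ n := by exact_mod_cast hn0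
    calc (2 * (n : ℝ) + 1) * (2 * n + 1) ≤ ((2 * L + 3) / s) * ((2 * L + 3) / s) :=
          mul_le_mul h5 h5 (by positivity) (by positivity)
      _ = 9 * (2 * L + 3) ^ 2 / r ^ 2 := by rw [hs]; field_simp; ring
  · intro z hz
    have hfl : ∀ x : ℝ, |x| ≤ L → ⌊x / s⌋ ∈ Finset.Icc (-n) n := by
      intro x hx
      rw [abs_le] at hx
      have e1 : x / s ≤ L / s := by gcongr; exact hx.2
      have e2 : -(L / s) ≤ x / s := by
        rw [← neg_div]
        gcongr
        exact hx.1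
      have e3 : L / s ≤ n := Int.le_ceil _
      rw [Finset.mem_Icc]
      constructor
      · rw [Int.le_floor]
        push_cast
        linarith
      · have : (⌊x / s⌋ : ℝ) ≤ n := (Int.floor_le _).trans (e1.trans e3)
        exact_mod_cast this
    have hfd : ∀ x : ℝ, |x - s * ⌊x / s⌋| ≤ s := by
      intro x
      have e1 := Int.floor_le (x / s)
      have e2 := Int.lt_floor_add_one (x / s)
      rw [le_div_iff₀ hs0] at e1
      rw [div_lt_iff₀ hs0] at e2
      rw [abs_le]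
      constructor <;> nlinarith
    refine ⟨P (⌊z k / s⌋, ⌊z l / s⌋), Finset.mem_image.2 ⟨_, Finset.mem_product.2
      ⟨hfl _ (hAL z hz k), hfl _ (hAL z hz l)⟩, rfl⟩, ?_⟩
    rw [dist_eq_norm]
    have h1 : ‖z - P (⌊z k / s⌋, ⌊z l / s⌋)‖ ≤ 2 * s := by
      refine norm_le_two hs0.le fun m => ?_
      have h2 : (z - P (⌊z k / s⌋, ⌊z l / s⌋)) m = z m - (if m = i then a else if m = j then b else
        s * (if m = k then (⌊z k / s⌋ : ℝ) else ⌊z l / s⌋)) := by
        simp [P]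
      rw [h2]
      rcases hall m with rfl | rfl | rfl | rfl
      · rw [if_pos rfl, (hA z hz).1, sub_self, abs_zero]
        exact hs0.le
      · rw [if_neg hij.symm, if_pos rfl, (hA z hz).2, sub_self, abs_zero]
        exact hs0.le
      · rw [if_neg hik.symm, if_neg hjk.symm, if_pos rfl]
        exact hfd _
      · rw [if_neg hil.symm, if_neg hjl.symm, if_neg hkl.symm]
        exact hfd _
    have h3 : 2 * s < r := by rw [hs]; linarith
    exact lt_of_le_of_lt h1 h3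

/-- images of compact flat sets -/
theorem bc_compact {i j : Fin 4} (hij : i ≠ j) {a b : ℝ} {A : Set (E 4)} (hA : IsCompact A)
    (hAf : ∀ z ∈ A, z i = a ∧ z j = b) {F : E 4 → E 4} (hF : ∀ z ∈ A, ContDiffAt ℝ 1 F z) :
    Bc (F '' A) := by
  obtain ⟨L, hL⟩ := hA.isBounded.exists_norm_le
  have hbc : Bc A := bc_flat (L := max L 0) hij (le_max_right _ _) hAf fun z hz k =>
    ((PiLp.norm_apply_le z k).trans (hL z hz)).trans (le_max_left _ _)
  have key : Bc (F '' (A ∩ A)) := by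
    refine hA.induction_on (p := fun s => Bc (F '' (A ∩ s))) ?_ ?_ ?_ ?_
    · rw [inter_empty, image_empty]; exact bc_empty
    · exact fun s t hst ht => ht.mono (image_mono (inter_subset_inter_right _ hst))
    · intro s t hs ht
      rw [inter_union_distrib_left, image_union]
      exact hs.union ht
    · intro x hx
      obtain ⟨K, t, ht, hK⟩ := (hF x hx).exists_lipschitzOnWith
      exact ⟨t, mem_nhdsWithin_of_mem_nhds ht,
        (hbc.mono inter_subset_left).image (hK.mono inter_subset_right)⟩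
  rwa [inter_self] at key

/-! ### Coverings adapted to gauge functions -/

/-- `A` is covered by finitely many balls with radii less than `δ` the sum of the values of `g` at
whose radii is less than `ε` -/
def Tn (g : ℝ → ℝ≥0∞) (δ : ℝ) (ε : ℝ≥0∞) (A : Set (E 4)) : Prop :=
  ∃ l : List (E 4 × ℝ), (∀ p ∈ l, 0 < p.2 ∧ p.2 < δ) ∧ (l.map fun p => g p.2).sum < ε ∧
    ∀ z ∈ A, ∃ p ∈ l, z ∈ ball p.1 p.2

/-- `g r` is small compared to `r ^ 2` for arbitrarily small `r` -/
def Lo (g : ℝ → ℝ≥0∞) : Prop :=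
  ∀ η : ℝ, 0 < η → ∀ δ : ℝ, 0 < δ → ∃ r, 0 < r ∧ r < δ ∧ g r ≤ ENNReal.ofReal (η * r ^ 2)

variable {g : ℝ → ℝ≥0∞} {δ : ℝ} {ε : ℝ≥0∞}

theorem Tn.mono {A A' : Set (E 4)} (h : Tn g δ ε A) (hA : A' ⊆ A) : Tn g δ ε A' := by
  obtain ⟨l, h1, h2, h3⟩ := h
  exact ⟨l, h1, h2, fun z hz => h3 z (hA hz)⟩

theorem tn_empty (hε : 0 < ε) : Tn g δ ε (∅ : Set (E 4)) :=
  ⟨[], by simp, by simpa using hε, by simp⟩

/-- thin sets may be added -/
theorem Tn.add {A : Set (E 4)} (h : Tn g δ ε A) :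
    ∃ ε' : ℝ≥0∞, 0 < ε' ∧ ∀ A', Tn g δ ε' A' → Tn g δ ε (A ∪ A') := by
  obtain ⟨l, h1, h2, h3⟩ := h
  refine ⟨ε - (l.map fun p => g p.2).sum, tsub_pos_of_lt h2, ?_⟩
  rintro A' ⟨l', h1', h2', h3'⟩
  refine ⟨l ++ l', fun p hp => ?_, ?_, ?_⟩
  · rcases List.mem_append.1 hp with hp | hp
    · exact h1 p hp
    · exact h1' p hp
  · rw [List.map_append, List.sum_append]
    calc (l.map fun p => g p.2).sum + (l'.map fun p => g p.2).sum <
        (l.map fun p => g p.2).sum + (ε - (l.map fun p => g p.2).sum) :=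
          ENNReal.add_lt_add_left h2.ne_top h2'
      _ = ε := add_tsub_cancel_of_le h2.le
  · rintro z (hz | hz)
    · obtain ⟨p, hp, hpz⟩ := h3 z hz
      exact ⟨p, List.mem_append.2 (Or.inl hp), hpz⟩
    · obtain ⟨p, hp, hpz⟩ := h3' z hz
      exact ⟨p, List.mem_append.2 (Or.inr hp), hpz⟩

theorem Tn.exists_open {A : Set (E 4)} (h : Tn g δ ε A) :
    ∃ O : Set (E 4), IsOpen O ∧ A ⊆ O ∧ Tn g δ ε O := by
  obtain ⟨l, h1, h2, h3⟩ := h
  refine ⟨{z | ∃ p ∈ l, z ∈ ball p.1 p.2}, ?_, fun z hz => h3 z hz, l, h1, h2, fun z hz => hz⟩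
  have : {z : E 4 | ∃ p ∈ l, z ∈ ball p.1 p.2} = ⋃ p ∈ {p | p ∈ l}, ball p.1 p.2 := by
    ext z
    simp
  rw [this]
  exact isOpen_biUnion fun p _ => isOpen_ball

/-- sets with quadratic covering numbers are thin -/
theorem tn_of_bc {A : Set (E 4)} (hA : Bc A) (hg : Lo g) (hδ : 0 < δ) (hε : 0 < ε) :
    Tn g δ ε A := by
  obtain ⟨C, hC, h1⟩ := hA
  obtain ⟨e, he0, heε⟩ : ∃ e : ℝ, 0 < e ∧ ENNReal.ofReal e ≤ ε := by
    have h2 : min ε 1 ≠ ⊤ := (min_lt_of_right_lt ENNReal.one_lt_top).ne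
    refine ⟨(min ε 1).toReal, ENNReal.toReal_pos (lt_min hε one_pos).ne' h2, ?_⟩
    rw [ENNReal.ofReal_toReal h2]
    exact min_le_left _ _
  obtain ⟨r, hr0, hr, hgr⟩ := hg (e / (2 * (C + 1))) (by positivity) (min δ 1)
    (lt_min hδ one_pos)
  obtain ⟨t, h2, h3⟩ := h1 r hr0 (hr.le.trans (min_le_right _ _))
  refine ⟨t.toList.map fun p => (p, r), ?_, ?_, ?_⟩
  · intro p hp
    obtain ⟨q, -, rfl⟩ := List.mem_map.1 hp
    exact ⟨hr0, hr.trans_le (min_le_left _ _)⟩
  · rw [List.map_map, show ((fun p : E 4 × ℝ => g p.2) ∘ fun p : E 4 => (p, r)) =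
      fun _ => g r from rfl, Finset.sum_map_toList, Finset.sum_const, nsmul_eq_mul]
    have h4 : (t.card : ℝ≥0∞) = ENNReal.ofReal t.card := (ENNReal.ofReal_natCast _).symm
    calc (t.card : ℝ≥0∞) * g r ≤ ENNReal.ofReal t.card *
          ENNReal.ofReal (e / (2 * (C + 1)) * r ^ 2) := by rw [h4]; gcongr
      _ = ENNReal.ofReal (t.card * (e / (2 * (C + 1)) * r ^ 2)) :=
          (ENNReal.ofReal_mul (Nat.cast_nonneg _)).symm
      _ ≤ ENNReal.ofReal (e / 2) := by
          refine ENNReal.ofReal_le_ofReal ?_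
          have h5 : (t.card : ℝ) * r ^ 2 ≤ C := by
            rwa [le_div_iff₀ (by positivity)] at h2
          calc (t.card : ℝ) * (e / (2 * (C + 1)) * r ^ 2) =
              (t.card * r ^ 2) * (e / (2 * (C + 1))) := by ring
            _ ≤ (C + 1) * (e / (2 * (C + 1))) := by gcongr; linarith
            _ = e / 2 := by field_simp
      _ < ENNReal.ofReal e := (ENNReal.ofReal_lt_ofReal_iff he0).2 (by linarith)
      _ ≤ ε := heε
  · intro z hz
    obtain ⟨p, hp, hpz⟩ := h3 z hz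
    exact ⟨(p, r), List.mem_map.2 ⟨p, Finset.mem_toList.2 hp, rfl⟩, hpz⟩

theorem ediam_ball_eq (z : E 4) {r : ℝ} (hr : 0 ≤ r) :
    Metric.ediam (ball z r) = ENNReal.ofReal (2 * r) := by
  have h1 : Metric.ediam (ball z r) ≠ ⊤ := isBounded_ball.ediam_ne_top
  rw [← Metric.diam_ball_eq z hr, Metric.diam, ENNReal.ofReal_toReal h1]

/-- local form of the following lemma -/
theorem null_of_tn_local {m : ℝ≥0∞ → ℝ≥0∞} {A : Set (E 4)} (hA : ∀ k j : ℕ, j < k →
    Tn (fun r => m (ENNReal.ofReal (4 * (j + 1) * r))) (1 / (k + 1))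
      (ENNReal.ofReal (1 / (k + 1))) A) {F : E 4 → E 4} {K : ℝ≥0} (hF : LipschitzOnWith K F A) :
    Measure.mkMetric m (F '' A) = 0 := by
  classical
  obtain ⟨j, hj⟩ := exists_nat_ge (K : ℝ)
  have hj1 : (0 : ℝ) < (j : ℝ) + 1 := by positivity
  have hK1 : (K : ℝ) ≤ (j : ℝ) + 1 := by linarith
  have hA' : ∀ k : ℕ, Tn (fun r => m (ENNReal.ofReal (4 * (j + 1) * r))) (1 / ((k : ℝ) + j + 2))
      (ENNReal.ofReal (1 / ((k : ℝ) + j + 2))) A := by
    intro k
    have h1 := hA (k + j + 1) j (by omega)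
    have h2 : ((k + j + 1 : ℕ) : ℝ) + 1 = (k : ℝ) + j + 2 := by push_cast; ring
    rw [h2] at h1
    exact h1
  choose l h1 h2 h3 using hA'
  have hlim : Tendsto (fun k : ℕ => 1 / ((k : ℝ) + j + 2)) atTop (𝓝 0) := by
    have h4 : Tendsto (fun k : ℕ => (k : ℝ) + (j + 2)) atTop atTop :=
      tendsto_atTop_add_const_right _ _ tendsto_natCast_atTop_atTop
    have h5 := h4.inv_tendsto_atTop
    refine h5.congr fun k => ?_
    simp only [Pi.inv_apply]
    rw [one_div, add_assoc]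
  let w : E 4 × ℝ → E 4 := fun p => if h : ∃ w ∈ A, w ∈ ball p.1 p.2 then F h.choose else 0
  refine le_antisymm ?_ bot_le
  have h4 := Measure.mkMetric_le_liminf_sum (β := ℕ) (ι := fun k => Fin (l k).length)
    (F '' A) (l := atTop) (fun k : ℕ => ENNReal.ofReal (4 * (j + 1) * (1 / ((k : ℝ) + j + 2))))
    (by
      have h6 := (ENNReal.continuous_ofReal.tendsto _).comp (hlim.const_mul (4 * ((j : ℝ) + 1)))
      rwa [mul_zero, ENNReal.ofReal_zero] at h6)
    (fun k i => ball (w ((l k)[i])) (2 * (j + 1) * ((l k)[i]).2))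
    (Eventually.of_forall fun k i => by
      have h5 := h1 k _ ((l k).getElem_mem i.2)
      show Metric.ediam (ball (w ((l k)[i])) (2 * (j + 1) * ((l k)[i]).2)) ≤ _
      have h6 : (0 : ℝ) < ((l k)[i]).2 := h5.1
      have h7 : ((l k)[i]).2 < 1 / ((k : ℝ) + j + 2) := h5.2
      rw [ediam_ball_eq _ (by positivity)]
      refine ENNReal.ofReal_le_ofReal ?_
      calc 2 * (2 * ((j : ℝ) + 1) * ((l k)[i]).2) = 4 * (j + 1) * ((l k)[i]).2 := by ring
        _ ≤ 4 * (j + 1) * (1 / ((k : ℝ) + j + 2)) := by gcongr)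
    (Eventually.of_forall fun k z hz => by
      obtain ⟨z, hzA, rfl⟩ := hz
      obtain ⟨p, hp, hpz⟩ := h3 k z hzA
      obtain ⟨i, hi⟩ := List.get_of_mem hp
      refine mem_iUnion.2 ⟨i, ?_⟩
      have hi' : (l k)[i] = p := hi
      show F z ∈ ball (w ((l k)[i])) (2 * (j + 1) * ((l k)[i]).2)
      rw [hi']
      have hex : ∃ w ∈ A, w ∈ ball p.1 p.2 := ⟨z, hzA, hpz⟩
      have hw : w p = F hex.choose := dif_pos hex
      rw [hw, mem_ball]
      have h5 := hex.choose_spec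
      have h6 := hF.dist_le_mul z hzA hex.choose h5.1
      have h7 := mem_ball.1 h5.2
      have h8 := mem_ball.1 hpz
      have h9 := dist_triangle_right z hex.choose p.1
      have h10 : dist z hex.choose < 2 * p.2 := by linarith
      calc dist (F z) (F hex.choose) ≤ K * dist z hex.choose := h6
        _ ≤ (j + 1) * dist z hex.choose := by gcongr
        _ < (j + 1) * (2 * p.2) := by gcongr
        _ = 2 * (j + 1) * p.2 := by ring) m
  refine h4.trans ?_
  have h5 : Tendsto (fun k : ℕ => ENNReal.ofReal (1 / ((k : ℝ) + j + 2))) atTop (𝓝 0) := by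
    have h6 := (ENNReal.continuous_ofReal.tendsto _).comp hlim
    rwa [ENNReal.ofReal_zero] at h6
  have h6 : ∀ᶠ k : ℕ in atTop, ∑ i : Fin (l k).length,
      m (Metric.ediam (ball (w ((l k)[i])) (2 * (j + 1) * ((l k)[i]).2))) ≤
        ENNReal.ofReal (1 / ((k : ℝ) + j + 2)) := by
    refine Eventually.of_forall fun k => ?_
    have h7 : ∀ i : Fin (l k).length,
        m (Metric.ediam (ball (w ((l k)[i])) (2 * (j + 1) * ((l k)[i]).2))) =
          m (ENNReal.ofReal (4 * (j + 1) * ((l k)[i]).2)) := by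
      intro i
      have h5 := h1 k _ ((l k).getElem_mem i.2)
      have h6 : (0 : ℝ) < ((l k)[i]).2 := h5.1
      rw [ediam_ball_eq _ (by positivity)]
      congr 2
      ring
    rw [Finset.sum_congr rfl fun i _ => h7 i]
    have h9 := Fin.sum_univ_fun_getElem (l k)
      (fun p : E 4 × ℝ => m (ENNReal.ofReal (4 * (j + 1) * p.2)))
    have h10 := (h2 k).le
    rw [← h9] at h10
    exact h10
  refine (liminf_le_liminf h6).trans ?_
  rw [h5.liminf_eq]

/-- smooth images of sets which are thin at all scales -/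
theorem null_of_tn {m : ℝ≥0∞ → ℝ≥0∞} {A : Set (E 4)} (hA : ∀ k j : ℕ, j < k →
    Tn (fun r => m (ENNReal.ofReal (4 * (j + 1) * r))) (1 / (k + 1))
      (ENNReal.ofReal (1 / (k + 1))) A) {F : E 4 → E 4} (hF : ∀ z ∈ A, ContDiffAt ℝ 1 F z) :
    Measure.mkMetric m (F '' A) = 0 := by
  have h : ∀ x ∈ A, ∃ V ∈ 𝓝 x, Measure.mkMetric m (F '' (A ∩ V)) = 0 := by
    intro x hx
    obtain ⟨K, t, ht, hK⟩ := (hF x hx).exists_lipschitzOnWith
    exact ⟨t, ht, null_of_tn_local (fun k j hj => (hA k j hj).mono inter_subset_left)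
      (hK.mono inter_subset_right)⟩
  choose! V hV hr using h
  obtain ⟨t, hts, htc, hcov⟩ := TopologicalSpace.countable_cover_nhdsWithin
    (s := A) (f := V) (fun x hx => mem_nhdsWithin_of_mem_nhds (hV x hx))
  have h1 : F '' A ⊆ ⋃ x ∈ t, F '' (A ∩ V x) := by
    rintro _ ⟨y, hy, rfl⟩
    obtain ⟨x, hx, hyx⟩ := mem_iUnion₂.1 (hcov hy)
    exact mem_iUnion₂.2 ⟨x, hx, y, ⟨hy, hyx⟩, rfl⟩
  refine measure_mono_null h1 ?_
  rw [measure_biUnion_null_iff htc]
  exact fun x hx => hr x (hts hx)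

end Pool.Agent.L0h29.SP
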