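import Pool.Agent.L0h29.SP.Spine
import Pool.Agent.L0h29.SP.Gau
import Pool.Agent.L0h29.EN.Pe
import Pool.Agent.N550.KH.End
import Pool.Agent.N550.KH.Jn

/-!
# Project SP: cells with thin complements
-/

set_option autoImplicit false
set_option linter.unusedSectionVars false
set_option linter.unusedVariables false

open Set Filter Topology Metric Function MeasureTheory
open scoped Manifold ContDiff ENNReal NNReal

noncomputable section

namespace Pool.Agent.L0h29.SP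

open Pool.Agent.Y522 Pool.Agent.N550.KH Pool.Agent.N550.KH.One Pool.Agent.L0h29.CS
  Pool.Agent.L0h29.EN Pool.Agent.N550.TS.Flm

variable {X : Type} [TopologicalSpace X] [ChartedSpace (E 4) X]

theorem isDf_c {K K' : X → X} (h : IsDf 4 K) (h' : IsDf 4 K') : IsDf 4 (fun x => K' (K x)) :=
  ⟨h'.1.comp h.1, fun x => LD.comp_fun (g := K') (f := K) (h'.2 _) (h.2 x)⟩

/-- flat sets have empty interior -/
theorem flat_open {O : Set (E 4)} (hO : IsOpen O) {i : Fin 4} {a : ℝ} (h : ∀ z ∈ O, z i = a) :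
    O = ∅ := by
  by_contra hcon
  obtain ⟨w, hw⟩ := nonempty_iff_ne_empty.2 hcon
  obtain ⟨ρ, hρ, hρO⟩ := Metric.isOpen_iff.1 hO w hw
  have h1 : w + EuclideanSpace.single i (ρ / 2) ∈ O := by
    apply hρO
    rw [mem_ball, dist_eq_norm, add_sub_cancel_left, PiLp.norm_single,
      Real.norm_of_nonneg (by positivity)]
    linarith
  have h2 := h _ h1
  have h3 := h _ hw
  rw [PiLp.add_apply, PiLp.single_apply, if_pos rfl, h3] at h2
  linarith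

/-- contraction of a ball in a cell off a flat disc -/
theorem contract [T2Space X] {c : E 4 → X} (hc : Cell c) {R : ℝ} (hR : 0 < R) {K D : Set X}
    (hK : IsClosed K) (hKA : Disjoint K (c '' closedBall 0 R)) (hD : IsClosed D)
    (hq : ∃ q ∈ ball (0 : E 4) R, c q ∉ D) : ∃ κ : X → X, IsDf 4 κ ∧ (∀ x ∈ K, κ x = x) ∧
      Disjoint (κ '' (c '' closedBall 0 R)) D := by
  obtain ⟨q, hqR, hqD⟩ := hq
  obtain ⟨χ, ε, h⟩ := exists_cn (isCompact_closedBall (0 : E 4) R)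
    (hK.isOpen_compl.preimage hc.cont) (fun z hz hzK => disjoint_left.1 hKA hzK ⟨z, hz, rfl⟩)
    (ContinuousLinearMap.id ℝ (E 4)) q
  obtain ⟨ρ, hρ, hρD⟩ := Metric.isOpen_iff.1 (hD.isOpen_compl.preimage hc.cont) q hqD
  have hε0 := h.pos
  have hε1 := h.le
  obtain ⟨m, hm⟩ := exists_pow_lt_of_lt_one (show (0 : ℝ) < ρ / (2 * R + 1) by positivity)
    (show 1 - ε < 1 by linarith)
  obtain ⟨κ, hκ, hκψ, hκo⟩ := Cn.exists hc h m
  have hstep : ∀ P ∈ closedBall (0 : E 4) R, cn χ ε (ContinuousLinearMap.id ℝ (E 4)) q P =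
      (1 - ε) • P + ε • q := by
    intro P hP
    rw [cn, h.one P hP, mul_one, ContinuousLinearMap.id_apply, sub_smul, one_smul, smul_sub]
    abel
  have hiter : ∀ P ∈ closedBall (0 : E 4) R, ∀ n : ℕ,
      (cn χ ε (ContinuousLinearMap.id ℝ (E 4)) q)^[n] P ∈ closedBall (0 : E 4) R ∧
      ‖(cn χ ε (ContinuousLinearMap.id ℝ (E 4)) q)^[n] P - q‖ ≤ (1 - ε) ^ n * ‖P - q‖ := by
    intro P hP n
    induction n with
    | zero => exact ⟨hP, by simp⟩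
    | succ n ih =>
      rw [Function.iterate_succ']
      have h1 := hstep _ ih.1
      show cn χ ε (ContinuousLinearMap.id ℝ (E 4)) q
        ((cn χ ε (ContinuousLinearMap.id ℝ (E 4)) q)^[n] P) ∈ _ ∧ ‖cn χ ε
          (ContinuousLinearMap.id ℝ (E 4)) q
        ((cn χ ε (ContinuousLinearMap.id ℝ (E 4)) q)^[n] P) - q‖ ≤ _
      rw [h1]
      refine ⟨convex_closedBall (0 : E 4) R ih.1 (ball_subset_closedBall hqR) (by linarith)
        hε0.le (by ring), ?_⟩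
      have h2 : (1 - ε) • (cn χ ε (ContinuousLinearMap.id ℝ (E 4)) q)^[n] P + ε • q - q =
          (1 - ε) • ((cn χ ε (ContinuousLinearMap.id ℝ (E 4)) q)^[n] P - q) := by
        rw [smul_sub, sub_smul, sub_smul, one_smul, one_smul]
        abel
      rw [h2, norm_smul, Real.norm_of_nonneg (by linarith)]
      calc (1 - ε) * ‖(cn χ ε (ContinuousLinearMap.id ℝ (E 4)) q)^[n] P - q‖ ≤
          (1 - ε) * ((1 - ε) ^ n * ‖P - q‖) := by
            gcongr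
            · linarith
            · exact ih.2
        _ = (1 - ε) ^ (n + 1) * ‖P - q‖ := by ring
  refine ⟨κ, hκ, ?_, ?_⟩
  · intro x hx
    by_cases hxc : x ∈ range c
    · obtain ⟨P, rfl⟩ := hxc
      rw [hκψ, h.fix' (fun hP => hP hx)]
    · exact hκo x hxc
  · rw [disjoint_left]
    rintro _ ⟨_, ⟨P, hP, rfl⟩, rfl⟩
    rw [hκψ]
    apply hρD
    rw [mem_ball, dist_eq_norm]
    have h1 := (hiter P hP m).2
    have h2 : ‖P - q‖ ≤ 2 * R + 1 := by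
      rw [mem_closedBall_zero_iff] at hP
      rw [mem_ball_zero_iff] at hqR
      have := norm_sub_le P q
      linarith
    rw [lt_div_iff₀ (by positivity)] at hm
    refine lt_of_le_of_lt (h1.trans ?_) hm
    exact mul_le_mul_of_nonneg_left h2 (pow_nonneg (by linarith) _)

/-- the family -/
def Gm (A : Set X) (T : Set X → Prop) (B : Set X) : Prop :=
  ∃ (κ : X → X) (B₀ : Set X), IsDf 4 κ ∧ IsClosed B₀ ∧ A ⊆ B₀ ∧ T B₀ᶜ ∧ B = κ '' B₀

theorem fam_gm [CompactSpace X] [T2Space X] {c : E 4 → X} (hc : Cell c) {R : ℝ} (hR : 0 < R)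
    {T : Set X → Prop} (hT : ∀ B, T B → ∀ h : E 4 → X, Cell h → ∀ i j : Fin 4, i ≠ j →
      ∀ (a b : ℝ) (C : Set (E 4)), IsCompact C → (∀ z ∈ C, z i = a ∧ z j = b) →
      Disjoint (h '' C) (c '' closedBall 0 R) → ∃ V, IsOpen V ∧ h '' C ⊆ V ∧
        Disjoint V (c '' closedBall 0 R) ∧ T (B ∪ V)) : Fam (Gm (c '' closedBall 0 R) T) := by
  refine ⟨?_, ?_, ?_⟩
  · rintro _ ⟨κ, B₀, hκ, hB₀, -, -, rfl⟩
    exact (hB₀.isCompact.image (IsDf.cont hκ)).isClosed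
  · rintro _ ⟨κ, B₀, hκ, hB₀, hA, hTB, rfl⟩ κ' hκ'
    refine ⟨fun x => κ' (κ x), B₀, isDf_c hκ hκ', hB₀, hA, hTB, ?_⟩
    rw [image_image]
  · rintro _ ⟨κ, B₀, hκ, hB₀, hA, hTB, rfl⟩ K hK hKB h hh i j hij a b C hC hCf
    obtain ⟨κi, hi1, hi2, hi3⟩ := IsDf_inv hκ
    have hκi : IsDf 4 κi := ⟨⟨fun x y hxy => by rw [← hi2 x, hxy, hi2], fun x => ⟨κ x, hi1 x⟩⟩, hi3⟩
    set h₁ : E 4 → X := fun z => κi (h z) with hh₁
    have hh₁c : Cell h₁ := IsDf.cell hκi hh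
    have hK₁ : IsClosed (κ ⁻¹' K) := hK.preimage (IsDf.cont hκ)
    have hK₁B : Disjoint (κ ⁻¹' K) B₀ := by
      rw [disjoint_left]
      intro x hx hxB
      exact disjoint_left.1 hKB hx ⟨x, hxB, rfl⟩
    have hD₁ : IsCompact (h₁ '' C) := hC.image hh₁c.cont
    -- the contraction
    obtain ⟨κ₀, hκ₀, hκ₀K, hκ₀A⟩ := contract hc hR hK₁ (hK₁B.mono_right hA) hD₁.isClosed (by
      by_contra hcon
      push Not at hcon
      have h1 : IsOpen (h₁ ⁻¹' (c '' ball 0 R)) := (hc.open_image isOpen_ball).preimage hh₁c.cont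
      have h2 : h₁ ⁻¹' (c '' ball 0 R) = ∅ := by
        refine flat_open h1 (i := i) (a := a) fun z hz => ?_
        obtain ⟨q, hq, hqz⟩ := hz
        obtain ⟨w, hw, hwz⟩ := hcon q hq
        have h3 : w = z := hh₁c.1 (hwz.trans hqz)
        rw [← h3]
        exact (hCf w hw).1
      obtain ⟨w, -, hwz⟩ := hcon 0 (mem_ball_self hR)
      have h3 : w ∈ h₁ ⁻¹' (c '' ball 0 R) := ⟨0, mem_ball_self hR, hwz.symm⟩
      rw [h2] at h3
      exact h3)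
    obtain ⟨κj, hj1, hj2, hj3⟩ := IsDf_inv hκ₀
    have hκj : IsDf 4 κj := ⟨⟨fun x y hxy => by rw [← hj2 x, hxy, hj2], fun x => ⟨κ₀ x, hj1 x⟩⟩, hj3⟩
    -- the neighbourhood
    obtain ⟨V, hV, hDV, hVA, hTV⟩ := hT _ hTB (fun z => κj (h₁ z)) (IsDf.cell hκj hh₁c) i j hij a b C hC
      hCf (by
        rw [disjoint_left]
        rintro _ ⟨z, hz, rfl⟩ hzA
        refine disjoint_left.1 hκ₀A ⟨_, hzA, hj2 (h₁ z)⟩ ⟨z, hz, rfl⟩)
    refine ⟨(fun x => κ (κ₀ x)) '' (B₀ \ V), ⟨fun x => κ (κ₀ x), B₀ \ V, isDf_c hκ₀ hκ,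
      hB₀.sdiff hV, ?_, ?_, rfl⟩, ?_, ?_⟩
    · exact fun x hx => ⟨hA hx, fun hxV => disjoint_left.1 hVA hxV hx⟩
    · have h1 : (B₀ \ V)ᶜ = B₀ᶜ ∪ V := by
        ext x
        constructor
        · intro hx
          by_cases hxB : x ∈ B₀
          · right
            by_contra hxV
            exact hx ⟨hxB, hxV⟩
          · exact Or.inl hxB
        · rintro (hx | hx) ⟨h2, h3⟩
          · exact hx h2
          · exact h3 hx
      rw [h1]
      exact hTV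
    · rw [disjoint_left]
      rintro _ hy ⟨x, ⟨hxB, -⟩, rfl⟩
      have h1 : κ₀ x ∈ κ ⁻¹' K := hy
      have h2 : κ₀ (κ₀ x) = κ₀ x := hκ₀K _ h1
      have h3 : κ₀ x = x := hκ₀.1.1 h2
      rw [h3] at h1
      exact disjoint_left.1 hK₁B h1 hxB
    · rw [disjoint_left]
      rintro _ ⟨z, hz, hzx⟩ ⟨x, ⟨-, hxV⟩, hxz⟩
      apply hxV
      apply hDV
      refine ⟨z, hz, ?_⟩
      show κj (κi (h z)) = x
      have h4 : κ (κ₀ x) = h z := hxz.trans hzx.symm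
      rw [← h4, hi1, hj1]

/-- thin sets -/
def Th (s : Finset X) (ψ : X → E 4 → X) (G : ℕ → ℝ → ℝ≥0∞) (k : ℕ) (δ : ℝ) (ε : ℝ≥0∞)
    (B : Set X) : Prop :=
  ∀ x ∈ s, ∀ j < k, Tn (G j) δ ε (ψ x ⁻¹' B ∩ closedBall 0 1)

theorem Th.mono {s : Finset X} {ψ : X → E 4 → X} {G : ℕ → ℝ → ℝ≥0∞} {k : ℕ} {δ : ℝ} {ε : ℝ≥0∞}
    {B B' : Set X} (h : B' ⊆ B) (hB : Th s ψ G k δ ε B) : Th s ψ G k δ ε B' := fun x hx j hj =>
  (hB x hx j hj).mono (inter_subset_inter_left _ (preimage_mono h))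

/-- the trace of a disc in a chart -/
theorem bc_trace [T2Space X] {ψ : E 4 → X} (hψ : Cell ψ) {h : E 4 → X} (hh : Cell h)
    {i j : Fin 4} (hij : i ≠ j) {a b : ℝ} {C : Set (E 4)} (hC : IsCompact C)
    (hCf : ∀ z ∈ C, z i = a ∧ z j = b) : Bc (ψ ⁻¹' (h '' C) ∩ closedBall 0 1) := by
  have h1 : IsCompact (C ∩ h ⁻¹' (ψ '' closedBall 0 1)) :=
    hC.inter_right (((isCompact_closedBall (0 : E 4) 1).image hψ.cont).isClosed.preimage hh.cont)
  refine (bc_compact hij h1 (fun z hz => hCf z hz.1) (F := fun z => invFun ψ (h z)) ?_).mono ?_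
  · rintro z ⟨-, w, -, hwz⟩
    exact (LD.comp_fun (g := invFun ψ) (hψ.inv_ld ⟨w, hwz⟩) (hh.2 z)).contDiffAt.of_le (by simp)
  · rintro w ⟨⟨z, hz, hzw⟩, hw⟩
    refine ⟨z, ⟨hz, w, hw, hzw.symm⟩, ?_⟩
    show invFun ψ (h z) = w
    rw [hzw, hψ.inv]

theorem th_add [T2Space X] {s : Finset X} {ψ : X → E 4 → X} (hψ : ∀ x, Cell (ψ x))
    {G : ℕ → ℝ → ℝ≥0∞} {k : ℕ} (hG : ∀ j < k, Lo (G j)) {δ : ℝ} (hδ : 0 < δ) {ε : ℝ≥0∞} {A : Set X}
    (hA : IsClosed A) {B : Set X} (hB : Th s ψ G k δ ε B) {h : E 4 → X} (hh : Cell h)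
    {i j : Fin 4} (hij : i ≠ j) {a b : ℝ} {C : Set (E 4)} (hC : IsCompact C)
    (hCf : ∀ z ∈ C, z i = a ∧ z j = b) (hAC : Disjoint (h '' C) A) :
    ∃ V, IsOpen V ∧ h '' C ⊆ V ∧ Disjoint V A ∧ Th s ψ G k δ ε (B ∪ V) := by
  have key : ∀ x ∈ s, ∀ j < k, ∃ O : Set (E 4), IsOpen O ∧
      ψ x ⁻¹' (h '' C) ∩ closedBall 0 1 ⊆ O ∧
      Tn (G j) δ ε ((ψ x ⁻¹' B ∩ closedBall 0 1) ∪ O) := by
    intro x hx j hj
    obtain ⟨ε', hε', hadd⟩ := (hB x hx j hj).add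
    obtain ⟨O, h1, h2, h3⟩ := (tn_of_bc (bc_trace (hψ x) hh hij hC hCf) (hG j hj) hδ
      hε').exists_open
    exact ⟨O, h1, h2, hadd O h3⟩
  choose! O hO1 hO2 hO3 using key
  refine ⟨(⋂ x ∈ s, ⋂ j ∈ Finset.range k, (ψ x '' (closedBall 0 1 \ O x j))ᶜ) ∩ Aᶜ, ?_, ?_, ?_,
    ?_⟩
  · refine IsOpen.inter ?_ hA.isOpen_compl
    refine isOpen_biInter_finset fun x hx => isOpen_biInter_finset fun j hj => ?_
    exact (((isCompact_closedBall (0 : E 4) 1).diff (hO1 x hx j (Finset.mem_range.1 hj))).image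
      (hψ x).cont).isClosed.isOpen_compl
  · intro y hy
    refine ⟨mem_iInter₂.2 fun x hx => mem_iInter₂.2 fun j hj => ?_, fun hyA =>
      disjoint_left.1 hAC hy hyA⟩
    rintro ⟨z, ⟨hz, hzO⟩, hzy⟩
    refine hzO (hO2 x hx j (Finset.mem_range.1 hj) ⟨?_, hz⟩)
    show ψ x z ∈ h '' C
    rw [hzy]
    exact hy
  · rw [disjoint_left]
    exact fun y hy hyA => hy.2 hyA
  · intro x hx j hj
    refine (hO3 x hx j hj).mono ?_
    rintro z ⟨hz | hz, hz1⟩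
    · exact Or.inl ⟨hz, hz1⟩
    · right
      by_contra hzO
      have h1 := mem_iInter₂.1 (mem_iInter₂.1 hz.1 x hx) j (Finset.mem_range.2 hj)
      exact h1 ⟨z, ⟨hz1, hzO⟩, rfl⟩

/-- **The growth step** -/
theorem grow [CompactSpace X] [T2Space X] [IsManifold (𝓡 4) ∞ X] [SimplyConnectedSpace X]
    {s : Finset X} {ψ : X → E 4 → X} (hψ : ∀ x, Cell (ψ x)) {G : ℕ → ℝ → ℝ≥0∞} {k : ℕ}
    (hG : ∀ j < k, Lo (G j)) {δ : ℝ} (hδ : 0 < δ) {ε : ℝ≥0∞} (hε : 0 < ε) {c : E 4 → X}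
    (hc : Cell c) {R : ℝ} (hR : 0 < R) : ∃ (c' : E 4 → X) (R' : ℝ), Cell c' ∧ 0 < R' ∧
      c '' closedBall 0 R ⊆ c' '' ball 0 R' ∧ Th s ψ G k δ ε (c' '' ball 0 R')ᶜ := by
  have hAc : IsClosed (c '' closedBall 0 R) :=
    ((isCompact_closedBall (0 : E 4) R).image hc.cont).isClosed
  have hF : Fam (Gm (c '' closedBall 0 R) (Th s ψ G k δ ε)) := fam_gm hc hR
    fun B hB h hh i j hij a b C hC hCf hCA => th_add hψ hG hδ hAc hB hh hij hC hCf hCA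
  obtain ⟨T, hT, hTn, hTW⟩ := spine hF ⟨univ, id, univ, ⟨bijective_id, fun x => LD.id x⟩,
    isClosed_univ, subset_univ _, fun x hx j hj => by
      rw [compl_univ, preimage_empty, empty_inter]
      exact tn_empty hε, by rw [image_id]⟩
  obtain ⟨c₁, hc₁, hTc⟩ := engulf hT hTn
  obtain ⟨B, ⟨κ, B₀, hκ, hB₀, hA, hTB, rfl⟩, hBc⟩ := hTW _ hc₁.isOpen hTc
  obtain ⟨κi, hi1, hi2, hi3⟩ := IsDf_inv hκ
  have hκi : IsDf 4 κi := ⟨⟨fun x y hxy => by rw [← hi2 x, hxy, hi2], fun x => ⟨κ x, hi1 x⟩⟩, hi3⟩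
  have hc' : Cell fun z => κi (c₁ z) := IsDf.cell hκi hc₁
  have hB₀c : B₀ ⊆ range fun z => κi (c₁ z) := by
    intro x hx
    obtain ⟨z, hz⟩ := hBc ⟨x, hx, rfl⟩
    refine ⟨z, ?_⟩
    show κi (c₁ z) = x
    rw [hz, hi1]
  obtain ⟨R', hR', hBR⟩ := exists_rad hc' hB₀.isCompact hB₀c
  exact ⟨fun z => κi (c₁ z), R', hc', hR', hA.trans hBR, hTB.mono (compl_subset_compl.2 hBR)⟩

end Pool.Agent.L0h29.SP
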