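import Pool.Agent.L0h29.SP.Main2
import Pool.Agent.N550.TS.All

/-!
# Project SP: smooth homeomorphisms onto closed simply connected 4-manifolds
-/

set_option autoImplicit false
set_option linter.unusedSectionVars false
set_option linter.unusedVariables false

open Set Filter Topology Metric Function MeasureTheory
open scoped Manifold ContDiff

noncomputable section

namespace Pool.Agent.L0h29.SP

open Pool.Agent.Y522 Pool.Agent.N550.KH Pool.Agent.N550.KH.One Pool.Agent.L0h29.CS
  Pool.Agent.L0h29.EN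

theorem isClosed_bad {n : ℕ} {M N : Type} [TopologicalSpace M] [ChartedSpace (E n) M]
    [TopologicalSpace N] [ChartedSpace (E n) N] (f : M → N) : IsClosed (Bad n f) := by
  have h1 : IsOpen {x | ∀ᶠ y in 𝓝 x, ContMDiffAt (𝓡 n) (𝓡 n) ∞ f y} := by
    rw [isOpen_iff_mem_nhds]
    intro x hx
    exact eventually_eventually_nhds.2 hx
  exact h1.isClosed_compl

theorem nullH2_of {n : ℕ} {N : Type} [TopologicalSpace N] [ChartedSpace (E n) N] {B : Set N}
    (h : NullH n B) : NullH2 n B := by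
  intro l hl hld
  refine le_antisymm ?_ bot_le
  rw [← h l hl hld]
  exact Measure.hausdorffMeasure_mono (by norm_num) _

/-- homeomorphisms which are smooth off a small set, onto closed simply connected 4-manifolds -/
theorem fin3 (M N : Type) [TopologicalSpace M] [CompactSpace M] [T2Space M] [ChartedSpace (E 4) M]
    [IsManifold (𝓡 4) ∞ M] [TopologicalSpace N] [CompactSpace N] [T2Space N]
    [ChartedSpace (E 4) N] [IsManifold (𝓡 4) ∞ N] [SimplyConnectedSpace N] (f : M ≃ₜ N)
    (hf : NullC 4 (f '' Bad 4 f)) : ∃ G : M ≃ₜ N, ∃ x₀ : M, ∀ x, x ≠ x₀ → LD 4 G x := by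
  have hf0 : NullH 4 (f '' Bad 4 f) := Null.main 4 N _ hf
  have hinv : Inv 4 f (f '' Bad 4 f) := by
    refine ⟨f.continuous, f.isClosedMap _ (isClosed_bad f), nullH2_of hf0, fun y hy => ?_⟩
    refine ⟨f.symm y, f.apply_symm_apply y, ?_, fun x' hx' => ?_⟩
    · by_contra hcon
      exact hy ⟨f.symm y, hcon, f.apply_symm_apply y⟩
    · rw [← hx', f.symm_apply_apply]
  obtain ⟨G, K, c, R, hK, hc, hR, hi, hgood, hb⟩ := main2 M N f _ hinv
  obtain ⟨hGi, hGs⟩ := hb f.bijective
  let G' : M ≃ₜ N := hi.cont.homeoOfEquivCompactToT2 (f := Equiv.ofBijective G ⟨hGi, hGs⟩)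
  have hG' : ∀ x, G' x = G x := fun _ => rfl
  have hn : NullH 4 (G' '' Bad 4 G') := by
    refine One.nullH_mono ?_ (One.nullH_image hf0 hK)
    rintro _ ⟨x, hx, rfl⟩
    by_contra hcon
    exact hx (hi.sm hcon)
  obtain ⟨c', hci, hcl, hcr⟩ := Cell.main 4 M N G' c hn hc.1 hc.2
  refine asm 4 M N (G' ⁻¹' (range c)ᶜ) (range c)ᶜ c' c G' (by norm_num) ?_
    hci hcl ?_ hc.1 hc.2 (compl_compl _).symm ?_ G'.injective.injOn
    (image_preimage_eq _ G'.surjective)
  · have hne : ((range c)ᶜ).Nonempty := by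
      rw [nonempty_compl]
      exact Pool.Agent.N550.TS.Fin2.range_ne_univ c hc.1 hc.2
    obtain ⟨y, hy⟩ := hne
    refine ⟨G'.symm y, ?_⟩
    show G' (G'.symm y) ∈ (range c)ᶜ
    rw [G'.apply_symm_apply]
    exact hy
  · rw [hcr, preimage_compl, compl_compl]
  · intro x hx
    refine (hgood (G x) fun h => hx (image_subset_range _ _ h)).2 x rfl

end Pool.Agent.L0h29.SP
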