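import Pool.Agent.L0h29.SP.Dense

/-!
# Project SP: the complement of a null set is a cell
-/

set_option autoImplicit false
set_option linter.unusedSectionVars false
set_option linter.unusedVariables false

open Set Filter Topology Metric Function MeasureTheory
open scoped Manifold ContDiff ENNReal NNReal

noncomputable section

namespace Pool.Agent.L0h29.SP

open Pool.Agent.Y522 Pool.Agent.N550.KH Pool.Agent.N550.KH.One Pool.Agent.L0h29.CS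
  Pool.Agent.L0h29.EN Pool.Agent.N550.TS.Flm Pool.Agent.N550.KH.End

/-- gauge functions, elementary form -/
def Sq (m : ℝ≥0∞ → ℝ≥0∞) : Prop :=
  ∀ η : ℝ, 0 < η → ∀ δ : ℝ, 0 < δ → ∃ r, 0 < r ∧ r < δ ∧
    m (ENNReal.ofReal r) ≤ ENNReal.ofReal (η * r ^ 2)

theorem Sq.lo {m : ℝ≥0∞ → ℝ≥0∞} (hm : Sq m) {K : ℝ} (hK : 0 < K) :
    Lo fun r => m (ENNReal.ofReal (K * r)) := by
  intro η hη δ hδ
  obtain ⟨r, h1, h2, h3⟩ := hm (η / K ^ 2) (by positivity) (K * δ) (by positivity)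
  refine ⟨r / K, by positivity, by rwa [div_lt_iff₀ hK, mul_comm], ?_⟩
  have e1 : K * (r / K) = r := by field_simp
  have e2 : η * (r / K) ^ 2 = η / K ^ 2 * r ^ 2 := by field_simp
  show m (ENNReal.ofReal (K * (r / K))) ≤ _
  rw [e1, e2]
  exact h3

theorem sq_of_liminf {m : ℝ≥0∞ → ℝ≥0∞}
    (h : liminf (fun r => m r / r ^ 2) (𝓝[>] (0 : ℝ≥0∞)) = 0) : Sq m := by
  intro η hη δ hδ
  have h1 : ∃ᶠ r in 𝓝[>] (0 : ℝ≥0∞), m r / r ^ 2 < ENNReal.ofReal η :=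
    frequently_lt_of_liminf_lt (by isBoundedDefault)
      (by rw [h]; exact ENNReal.ofReal_pos.2 hη)
  have h2 : ∀ᶠ r in 𝓝[>] (0 : ℝ≥0∞), r < ENNReal.ofReal δ :=
    nhdsWithin_le_nhds (gt_mem_nhds (ENNReal.ofReal_pos.2 hδ))
  have h3 : ∀ᶠ r in 𝓝[>] (0 : ℝ≥0∞), 0 < r := self_mem_nhdsWithin
  obtain ⟨r, h4, h5, h6⟩ := (h1.and_eventually (h2.and h3)).exists
  have hr : r ≠ ⊤ := h5.ne_top
  have hr0 : 0 < r.toReal := ENNReal.toReal_pos h6.ne' hr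
  refine ⟨r.toReal, hr0, ?_, ?_⟩
  · rw [← ENNReal.toReal_ofReal hδ.le]
    exact (ENNReal.toReal_lt_toReal hr ENNReal.ofReal_ne_top).2 h5
  · rw [ENNReal.ofReal_toReal hr, ENNReal.ofReal_mul hη.le, ENNReal.ofReal_pow hr0.le,
      ENNReal.ofReal_toReal hr]
    have h7 : r ^ 2 ≠ 0 := pow_ne_zero 2 h6.ne'
    have h8 : r ^ 2 ≠ ⊤ := ENNReal.pow_ne_top hr
    exact (ENNReal.div_le_iff h7 h8).1 h4.le

/-- large gauge functions -/
theorem null_two {m : ℝ≥0∞ → ℝ≥0∞}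
    (h : liminf (fun r => m r / r ^ 2) (𝓝[>] (0 : ℝ≥0∞)) ≠ 0) {A : Set (E 4)}
    (hA : Measure.mkMetric m A = 0) : Measure.hausdorffMeasure 2 A = 0 := by
  obtain ⟨c, hc0, hc⟩ := exists_between (pos_iff_ne_zero.2 h)
  have h1 : ∀ᶠ r in 𝓝[>] (0 : ℝ≥0∞), c < m r / r ^ 2 := eventually_lt_of_lt_liminf hc
  have hct : c ≠ ⊤ := hc.ne_top
  have h2 : (fun r : ℝ≥0∞ => r ^ (2 : ℝ)) ≤ᶠ[𝓝[≥] 0] c⁻¹ • m := by
    rw [eventually_nhdsWithin_iff] at h1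
    refine nhdsWithin_le_nhds ?_
    filter_upwards [h1, gt_mem_nhds ENNReal.zero_lt_top] with r hr hrt
    rcases eq_or_ne r 0 with rfl | hr0
    · show (0 : ℝ≥0∞) ^ (2 : ℝ) ≤ _
      rw [ENNReal.zero_rpow_of_pos two_pos]
      exact bot_le
    · have h3 := hr (pos_iff_ne_zero.2 hr0)
      have h7 : r ^ 2 ≠ 0 := pow_ne_zero 2 hr0
      have h8 : r ^ 2 ≠ ⊤ := ENNReal.pow_ne_top hrt.ne
      have h4 : c * r ^ 2 ≤ m r := (ENNReal.le_div_iff_mul_le (Or.inl h7) (Or.inl h8)).1 h3.le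
      show r ^ (2 : ℝ) ≤ c⁻¹ * m r
      rw [ENNReal.rpow_two]
      calc r ^ 2 = c⁻¹ * (c * r ^ 2) := by
            rw [← mul_assoc, ENNReal.inv_mul_cancel hc0.ne' hct, one_mul]
        _ ≤ c⁻¹ * m r := by gcongr
  have h3 := Measure.mkMetric_mono_smul (X := E 4) (ENNReal.inv_ne_top.2 hc0.ne')
    (ENNReal.inv_ne_zero.2 hct) h2 A
  have h4 : (c⁻¹ • Measure.mkMetric m : Measure (E 4)) A = 0 := by
    rw [Measure.smul_apply, hA, smul_zero]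
  rw [h4] at h3
  exact le_antisymm h3 bot_le

/-- **Cells with null complements** -/
theorem cell_null_compl {N : Type} [TopologicalSpace N] [CompactSpace N] [T2Space N]
    [ChartedSpace (E 4) N] [IsManifold (𝓡 4) ∞ N] [SimplyConnectedSpace N]
    {m : ℝ≥0∞ → ℝ≥0∞} (hm : Sq m) : ∃ b : E 4 → N, Cell b ∧
      ∀ x₀ : N, Measure.mkMetric m
        (chartAt (E 4) x₀ '' ((chartAt (E 4) x₀).source ∩ (range b)ᶜ) : Set (E 4)) = 0 := by
  classical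
  choose ψ hi hl h0 using fun x : N => exists_cell0 (n := 4) x
  have hψ : ∀ x, Cell (ψ x) := fun x => ⟨hi x, hl x⟩
  obtain ⟨s, hs⟩ := isCompact_univ.elim_finite_subcover (fun x : N => ψ x '' ball 0 1)
    (fun x => (hψ x).open_image isOpen_ball)
    (fun x _ => mem_iUnion.2 ⟨x, 0, mem_ball_self one_pos, h0 x⟩)
  let G : ℕ → ℝ → ℝ≥0∞ := fun j r => m (ENNReal.ofReal (4 * (j + 1) * r))
  have hG : ∀ j, Lo (G j) := fun j => hm.lo (K := 4 * ((j : ℝ) + 1)) (by positivity)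
  let P : Type := {p : (E 4 → N) × ℝ // Cell p.1 ∧ 0 < p.2}
  have hstep : ∀ (k : ℕ) (p : P), ∃ q : P, p.1.1 '' closedBall 0 p.1.2 ⊆ q.1.1 '' ball 0 q.1.2 ∧
      Th s ψ G k (1 / (k + 1)) (ENNReal.ofReal (1 / (k + 1))) (q.1.1 '' ball 0 q.1.2)ᶜ := by
    rintro k ⟨⟨c, R⟩, hc, hR⟩
    have hk : (0 : ℝ) < 1 / ((k : ℝ) + 1) := by positivity
    obtain ⟨c', R', h1, h2, h3, h4⟩ := grow (s := s) hψ (G := G) (k := k) (fun j _ => hG j) hk
      (ENNReal.ofReal_pos.2 hk) hc hR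
    exact ⟨⟨⟨c', R'⟩, h1, h2⟩, h3, h4⟩
  choose nx hnx1 hnx2 using hstep
  obtain ⟨x₁⟩ : Nonempty N := inferInstance
  let sq : ℕ → P := fun n => Nat.rec ⟨⟨ψ x₁, 1⟩, hψ x₁, one_pos⟩ (fun k p => nx k p) n
  have hsq : ∀ n, sq (n + 1) = nx n (sq n) := fun n => rfl
  let U : ℕ → Set N := fun n => (sq n).1.1 '' ball 0 (sq n).1.2
  have hUo : ∀ n, IsOpen (U n) := fun n => (sq n).2.1.open_image isOpen_ball
  have hU1 : ∀ n, U n ⊆ U (n + 1) := by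
    intro n
    refine (image_mono ball_subset_closedBall).trans ?_
    show _ ⊆ (sq (n + 1)).1.1 '' ball 0 (sq (n + 1)).1.2
    rw [hsq]
    exact hnx1 n (sq n)
  have hU2 : ∀ n, Th s ψ G n (1 / (n + 1)) (ENNReal.ofReal (1 / (n + 1))) (U (n + 1))ᶜ := by
    intro n
    show Th s ψ G n _ _ ((sq (n + 1)).1.1 '' ball 0 (sq (n + 1)).1.2)ᶜ
    rw [hsq]
    exact hnx2 n (sq n)
  have hmono : Monotone U := monotone_nat_of_le_succ hU1
  obtain ⟨b, hb, hbr⟩ := cell_of_eng (⋃ n, U n) (isOpen_iUnion hUo) (by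
    intro K hK hKU
    obtain ⟨n, hn⟩ := hK.elim_directed_cover U hUo hKU hmono.directed_le
    have hR := (sq n).2.2
    have hc := (sq n).2.1
    refine ⟨fun z => (sq n).1.1 (jb (sq n).1.2 z), fun x y hxy => jb_inj _ hR (hc.1 hxy),
      fun z => LD.comp_fun (g := (sq n).1.1) (f := jb (sq n).1.2) (hc.2 _) (jb_LD _ hR z), ?_,
      fun z => mem_iUnion.2 ⟨n, _, mem_ball_zero_iff.2 (jb_norm _ hR z), rfl⟩⟩
    intro y hy
    obtain ⟨w, hw, hwy⟩ := hn hy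
    obtain ⟨z, hz⟩ := jb_surj _ hR w (mem_ball_zero_iff.1 hw)
    refine ⟨z, ?_⟩
    show (sq n).1.1 (jb (sq n).1.2 z) = y
    rw [hz, hwy])
  refine ⟨b, hb, fun x₀ => ?_⟩
  have hthin : ∀ x ∈ s, ∀ k j : ℕ, j < k → Tn (G j) (1 / (k + 1)) (ENNReal.ofReal (1 / (k + 1)))
      (ψ x ⁻¹' (range b)ᶜ ∩ closedBall 0 1) := by
    intro x hx k j hj
    refine (hU2 k x hx j hj).mono (inter_subset_inter_left _ (preimage_mono ?_))
    rw [hbr]
    exact compl_subset_compl.2 (subset_iUnion U (k + 1))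
  have h1 : chartAt (E 4) x₀ '' ((chartAt (E 4) x₀).source ∩ (range b)ᶜ) ⊆ ⋃ x ∈ s,
      (fun z => chartAt (E 4) x₀ (ψ x z)) ''
        ((ψ x ⁻¹' (range b)ᶜ ∩ closedBall 0 1) ∩ ψ x ⁻¹' (chartAt (E 4) x₀).source) := by
    rintro _ ⟨y, ⟨hy1, hy2⟩, rfl⟩
    obtain ⟨x, hx, z, hz, rfl⟩ := mem_iUnion₂.1 (hs (mem_univ y))
    exact mem_iUnion₂.2 ⟨x, hx, z, ⟨⟨hy2, ball_subset_closedBall hz⟩, hy1⟩, rfl⟩
  refine measure_mono_null h1 ?_
  refine (measure_biUnion_null_iff (I := (s : Set N)) s.countable_toSet).2 fun x hx => ?_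
  rw [Finset.mem_coe] at hx
  refine null_of_tn (m := m) (fun k j hj => (hthin x hx k j hj).mono inter_subset_left) ?_
  rintro z ⟨-, hz⟩
  exact (LD.comp_fun (g := chartAt (E 4) x₀) (Jn.ld_chart x₀ _ hz) ((hψ x).2 z)).contDiffAt.of_le
    (by simp)

end Pool.Agent.L0h29.SP
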