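import Pool.Agent.L0h29.SP.Step2

/-!
# Project SP: clearing of cubes, the elementary steps
-/

set_option autoImplicit false
set_option linter.unusedSectionVars false
set_option linter.unusedVariables false

open Set Filter Topology Metric Function MeasureTheory
open scoped Manifold ContDiff

noncomputable section

namespace Pool.Agent.L0h29.SP

open Pool.Agent.Y522 Pool.Agent.N550.KH Pool.Agent.N550.KH.One Pool.Agent.L0h29.CS

/-- states: `U` is the good set of a map `f` obtained from `f₀`, with exceptional set obtained from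
`Z₀` -/
def St (n : ℕ) {M N : Type} [TopologicalSpace M] [ChartedSpace (E n) M] [TopologicalSpace N]
    [ChartedSpace (E n) N] (f₀ : M → N) (Z₀ U : Set N) : Prop :=
  ∃ (f : M → N) (K : N → N), IsDf n K ∧ Inv n f (K '' Z₀) ∧ (Bijective f₀ → Bijective f) ∧
    good n f (K '' Z₀) = U

section

variable {n : ℕ} {M N : Type} [TopologicalSpace M] [CompactSpace M] [T2Space M]
  [ChartedSpace (E n) M] [IsManifold (𝓡 n) ∞ M]
  [TopologicalSpace N] [CompactSpace N] [T2Space N] [ChartedSpace (E n) N]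
  [IsManifold (𝓡 n) ∞ N]

theorem St.isOpen {f₀ : M → N} {Z₀ U : Set N} (h : St n f₀ Z₀ U) : IsOpen U := by
  obtain ⟨f, K, -, hi, -, rfl⟩ := h
  exact isOpen_good hi

theorem isDf_comp' {K K' : N → N} (h : IsDf n K) (h' : IsDf n K') :
    IsDf n (fun x => K' (K x)) :=
  ⟨h'.1.comp h.1, fun x => LD.comp_fun (g := K') (f := K) (h'.2 _) (h.2 x)⟩

theorem St.move {f₀ : M → N} {Z₀ U : Set N} (h : St n f₀ Z₀ U) {κ : N → N} (hκ : IsDf n κ) :
    St n f₀ Z₀ (κ '' U) := by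
  obtain ⟨f, K, hK, hi, hb, rfl⟩ := h
  have himg : (fun x => κ (K x)) '' Z₀ = κ '' (K '' Z₀) := by rw [image_image]
  refine ⟨fun x => κ (f x), fun x => κ (K x), isDf_comp' hK hκ, ?_, fun hb' => hκ.1.comp (hb hb'),
    ?_⟩
  · rw [himg]
    exact hi.comp hκ
  · rw [himg]
    obtain ⟨κ', h1, h2, h3⟩ := IsDf_inv hκ
    ext y
    constructor
    · rintro ⟨x, ⟨hx1, hx2⟩, rfl⟩
      refine ⟨f x, ⟨x, ⟨?_, fun h => hx2 ⟨_, h, rfl⟩⟩, rfl⟩, rfl⟩
      have h4 : LD n (fun x => κ' (κ (f x))) x := LD.comp_fun (g := κ') (h3 _) hx1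
      simpa only [h1] using h4
    · rintro ⟨_, ⟨x, ⟨hx1, hx2⟩, rfl⟩, rfl⟩
      refine ⟨x, ⟨LD.comp_fun (g := κ) (f := f) (hκ.2 _) hx1, ?_⟩, rfl⟩
      rintro ⟨w, hw, hwx⟩
      rw [hκ.1.1 hwx] at hw
      exact hx2 hw

/-- Step 0 -/
theorem St.zero (hn : 2 ≤ n) {f₀ : M → N} {Z₀ U : Set N} (h : St n f₀ Z₀ U) {b : E n → N}
    (hb : Injective b) (hbl : ∀ z, LD n b z) {K : Set N} (hKU : K ⊆ U)
    (hKb : ∀ z, b z ∉ K) : ∃ U', St n f₀ Z₀ U' ∧ K ∪ b '' closedBall 0 1 ⊆ U' := by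
  have hst := h
  obtain ⟨f, K₁, hK₁, hi, hbi, hU⟩ := h
  set Z := K₁ '' Z₀ with hZ
  obtain ⟨z, hz, hzZ⟩ : ∃ z ∈ ball (0 : E n) 1, b z ∉ Z := by
    by_contra hcon
    push Not at hcon
    have h1 : volume (ball (0 : E n) 1) = 0 :=
      measure_mono_null hcon (volume_null hn (hi.null b hb hbl))
    exact (isOpen_ball.measure_pos volume ⟨0, mem_ball_self one_pos⟩).ne' h1
  obtain ⟨x₀, hfx₀, hx₀s, hx₀u⟩ := hi.good _ hzZ
  have hball : IsOpen (b '' ball (0 : E n) 1) := isOpen_image_of_LD isOpen_ball fun x _ => hbl x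
  have h2 : ∀ᶠ y in 𝓝 x₀, f y ∈ b '' ball (0 : E n) 1 := by
    apply hi.cont.continuousAt
    rw [hfx₀]
    exact hball.mem_nhds ⟨z, hz, rfl⟩
  have h3 : ∀ᶠ y in 𝓝 x₀, f y ∉ Z := by
    have h4 : Zᶜ ∈ 𝓝 (f x₀) := by
      rw [hfx₀]
      exact hi.closed.isOpen_compl.mem_nhds hzZ
    exact hi.cont.continuousAt h4
  obtain ⟨W, hW, hWo, hxW⟩ := eventually_nhds_iff.1 (hx₀s.and (h2.and h3))
  have hinv : ∀ w, invFun b (b w) = w := leftInverse_invFun hb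
  have hinvl : ∀ w, LD n (invFun b) (b w) := fun w =>
    LD.inverse isOpen_univ (fun z _ => hbl z) (fun z _ => hinv z) (mem_univ w)
  obtain ⟨x₁, hx₁, hld⟩ := Pool.Agent.N550.SH.exists_ld (fun x => invFun b (f x)) W hWo x₀ hxW
    (by
      intro x hx
      obtain ⟨h3, ⟨w, -, hw⟩, -⟩ := hW x hx
      refine ContMDiffAt.comp (g := invFun b) x ?_ h3
      rw [← hw]
      exact (hinvl w).contMDiffAt)
    (by
      intro V hV hVo
      have h3 : (fun x => invFun b (f x)) '' V = invFun b '' (f '' V) := by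
        rw [image_image]
      rw [h3]
      refine isOpen_image_of_LD (n := n)
        (hi.isOpen_image hVo (fun x hx => (hW x (hV hx)).2.2)) ?_
      rintro _ ⟨x, hx, rfl⟩
      obtain ⟨-, ⟨w, -, hw⟩, -⟩ := hW x (hV hx)
      rw [← hw]
      exact hinvl w)
  obtain ⟨-, ⟨z₀, -, hz₀⟩, hx₁Z⟩ := hW x₁ hx₁
  have hldf : LD n f x₁ := by
    have h3 : LD n (fun x => b (invFun b (f x))) x₁ :=
      LD.comp_fun (g := b) (f := fun x => invFun b (f x)) (hbl _) hld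
    refine LD.congr h3 ?_
    filter_upwards [hWo.mem_nhds hx₁] with y hy
    obtain ⟨-, ⟨w, -, hw⟩, -⟩ := hW y hy
    rw [← hw, hinv]
  have h6 : b ⁻¹' U ∈ 𝓝 z₀ := by
    apply (hbl z₀).continuousAt
    rw [← hU]
    refine (isOpen_good hi).mem_nhds ?_
    rw [hz₀]
    exact ⟨x₁, ⟨hldf, hx₁Z⟩, rfl⟩
  obtain ⟨ε, hε, hεb⟩ := Metric.mem_nhds_iff.1 h6
  obtain ⟨κ, hκ, hκs, hκb⟩ := Shift.main.2.2 n z₀ ε 1 hε
  obtain ⟨K', hK', hKb', hKo⟩ := Supp.main n N b hb hbl κ hκ hκs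
  refine ⟨K' '' U, hst.move hK', ?_⟩
  rintro x (hx | ⟨z, hz, rfl⟩)
  · refine ⟨x, hKU hx, hKo x ?_⟩
    rintro ⟨z, rfl⟩
    exact hKb z hx
  · obtain ⟨w, hw, rfl⟩ := hκb hz
    exact ⟨b w, hεb hw, hKb' w⟩

end

section

variable {m k : ℕ} {M N : Type} [TopologicalSpace M] [CompactSpace M] [T2Space M]
  [ChartedSpace (E (m + k)) M] [IsManifold (𝓡 (m + k)) ∞ M]
  [TopologicalSpace N] [CompactSpace N] [T2Space N] [ChartedSpace (E (m + k)) N]
  [IsManifold (𝓡 (m + k)) ∞ N]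

theorem norm_sub_jn (z : E (m + k)) : dist z (jn m k (up m k z) 0) = ‖vp m k z‖ := by
  have h1 : dist z (jn m k (up m k z) 0) ^ 2 = ‖vp m k z‖ ^ 2 := by
    rw [dist_eq_norm, EuclideanSpace.norm_sq_eq, EuclideanSpace.norm_sq_eq, Fin.sum_univ_add]
    have h2 : ∀ i : Fin m, ‖(z - jn m k (up m k z) 0) (Fin.castAdd k i)‖ ^ 2 = 0 := by
      intro i
      simp [jn]
    rw [Finset.sum_eq_zero fun i _ => h2 i, zero_add]
    refine Finset.sum_congr rfl fun i _ => ?_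
    simp [jn]
  exact (sq_eq_sq₀ dist_nonneg (norm_nonneg _)).1 h1

theorem norm_sq_split (z : E (m + k)) : ‖z‖ ^ 2 = ‖up m k z‖ ^ 2 + ‖vp m k z‖ ^ 2 := by
  rw [EuclideanSpace.norm_sq_eq, EuclideanSpace.norm_sq_eq, EuclideanSpace.norm_sq_eq,
    Fin.sum_univ_add]
  rfl

/-- the handle step -/
theorem St.handle (hk : 2 ≤ k) (hMDF : MDF m k) {f₀ : M → N} {Z₀ U : Set N}
    (h : St (m + k) f₀ Z₀ U) {l : E (m + k) → N} (hl : Injective l)
    (hld : ∀ z, LD (m + k) l z) {K : Set N} (hKU : K ⊆ U)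
    (hK : ∃ ε : ℝ, 0 < ε ∧ ∀ z, ‖up m k z‖ < 1 → ‖vp m k z‖ < ε → l z ∉ K)
    (hU : ∀ z, vp m k z = 0 → 1 ≤ ‖up m k z‖ → ‖up m k z‖ ≤ 3 / 2 → l z ∈ U) :
    ∃ U', St (m + k) f₀ Z₀ U' ∧ K ⊆ U' ∧ ∀ z, vp m k z = 0 → ‖up m k z‖ ≤ 1 → l z ∈ U' := by
  have hUo : IsOpen U := h.isOpen
  obtain ⟨f, K₁, hK₁, hi, hbi, hUe⟩ := h
  have hlc : Continuous l := continuous_iff_continuousAt.2 fun z => (hld z).continuousAt
  obtain ⟨ε, hε, hεK⟩ := hK
  have hcpt : IsCompact {z : E (m + k) | vp m k z = 0 ∧ 1 ≤ ‖up m k z‖ ∧ ‖up m k z‖ ≤ 3 / 2} := by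
    apply Metric.isCompact_of_isClosed_isBounded
    · exact (isClosed_eq (vp m k).continuous continuous_const).inter
        ((isClosed_le continuous_const (up m k).continuous.norm).inter
        (isClosed_le (up m k).continuous.norm continuous_const))
    · refine (isBounded_closedBall (x := (0 : E (m + k))) (r := 3 / 2)).subset ?_
      rintro z ⟨hz0, -, hz1⟩
      rw [mem_closedBall_zero_iff]
      have h1 := norm_sq_split z
      rw [hz0, norm_zero] at h1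
      nlinarith [norm_nonneg z, norm_nonneg (up m k z)]
  obtain ⟨ε₁, hε₁, hε₁U⟩ := hcpt.exists_thickening_subset_open (hUo.preimage hlc)
    (fun z hz => hU z hz.1 hz.2.1 hz.2.2)
  set δ := min ε ε₁ with hδ
  have hδ0 : 0 < δ := lt_min hε hε₁
  set l' : E (m + k) → N := fun z => l (Sqz.tau m k δ z) with hl'
  have hl'i : Injective l' := hl.comp (Sqz.tau_inj m k hδ0)
  have hl'd : ∀ z, LD (m + k) l' z := fun z =>
    LD.comp_fun (g := l) (f := Sqz.tau m k δ) (hld _) (Sqz.tau_ld m k hδ0 z)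
  set Y : Set N := U \ {y | ∃ z, y = l' z ∧ ‖up m k z‖ < 1} with hY
  have hYiff : ∀ z, l' z ∈ Y ↔ 1 ≤ ‖up m k z‖ := by
    intro z
    constructor
    · rintro ⟨-, h2⟩
      by_contra hcon
      exact h2 ⟨z, rfl, not_le.1 hcon⟩
    · intro h1
      refine ⟨hε₁U ?_, ?_⟩
      · rw [mem_thickening_iff]
        refine ⟨jn m k (up m k (Sqz.tau m k δ z)) 0, ⟨by rw [vp_jn], by
          rw [up_jn]; exact (Sqz.tau_one m k δ z).2 h1, by
          rw [up_jn]; exact (Sqz.tau_up m k δ z).le⟩, ?_⟩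
        rw [norm_sub_jn]
        exact lt_of_lt_of_le (Sqz.tau_vp m k hδ0 z) (min_le_right _ _)
      · rintro ⟨w, hw, hw1⟩
        rw [hl'i hw] at h1
        exact absurd hw1 (not_lt.2 h1)
  obtain ⟨f', K₂, hK₂, hi', hl2, hd2, hb2⟩ := step2 m k hk hMDF M N f _ hi l' Y hl'i hl'd hYiff
    (fun x hx => good_ld hi (by rw [hUe]; exact hx.1))
    (fun y hy => good_notMem (n := m + k) (f := f) (by rw [hUe]; exact hy.1))
  have himg : (fun x => K₂ (K₁ x)) '' Z₀ = K₂ '' (K₁ '' Z₀) := by rw [image_image]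
  have hgood : ∀ y ∈ Y ∪ l' '' {z | vp m k z = 0 ∧ ‖up m k z‖ ≤ 1},
      y ∈ good (m + k) f' (K₂ '' (K₁ '' Z₀)) := fun y hy =>
    mem_good hi' (hd2 y hy) fun x hx => hl2 x (by rw [hx]; exact hy)
  refine ⟨good (m + k) f' (K₂ '' (K₁ '' Z₀)), ⟨f', fun x => K₂ (K₁ x), isDf_comp' hK₁ hK₂, by
    rw [himg]; exact hi', fun hb => hb2 (hbi hb), by rw [himg]⟩, fun y hy => ?_, fun z hz0 hz1 => ?_⟩
  · refine hgood y (Or.inl ⟨hKU hy, ?_⟩)
    rintro ⟨z, rfl, hz1⟩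
    refine hεK _ ?_ ?_ hy
    · by_contra hcon
      exact absurd hz1 (not_lt.2 ((Sqz.tau_one m k δ z).1 (not_lt.1 hcon)))
    · exact lt_of_lt_of_le (Sqz.tau_vp m k hδ0 z) (min_le_left _ _)
  · obtain ⟨w, hw1, hw2, hw3⟩ := Sqz.tau_core m k hδ0 z hz0 hz1
    have h1 := hgood (l' w) (Or.inr ⟨w, ⟨hw2, hw3⟩, rfl⟩)
    simp only [hl', hw1] at h1
    exact h1

end

end Pool.Agent.L0h29.SP
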