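import Pool.Agent.L0h29.SP.Spine
import Pool.Agent.L0h29.SP.Prim
import Pool.Agent.L0h29.RG.Norm

/-!
# Project SP: maps whose critical points have low rank
-/

set_option autoImplicit false
set_option linter.unusedSectionVars false
set_option linter.unusedVariables false

open Set Filter Topology Metric Function MeasureTheory
open scoped Manifold ContDiff

noncomputable section

namespace Pool.Agent.L0h29.SP

open Pool.Agent.Y522 Pool.Agent.N550.KH Pool.Agent.N550.KH.One Pool.Agent.L0h29.CS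
  Pool.Agent.L0h29.EN Pool.Agent.L0h29.RG

theorem perm_pair : ∀ i j : Fin 4, i ≠ j → ∃ e : Equiv.Perm (Fin 4), e 2 = i ∧ e 3 = j := by
  decide

/-- small shifts -/
theorem shift {X : Type} [TopologicalSpace X] [T2Space X] [ChartedSpace (E 4) X] {l : E 4 → X}
    (hl : Cell l) {C : Set (E 4)} (hC : IsCompact C) {K U : Set X} (hK : IsClosed K)
    (hU : IsOpen U) (hKU : K ⊆ U) : ∃ δ : ℝ, 0 < δ ∧ ∀ v : E 4, ‖v‖ < δ →
      (∀ z ∈ C, l (z + v) ∈ U) → ∃ κ : X → X, IsDf 4 κ ∧ K ⊆ κ '' U ∧ l '' C ⊆ κ '' U := by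
  obtain ⟨χ, hχ, hχ01, hχ1, hχ0, R, hR⟩ := exists_bump (D := cthickening 1 C)
    (F := (∅ : Set (E 4))) hC.cthickening isClosed_empty (disjoint_empty _)
  have hχs : HasCompactSupport χ := by
    refine HasCompactSupport.intro (isCompact_closedBall (0 : E 4) R) fun P hP => ?_
    rw [mem_closedBall_zero_iff, not_le] at hP
    exact hR P hP.le
  obtain ⟨M, hM⟩ := (hχ.continuous_fderiv (by simp)).bounded_above_of_compact_support
    (hχs.fderiv ℝ)
  have hM0 : 0 ≤ M := (norm_nonneg _).trans (hM 0)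
  obtain ⟨δ₁, hδ₁, hδ₁U⟩ := ((isCompact_closedBall (0 : E 4) (R + 1)).inter_left
    (hK.preimage hl.cont)).exists_thickening_subset_open (hU.preimage hl.cont)
    (fun z hz => hKU hz.1)
  refine ⟨min δ₁ (min 1 (1 / (2 * (M + 1)))), by positivity, fun v hv hvC => ?_⟩
  rw [lt_min_iff, lt_min_iff] at hv
  obtain ⟨hv1, hv2, hv3⟩ := hv
  let g : E 4 → E 4 := fun P => -(χ P • v)
  have hgs : ContDiff ℝ ∞ g := (hχ.smul contDiff_const).neg
  have hgd : ∀ P, ‖fderiv ℝ g P‖ ≤ 1 / 2 := by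
    intro P
    have h1 : HasFDerivAt g (-((fderiv ℝ χ P).smulRight v)) P :=
      (((hχ.differentiable (by simp)) P).hasFDerivAt.smul_const v).neg
    rw [h1.fderiv, norm_neg, ContinuousLinearMap.norm_smulRight_apply]
    have h2 : ‖fderiv ℝ χ P‖ * ‖v‖ ≤ M * (1 / (2 * (M + 1))) :=
      mul_le_mul (hM P) hv3.le (norm_nonneg _) hM0
    refine h2.trans ?_
    rw [mul_one_div, div_le_div_iff₀ (by positivity) (by norm_num)]
    nlinarith
  have hS : IsDf 4 (fun P => P + g P) := Shift.pert hgs (by norm_num) hgd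
  obtain ⟨κ, hκ, hκl, hκo⟩ := Supp.main 4 X l hl.1 hl.2 _ hS ⟨R, fun P hP => by
    show P + -(χ P • v) = P
    rw [hR P hP, zero_smul, neg_zero, add_zero]⟩
  refine ⟨κ, hκ, fun x hx => ?_, ?_⟩
  · by_cases hxr : x ∈ range l
    · obtain ⟨P, rfl⟩ := hxr
      obtain ⟨P', hP'⟩ := hS.1.2 P
      have hP2 : P' + -(χ P' • v) = P := hP'
      refine ⟨l P', ?_, by rw [hκl]; exact congrArg l hP'⟩
      by_cases hP'R : R ≤ ‖P'‖
      · have h1 : P' = P := by
          rw [← hP2, hR P' hP'R, zero_smul, neg_zero, add_zero]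
        rw [h1]
        exact hKU hx
      · push Not at hP'R
        have hd : dist P' P = ‖χ P' • v‖ := by
          rw [dist_eq_norm, ← hP2]
          congr 1
          abel
        have hd2 : dist P' P ≤ ‖v‖ := by
          rw [hd, norm_smul, Real.norm_of_nonneg (hχ01 P').1]
          have := (hχ01 P').2
          nlinarith [norm_nonneg v]
        apply hδ₁U
        rw [mem_thickening_iff]
        refine ⟨P, ⟨hx, ?_⟩, lt_of_le_of_lt hd2 hv1⟩
        rw [mem_closedBall_zero_iff]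
        have h2 : ‖P‖ ≤ ‖P'‖ + dist P' P := by
          have h3 : P = P' - (P' - P) := by abel
          rw [dist_eq_norm]
          nth_rewrite 1 [h3]
          exact norm_sub_le _ _
        linarith
    · exact ⟨x, hKU hx, hκo x hxr⟩
  · rintro _ ⟨z, hz, rfl⟩
    refine ⟨l (z + v), hvC z hz, ?_⟩
    rw [hκl]
    show l (z + v + -(χ (z + v) • v)) = l z
    rw [hχ1, one_smul, add_neg_cancel_right]
    refine mem_cthickening_of_dist_le (z + v) z 1 C hz ?_
    rw [dist_eq_norm, add_sub_cancel_left]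
    exact hv2.le

section

variable {M N : Type} [TopologicalSpace M] [CompactSpace M] [T2Space M]
  [ChartedSpace (E 4) M] [IsManifold (𝓡 4) ∞ M]
  [TopologicalSpace N] [CompactSpace N] [T2Space N] [ChartedSpace (E 4) N]
  [IsManifold (𝓡 4) ∞ N]

/-- permutation of the coordinates and translation -/
def pm (e : Equiv.Perm (Fin 4)) (p : E 4) (z : E 4) : E 4 :=
  WithLp.toLp 2 fun i => p i + z (e.symm i)

theorem pm_apply (e : Equiv.Perm (Fin 4)) (p z : E 4) (x : Fin 4) :
    pm e p z (e x) = p (e x) + z x := by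
  simp [pm]

def pmi (e : Equiv.Perm (Fin 4)) (p : E 4) (w : E 4) : E 4 :=
  WithLp.toLp 2 fun x => w (e x) - p (e x)

theorem pmi_pm (e : Equiv.Perm (Fin 4)) (p z : E 4) : pmi e p (pm e p z) = z := by
  ext x
  show pm e p z (e x) - p (e x) = z x
  rw [pm_apply]
  ring

theorem pm_pmi (e : Equiv.Perm (Fin 4)) (p w : E 4) : pm e p (pmi e p w) = w := by
  ext i
  obtain ⟨x, rfl⟩ := e.surjective i
  rw [pm_apply]
  show p (e x) + (w (e x) - p (e x)) = w (e x)
  ring

theorem cell_pm {h : E 4 → N} (hh : Cell h) (e : Equiv.Perm (Fin 4)) (p : E 4) :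
    Cell fun z => h (pm e p z) := by
  refine ⟨hh.1.comp (Function.LeftInverse.injective (pmi_pm e p)), fun z => ?_⟩
  refine LD.comp_fun (g := h) (f := pm e p) (hh.2 _) ?_
  have h1 : ContDiff ℝ ∞ (pm e p) := by
    rw [contDiff_euclidean]
    intro i
    show ContDiff ℝ ∞ fun z : E 4 => p i + z (e.symm i)
    fun_prop
  have h2 : ContDiff ℝ ∞ (pmi e p) := by
    rw [contDiff_euclidean]
    intro i
    show ContDiff ℝ ∞ fun w : E 4 => w (e i) - p (e i)
    fun_prop
  exact Sqz.ld_of_left_inverse (g := pmi e p) (Eventually.of_forall fun y => h1.contDiffAt)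
    (h2.contDiffAt.differentiableAt (by simp)) (Eventually.of_forall fun y => pmi_pm e p y)

theorem fam_low {f : M → N} {Z : Set N} (hf : Inw 4 f Z) :
    Fam fun B => ∃ κ : N → N, IsDf 4 κ ∧ B = (κ '' Reg 4 f Z)ᶜ := by
  have hop : ∀ κ : N → N, IsDf 4 κ → IsOpen (κ '' Reg 4 f Z) := fun κ hκ =>
    isOpen_image_of_LD (n := 4) (isOpen_reg hf) fun x _ => hκ.2 x
  refine ⟨?_, ?_, ?_⟩
  · rintro _ ⟨κ, hκ, rfl⟩
    exact (hop κ hκ).isClosed_compl
  · rintro _ ⟨κ, hκ, rfl⟩ κ' hκ'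
    refine ⟨fun y => κ' (κ y), isDf_comp hκ' hκ, ?_⟩
    rw [image_compl_eq hκ'.1, image_image]
  · rintro _ ⟨κ, hκ, rfl⟩ K hK hKZ h hh i j hij a b C hC hab
    have hKU : K ⊆ κ '' Reg 4 f Z := disjoint_compl_right_iff_subset.1 hKZ
    obtain ⟨e, he2, he3⟩ := perm_pair i j hij
    let p : E 4 := WithLp.toLp 2 fun l => if l = i then a else if l = j then b else 0
    have hpi : p i = a := by
      show (if i = i then a else _) = a
      rw [if_pos rfl]
    have hpj : p j = b := by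
      show (if j = i then a else if j = j then b else 0) = b
      rw [if_neg hij.symm, if_pos rfl]
    let l : E 4 → N := fun z => h (pm e p z)
    have hl : Cell l := cell_pm hh e p
    have hpc : Continuous (pmi e p) := by
      have h2 : ContDiff ℝ ∞ (pmi e p) := by
        rw [contDiff_euclidean]
        intro i
        show ContDiff ℝ ∞ fun w : E 4 => w (e i) - p (e i)
        fun_prop
      exact h2.continuous
    have hC' : IsCompact (pmi e p '' C) := hC.image hpc
    obtain ⟨δ, hδ, hδv⟩ := shift hl hC' hK (hop κ hκ) hKU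
    obtain ⟨y0, hy0, hreg⟩ := slice 2 2 (by norm_num) M N (fun x => κ (f x)) (κ '' Z)
      (hf.comp hκ) (l : E (2 + 2) → N) hl.1 hl.2 δ hδ
    rw [reg_comp hκ] at hreg
    have hv : ‖(jn 2 2 0 y0 : E (2 + 2))‖ = ‖y0‖ := by
      have h2 : ‖(jn 2 2 0 y0 : E (2 + 2))‖ ^ 2 = ‖y0‖ ^ 2 := by
        rw [norm_sq_split, up_jn, vp_jn, norm_zero]
        ring
      exact (sq_eq_sq₀ (norm_nonneg _) (norm_nonneg _)).1 h2
    obtain ⟨κ', hκ', h1, h2⟩ := hδv (jn 2 2 0 y0 : E (2 + 2)) (by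
      show ‖(jn 2 2 0 y0 : E (2 + 2))‖ < δ
      rw [hv]; exact hy0) (by
      rintro _ ⟨z, hz, rfl⟩
      refine hreg _ ?_
      have h3 : vp 2 2 (pmi e p z) = 0 := by
        ext x
        fin_cases x
        · show z (e 2) - p (e 2) = 0
          rw [he2, hpi, (hab z hz).1, sub_self]
        · show z (e 3) - p (e 3) = 0
          rw [he3, hpj, (hab z hz).2, sub_self]
      have h4 : vp 2 2 (pmi e p z + jn 2 2 0 y0) = vp 2 2 (pmi e p z) + vp 2 2 (jn 2 2 0 y0) :=
        map_add _ _ _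
      rw [h4, h3, vp_jn, zero_add])
    have himg : (fun y => κ' (κ y)) '' Reg 4 f Z = κ' '' (κ '' Reg 4 f Z) := by
      rw [image_image]
    refine ⟨_, ⟨fun y => κ' (κ y), isDf_comp hκ' hκ, rfl⟩, ?_, ?_⟩
    · rw [himg, disjoint_compl_right_iff_subset]
      exact h1
    · rw [himg, disjoint_compl_right_iff_subset]
      rintro _ ⟨z, hz, rfl⟩
      refine h2 ⟨pmi e p z, ⟨z, hz, rfl⟩, ?_⟩
      show h (pm e p (pmi e p z)) = h z
      rw [pm_pmi]

end

/-- the critical values lie in a cell, up to a diffeomorphism -/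
theorem amb2 (M N : Type) [TopologicalSpace M] [CompactSpace M] [T2Space M] [ChartedSpace (E 4) M]
    [IsManifold (𝓡 4) ∞ M] [TopologicalSpace N] [CompactSpace N] [T2Space N]
    [ChartedSpace (E 4) N] [IsManifold (𝓡 4) ∞ N] [SimplyConnectedSpace N] (f : M → N) (Z : Set N)
    (hf : Inw 4 f Z) :
    ∃ (κ : N → N) (c : E 4 → N) (R : ℝ), 0 < R ∧ IsDf 4 κ ∧ Cell c ∧
      ∀ y, y ∉ c '' closedBall 0 R → y ∈ κ '' Reg 4 f Z := by
  have hid : IsDf 4 (fun x : N => x) := ⟨bijective_id, fun x => LD.id x⟩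
  obtain ⟨T, hT, hTn, hsp⟩ := spine (fam_low hf) ⟨_, fun x => x, hid, rfl⟩
  obtain ⟨c, hc, hTc⟩ := engulf hT hTn
  obtain ⟨B, hB, hBc⟩ := hsp _ hc.isOpen hTc
  have hBcl := (fam_low hf).closed B hB
  obtain ⟨R, hR, hBR⟩ := exists_rad hc hBcl.isCompact hBc
  obtain ⟨κ, hκ, rfl⟩ := hB
  refine ⟨κ, c, R, hR, hκ, hc, fun y hy => ?_⟩
  by_contra hcon
  exact hy (image_mono ball_subset_closedBall (hBR hcon))

end Pool.Agent.L0h29.SP
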