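import Pool.Agent.L0h29.SP.Spine
import Pool.Agent.L0h29.SP.Clear

/-!
# Project SP: maps with bad set in a cell
-/

set_option autoImplicit false
set_option linter.unusedSectionVars false
set_option linter.unusedVariables false

open Set Filter Topology Metric Function MeasureTheory
open scoped Manifold ContDiff

noncomputable section

namespace Pool.Agent.L0h29.SP

open Pool.Agent.Y522 Pool.Agent.N550.KH Pool.Agent.N550.KH.One Pool.Agent.L0h29.CS
  Pool.Agent.L0h29.EN

section

variable {M N : Type} [TopologicalSpace M] [CompactSpace M] [T2Space M]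
  [ChartedSpace (E 4) M] [IsManifold (𝓡 4) ∞ M]
  [TopologicalSpace N] [CompactSpace N] [T2Space N] [ChartedSpace (E 4) N]
  [IsManifold (𝓡 4) ∞ N]

theorem fam_st (f₀ : M → N) (Z₀ : Set N) : Fam fun B => St 4 f₀ Z₀ Bᶜ := by
  refine ⟨fun Z hZ => ?_, fun Z hZ κ hκ => ?_, ?_⟩
  · have h1 := hZ.isOpen
    rwa [isOpen_compl_iff] at h1
  · have h1 := hZ.move hκ
    rwa [image_compl_eq hκ.1] at h1
  · intro Z hZ K hK hKZ h hh i j hij a b C hC hab
    obtain ⟨r, hr, hrC⟩ : ∃ r : ℝ, 0 < r ∧ ∀ z ∈ C, ∀ l, |z l| ≤ r := by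
      obtain ⟨B, hB⟩ := hC.isBounded.exists_norm_le
      refine ⟨max B 1, lt_max_of_lt_right one_pos, fun z hz l => ?_⟩
      exact (PiLp.norm_apply_le z l).trans ((hB z hz).trans (le_max_left _ _))
    let p : E 4 := WithLp.toLp 2 fun l => if l = i then a else if l = j then b else 0
    have hpi : p i = a := by
      show (if i = i then a else _) = a
      rw [if_pos rfl]
    have hpj : p j = b := by
      show (if j = i then a else if j = j then b else 0) = b
      rw [if_neg hij.symm, if_pos rfl]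
    have hpl : ∀ l, l ≠ i → l ≠ j → p l = 0 := fun l h1 h2 => by
      show (if l = i then a else if l = j then b else 0) = 0
      rw [if_neg h1, if_neg h2]
    obtain ⟨U', h1, h2, h3⟩ := clr_two f₀ Z₀ (J := (Finset.univ.erase i).erase j) (by
      rw [Finset.card_erase_of_mem (Finset.mem_erase.2 ⟨hij.symm, Finset.mem_univ _⟩),
        Finset.card_erase_of_mem (Finset.mem_univ _)]
      simp) h hh.1 hh.2 p r hr Zᶜ hZ K hK (fun x hx hxZ => disjoint_left.1 hKZ hx hxZ)
    refine ⟨U'ᶜ, by rw [compl_compl]; exact h1, disjoint_left.2 fun x hx hx' => hx' (h2 hx), ?_⟩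
    rw [disjoint_left]
    rintro _ ⟨z, hz, rfl⟩ hx'
    refine hx' (h3 z fun l => ⟨fun hl => ?_, fun hl => ?_⟩)
    · rw [Finset.mem_erase, Finset.mem_erase] at hl
      rw [hpl l hl.2.1 hl.1, sub_zero]
      exact hrC z hz l
    · rw [Finset.mem_erase, Finset.mem_erase, not_and_or, not_and_or, not_not, not_not] at hl
      rcases hl with hl | hl | hl
      · rw [hl, hpj]; exact (hab z hz).2
      · rw [hl, hpi]; exact (hab z hz).1
      · exact absurd (Finset.mem_univ l) hl

end

/-- **The theorem.** Maps which are smooth and injective over the complement of a small closed set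
can be modified such that the bad set lies in a cell. -/
theorem main2 (M N : Type) [TopologicalSpace M] [CompactSpace M] [T2Space M] [ChartedSpace (E 4) M]
    [IsManifold (𝓡 4) ∞ M] [TopologicalSpace N] [CompactSpace N] [T2Space N]
    [ChartedSpace (E 4) N] [IsManifold (𝓡 4) ∞ N] [SimplyConnectedSpace N] (f : M → N) (Z : Set N)
    (hf : Inv 4 f Z) :
    ∃ (G : M → N) (K : N → N) (c : E 4 → N) (R : ℝ), IsDf 4 K ∧ Cell c ∧ 0 < R ∧
      Inv 4 G (K '' Z) ∧ (∀ y, y ∉ c '' closedBall 0 R → y ∉ K '' Z ∧ ∀ x, G x = y → LD 4 G x) ∧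
      (Bijective f → Bijective G) := by
  have hid : IsDf 4 (fun x : N => x) := ⟨bijective_id, fun x => LD.id x⟩
  obtain ⟨T, hT, hTn, hsp⟩ := spine (fam_st f Z) ⟨(good 4 f Z)ᶜ, f, fun x => x, hid, by
    rw [image_id']; exact hf, fun h => h, by rw [image_id', compl_compl]⟩
  obtain ⟨c, hc, hTc⟩ := engulf hT hTn
  obtain ⟨B, hB, hBc⟩ := hsp _ hc.isOpen hTc
  have hBcl := (fam_st f Z).closed B hB
  obtain ⟨R, hR, hBR⟩ := exists_rad hc hBcl.isCompact hBc
  obtain ⟨G, K, hK, hi, hb, hg⟩ := hB
  refine ⟨G, K, c, R, hK, hc, hR, hi, fun y hy => ?_, hb⟩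
  have hyg : y ∈ good 4 G (K '' Z) := by
    rw [hg]
    exact fun h => hy (image_mono ball_subset_closedBall (hBR h))
  exact ⟨good_notMem hyg, fun x hx => good_ld hi (by rw [hx]; exact hyg)⟩

end Pool.Agent.L0h29.SP
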