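import Pool.Agent.L0h29.SP.Low

/-!
# Project SP: the normal form of maps whose critical points have low rank
-/

set_option autoImplicit false
set_option linter.unusedSectionVars false
set_option linter.unusedVariables false

open Set Filter Topology Metric Function MeasureTheory
open scoped Manifold ContDiff

noncomputable section

namespace Pool.Agent.L0h29.SP

open Pool.Agent.Y522 Pool.Agent.N550.KH Pool.Agent.N550.KH.One Pool.Agent.N550.KH.Supp
  Pool.Agent.L0h29.CS Pool.Agent.N550.TS.Flm Pool.Agent.L0h29.EN Pool.Agent.L0h29.RG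

/-- the normal form -/
theorem normal2 (M N : Type) [TopologicalSpace M] [CompactSpace M] [T2Space M]
    [ChartedSpace (E 4) M] [IsManifold (𝓡 4) ∞ M] [TopologicalSpace N] [CompactSpace N]
    [T2Space N] [ChartedSpace (E 4) N] [IsManifold (𝓡 4) ∞ N] [SimplyConnectedSpace N]
    (f : M → N) (Z : Set N) (hf : Inw 4 f Z) (κ : N → N) (c : E 4 → N) (R : ℝ) (hR : 0 < R)
    (hκ : IsDf 4 κ) (hc : Cell c) (hκR : ∀ y, y ∉ c '' closedBall 0 R → y ∈ κ '' Reg 4 f Z) :
    ∃ (g : M → N) (k : ℕ), (∀ x, ContMDiffAt (𝓡 4) (𝓡 4) ∞ g x) ∧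
      (∀ x, g x ≠ c 0 → LD 4 g x) ∧ (∀ y, y ≠ c 0 → cnt g y = k) ∧
      ∀ y ∈ Reg 4 f Z, cnt f y = k := by
  have hf' := hf.comp hκ
  rw [← reg_comp hκ] at hκR
  set f' : M → N := fun x => κ (f x) with hf'd
  set Z' : Set N := κ '' Z with hZ'
  have hci := hc.1
  have hcl := hc.2
  have hcc : Continuous c := continuous_iff_continuousAt.2 fun z => (hcl z).continuousAt
  let g : M → N := fun x => act c (psiR R) (f' x)
  -- the critical region
  have hout : ∀ x, g x ≠ c 0 → f' x ∉ c '' closedBall 0 R := by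
    rintro x hx ⟨z, hz, hzx⟩
    apply hx
    show act c (psiR R) (f' x) = c 0
    rw [← hzx, coll_c hci, psiR_zero hR]
    rw [mem_closedBall_zero_iff] at hz
    nlinarith
  have hld : ∀ x, f' x ∉ c '' closedBall 0 R → LD 4 f' x := fun x hx => (hκR _ hx).2 x rfl
  have hgld : ∀ x, g x ≠ c 0 → LD 4 g x := fun x hx =>
    LD.comp_fun (g := act c (psiR R)) (f := f') (coll_ld hci hcl hR hx) (hld x (hout x hx))
  have hgs : ∀ x, ContMDiffAt (𝓡 4) (𝓡 4) ∞ g x := by
    intro x
    by_cases hx : f' x ∈ c '' ball 0 (7 / 5 * R)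
    · have ho : IsOpen (c '' ball 0 (7 / 5 * R)) :=
        isOpen_image_of_LD (n := 4) isOpen_ball fun z _ => hcl z
      refine (contMDiffAt_const (c := c 0)).congr_of_eventuallyEq ?_
      filter_upwards [(ho.preimage hf'.cont).mem_nhds hx] with y hy
      obtain ⟨z, hz, hzy⟩ := hy
      show act c (psiR R) (f' y) = c 0
      rw [← hzy, coll_c hci, psiR_zero hR (mem_ball_zero_iff.1 hz).le]
    · have h1 : f' x ∉ c '' closedBall 0 R := fun hcon =>
        hx (image_mono (closedBall_subset_ball (by nlinarith)) hcon)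
      exact ContMDiffAt.comp (g := act c (psiR R)) x (coll_smooth hci hcl hR _)
        (hld x h1).contMDiffAt
  have hgc : Continuous g := continuous_iff_continuousAt.2 fun x => (hgs x).continuousAt
  -- connectedness
  have hsc := simplyConnected_compl (n := 4) (by norm_num) (openEmb hci hcl)
  have hpre : IsPreconnected ({c 0}ᶜ : Set N) := by
    have h1 : IsPathConnected ({c 0}ᶜ : Set N) :=
      isPathConnected_iff_pathConnectedSpace.2 inferInstance
    exact h1.isConnected.isPreconnected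
  obtain ⟨e, he⟩ : ∃ e : E 4, e ≠ 0 := ⟨EuclideanSpace.single 0 (1 : ℝ), by
    rw [← norm_pos_iff, PiLp.norm_single]; simp⟩
  have hce : c e ≠ c 0 := fun hcon => he (hci hcon)
  have hk : ∀ y, y ≠ c 0 → cnt g y = cnt g (c e) := fun y hy =>
    cnt_const (n := 4) hgc (O := {c 0}ᶜ) hgld hpre Subset.rfl hy hce
  refine ⟨g, cnt g (c e), hgs, hgld, hk, fun y hy => ?_⟩
  -- the number of the preimages
  have hκc : ∀ y, cnt f' (κ y) = cnt f y := by
    intro y
    have h1 : f' ⁻¹' {κ y} = f ⁻¹' {y} := by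
      ext x
      exact ⟨fun hx => hκ.1.1 hx, fun hx => congrArg κ hx⟩
    unfold cnt
    rw [h1]
  have hy' : κ y ∈ Reg 4 f' Z' := by
    rw [reg_comp hκ]
    exact ⟨y, hy, rfl⟩
  rw [← hκc]
  -- outside of the ball
  have hfar : ∀ y', y' ∉ c '' closedBall 0 (7 / 5 * R) → act c (psiR R) y' ≠ c 0 →
      cnt f' y' = cnt g (c e) := by
    intro y' _ hy0
    rw [← hk _ hy0]
    have h1 : f' ⁻¹' {y'} = g ⁻¹' {act c (psiR R) y'} := by
      ext x
      constructor
      · intro hx
        show act c (psiR R) (f' x) = _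
        rw [show f' x = y' from hx]
      · intro hx
        have h2 : act c (psiR R) (f' x) = act c (psiR R) y' := hx
        exact coll_inj hci hR h2 (by rw [h2]; exact hy0)
    unfold cnt
    rw [h1]
  have hbig : ∀ y', y' ∉ c '' closedBall 0 (2 * R) → cnt f' y' = cnt g (c e) := by
    intro y' hy2
    refine hfar y' (fun hcon => hy2 (image_mono (closedBall_subset_closedBall (by nlinarith)) hcon))
      fun hcon => ?_
    obtain ⟨z, rfl, hz⟩ := (coll_eq hci).1 hcon
    rcases le_or_gt ‖z‖ (2 * R) with h3 | h3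
    · exact hy2 ⟨z, mem_closedBall_zero_iff.2 h3, rfl⟩
    · rw [psiR_id hR h3.le] at hz
      rw [hz, norm_zero] at h3
      linarith
  by_cases hin : κ y ∈ c '' closedBall 0 (2 * R)
  · obtain ⟨z₁, hz₁, hz₁y⟩ := hin
    obtain ⟨S, z₃, hS1, hS2, hS3, hS4, hS5⟩ := escape M N f' Z' hf' c hci hcl (2 * R)
      (by positivity) z₁ (by rw [hz₁y]; exact hy') (mem_closedBall_zero_iff.1 hz₁)
    rw [← hz₁y, cnt_const (n := 4) hf'.cont (O := Reg 4 f' Z') (fun x hx => hx.2 x rfl) hS1 hS2
      hS3 hS4]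
    apply hbig
    rintro ⟨z, hz, hzz⟩
    rw [hci hzz, mem_closedBall_zero_iff] at hz
    linarith
  · exact hbig _ hin

end Pool.Agent.L0h29.SP
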