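import Pool.Agent.L0h29.EN.Box

/-!
# Project SP: contractions of parts of euclidean space towards a subspace
-/

set_option autoImplicit false
set_option linter.unusedSectionVars false
set_option linter.unusedVariables false

open Set Filter Topology Metric Function MeasureTheory
open scoped Manifold ContDiff

noncomputable section

namespace Pool.Agent.L0h29.SP

open Pool.Agent.Y522 Pool.Agent.N550.KH Pool.Agent.N550.KH.One Pool.Agent.L0h29.CS
  Pool.Agent.L0h29.EN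

/-- the contraction `P ↦ P - ε χ(P) L (P - v)` -/
def cn (χ : E 4 → ℝ) (ε : ℝ) (L : E 4 →L[ℝ] E 4) (v P : E 4) : E 4 := P - (ε * χ P) • L (P - v)

/-- the data of a contraction -/
structure Cn (D G : Set (E 4)) (L : E 4 →L[ℝ] E 4) (v : E 4) (χ : E 4 → ℝ) (ε : ℝ) : Prop where
  mem : ∀ x, 0 ≤ χ x ∧ χ x ≤ 1
  one : ∀ x ∈ D, χ x = 1
  zero : ∀ x, x ∉ G → χ x = 0
  cpt : ∃ R : ℝ, ∀ x, R ≤ ‖x‖ → χ x = 0
  pos : 0 < ε
  le : ε ≤ 1 / 2
  df : IsDf 4 (cn χ ε L v)

theorem exists_cn {D G : Set (E 4)} (hD : IsCompact D) (hG : IsOpen G) (hDG : D ⊆ G)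
    (L : E 4 →L[ℝ] E 4) (v : E 4) : ∃ (χ : E 4 → ℝ) (ε : ℝ), Cn D G L v χ ε := by
  obtain ⟨χ, hχ, hχ01, hχ1, hχ0, R, hR⟩ := exists_bump hD hG.isClosed_compl
    (disjoint_compl_right_iff_subset.2 hDG)
  let F : E 4 → E 4 := fun P => χ P • L (P - v)
  have hF : ContDiff ℝ ∞ F := hχ.smul (L.contDiff.comp (contDiff_id.sub contDiff_const))
  have hFs : HasCompactSupport F := by
    refine HasCompactSupport.intro (isCompact_closedBall (0 : E 4) R) fun P hP => ?_
    show χ P • L (P - v) = 0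
    rw [mem_closedBall_zero_iff, not_le] at hP
    rw [hR P hP.le, zero_smul]
  obtain ⟨M, hM⟩ := (hF.continuous_fderiv (by simp)).bounded_above_of_compact_support
    (hFs.fderiv ℝ)
  have hM0 : 0 ≤ M := (norm_nonneg _).trans (hM 0)
  set ε : ℝ := 1 / (2 * (M + 1)) with hε
  have hε0 : 0 < ε := by positivity
  have hε1 : ε ≤ 1 / 2 := by
    rw [hε, div_le_div_iff₀ (by positivity) (by norm_num)]
    nlinarith
  have hεM : ε * M ≤ 1 / 2 := by
    rw [hε, one_div, inv_mul_le_iff₀ (by positivity)]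
    nlinarith
  let g : E 4 → E 4 := fun P => (-ε) • F P
  have hgs : ContDiff ℝ ∞ g := hF.const_smul (-ε)
  have hgd : ∀ P, ‖fderiv ℝ g P‖ ≤ 1 / 2 := by
    intro P
    have h1 : fderiv ℝ g P = (-ε) • fderiv ℝ F P :=
      fderiv_fun_const_smul ((hF.differentiable (by simp)) P) (-ε)
    rw [h1, norm_smul, norm_neg, Real.norm_of_nonneg hε0.le]
    calc ε * ‖fderiv ℝ F P‖ ≤ ε * M := by gcongr; exact hM P
      _ ≤ 1 / 2 := hεM
  have hS : IsDf 4 (fun P => P + g P) := Shift.pert hgs (by norm_num) hgd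
  refine ⟨χ, ε, hχ01, hχ1, fun x hx => hχ0 x hx, ⟨R, hR⟩, hε0, hε1, ?_⟩
  have h1 : cn χ ε L v = fun P => P + g P := by
    funext P
    show P - (ε * χ P) • L (P - v) = P + (-ε) • (χ P • L (P - v))
    rw [neg_smul, smul_smul, sub_eq_add_neg]
  rw [h1]
  exact hS

variable {D G : Set (E 4)} {L : E 4 →L[ℝ] E 4} {v : E 4} {χ : E 4 → ℝ} {ε : ℝ}

theorem Cn.fix (h : Cn D G L v χ ε) {P : E 4} (hP : P ∉ G) : cn χ ε L v P = P := by
  rw [cn, h.zero P hP, mul_zero, zero_smul, sub_zero]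

theorem Cn.fix' (h : Cn D G L v χ ε) {P : E 4} (hP : P ∉ G) (m : ℕ) :
    (cn χ ε L v)^[m] P = P := Function.iterate_fixed (h.fix hP) m

/-- the contraction preserves `G` -/
theorem Cn.memG (h : Cn D G L v χ ε) {P : E 4} : cn χ ε L v P ∈ G ↔ P ∈ G := by
  constructor
  · intro hP
    by_contra hcon
    rw [h.fix hcon] at hP
    exact hcon hP
  · intro hP
    by_contra hcon
    have h1 := h.fix hcon
    have h2 := h.df.1.1 h1
    rw [h2] at hcon
    exact hcon hP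

/-- invariant sets -/
theorem Cn.iter (h : Cn D G L v χ ε) {A : Set (E 4)}
    (hA : ∀ P ∈ G, ∀ s ∈ Icc (0 : ℝ) (1 / 2), (P - s • L (P - v) ∈ A ↔ P ∈ A)) (m : ℕ) (P : E 4) :
    (cn χ ε L v)^[m] P ∈ A ↔ P ∈ A := by
  have h1 : ∀ P, cn χ ε L v P ∈ A ↔ P ∈ A := by
    intro P
    by_cases hP : P ∈ G
    · refine hA P hP _ ⟨mul_nonneg h.pos.le (h.mem P).1, ?_⟩
      have := h.mem P
      have := h.pos
      have := h.le
      nlinarith
    · rw [h.fix hP]
  induction m with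
  | zero => exact Iff.rfl
  | succ m ih =>
    rw [Function.iterate_succ']
    exact (h1 _).trans ih

/-- transport to the manifold -/
theorem Cn.exists {X : Type} [TopologicalSpace X] [T2Space X] [ChartedSpace (E 4) X]
    {ψ : E 4 → X} (hψ : Cell ψ) (h : Cn D G L v χ ε) (m : ℕ) :
    ∃ κ : X → X, IsDf 4 κ ∧ (∀ P, κ (ψ P) = ψ ((cn χ ε L v)^[m] P)) ∧
      ∀ x, x ∉ range ψ → κ x = x := by
  obtain ⟨R, hR⟩ := h.cpt
  refine Supp.main 4 X ψ hψ.1 hψ.2 _ (Shift.isDf_iter h.df m) ⟨R, fun P hP => ?_⟩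
  refine Function.iterate_fixed ?_ m
  rw [cn, hR P hP, mul_zero, zero_smul, sub_zero]

end Pool.Agent.L0h29.SP
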