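import Pool.Agent.L0h29.SP.Box
import Pool.Agent.L0h29.EN.Asm

/-!
# Project SP: the spine theorem

For every closed 4-manifold and every family of closed sets which is invariant under diffeomorphisms
and whose members can be cleared off flat discs there is a compact set `T` whose two-dimensional
Hausdorff measure vanishes such that every neighbourhood of `T` contains a member of the family.
-/

set_option autoImplicit false
set_option linter.unusedSectionVars false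
set_option linter.unusedVariables false

open Set Filter Topology Metric Function MeasureTheory
open scoped Manifold ContDiff

noncomputable section

namespace Pool.Agent.L0h29.SP

open Pool.Agent.Y522 Pool.Agent.N550.KH Pool.Agent.N550.KH.One Pool.Agent.L0h29.CS
  Pool.Agent.L0h29.EN Pool.Agent.N550.TS.Flm

variable {X : Type} [TopologicalSpace X] [ChartedSpace (E 4) X]

/-- `T` controls the family, over `A` -/
def Ctl (𝒢 : Set X → Prop) (A T : Set X) : Prop :=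
  ∀ W, IsOpen W → T ∪ Aᶜ ⊆ W → ∃ Z, 𝒢 Z ∧ Z ⊆ W

theorem ln_self (z : E 4) (t : ℝ) : ln z z t = z := by simp [ln]

/-- the set of the points which see `y` in `W` -/
theorem isOpen_see {ψ : E 4 → X} (hψ : Cell ψ) {W : Set X} (hW : IsOpen W) (y : E 4) :
    IsOpen {P : E 4 | ∀ t ∈ Icc (0 : ℝ) 1, ψ (ln y P t) ∈ W} := by
  rw [isOpen_iff_mem_nhds]
  intro P hP
  refine IsCompact.eventually_forall_of_forall_eventually isCompact_Icc fun t ht => ?_
  have h1 : Continuous fun q : E 4 × ℝ => ψ (ln y q.1 q.2) := by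
    refine hψ.cont.comp ?_
    unfold ln; fun_prop
  exact h1.continuousAt.preimage_mem_nhds (hW.mem_nhds (hP t ht))

theorem step [CompactSpace X] [T2Space X] {𝒢 : Set X → Prop} (hF : Fam 𝒢) {A T : Set X}
    (hA : IsOpen A) (hT : IsCompact T) (hTn : NullH2 4 T) (hP : Ctl 𝒢 A T) {A' : Set X}
    (hAA : closure A' ⊆ A) {ψ : E 4 → X} (hψ : Cell ψ) :
    ∃ T', IsCompact T' ∧ NullH2 4 T' ∧ Ctl 𝒢 (A' ∪ ψ '' ball 0 1) T' := by
  classical
  obtain ⟨τ, hτ, g1, g2⟩ := generic_box (hTn ψ hψ.1 hψ.2)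
  have hball : ball (0 : E 4) 1 ⊆ qo τ := by
    intro z hz i
    rw [mem_ball_zero_iff] at hz
    have e1 : |z i| ≤ ‖z‖ := PiLp.norm_apply_le z i
    have e2 : |τ i| ≤ ‖τ‖ := PiLp.norm_apply_le τ i
    have e3 := abs_sub (z i) (τ i)
    linarith
  -- the mesh
  obtain ⟨m, hm, hmesh⟩ : ∃ m : ℕ, 0 < m ∧ ∀ z z' : E 4, z ∈ qc τ → ψ z ∉ A →
      dist z' z ≤ 2 * (1 / m) → ψ z' ∉ closure A' := by
    have h1 : IsCompact (qc τ ∩ ψ ⁻¹' Aᶜ) :=
      (isCompact_qc τ).inter_right (hA.isClosed_compl.preimage hψ.cont)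
    have h2 : IsOpen (ψ ⁻¹' (closure A')ᶜ) := isClosed_closure.isOpen_compl.preimage hψ.cont
    obtain ⟨ε, hε, hεs⟩ := h1.exists_thickening_subset_open h2 (fun z hz h => hz.2 (hAA h))
    obtain ⟨m, hm⟩ := exists_nat_gt (2 / ε)
    have hm' : (0 : ℝ) < m := lt_trans (by positivity) hm
    refine ⟨m, by exact_mod_cast hm', fun z z' hz hzA hd => hεs ?_⟩
    rw [mem_thickening_iff]
    refine ⟨z, ⟨hz, hzA⟩, lt_of_le_of_lt hd ?_⟩
    rw [div_lt_iff₀ hε] at hm
    rw [mul_one_div, div_lt_iff₀ hm']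
    linarith
  have hTs : ∀ z, ψ z ∈ T → z ∈ bd τ → z ∉ Sk m τ := by
    rintro z hz hzb ⟨i, j, hij, h1, k, hk⟩
    have hm' : (0 : ℝ) < m := by exact_mod_cast hm
    refine g2 i j hij z hz h1 (k / m) ?_
    push_cast
    rw [eq_div_iff hm'.ne', ← hk]
    ring
  -- the labels
  have hfin := lb_finite m τ (Sk m τ)ᶜ
  set F : Finset (Fin 4 → ℤ × ℤ) := hfin.toFinset with hFdef
  have hrep : ∀ L ∈ F, ∃ y, y ∈ bd τ ∧ y ∉ Sk m τ ∧ lb m τ y = L := by
    intro L hL
    obtain ⟨y, hy, hyL⟩ := hfin.mem_toFinset.1 hL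
    exact ⟨y, hy.2, hy.1, hyL⟩
  choose! y hyb hys hyL using hrep
  have hlF : ∀ z, z ∈ bd τ → z ∉ Sk m τ → lb m τ z ∈ F := fun z h1 h2 =>
    hfin.mem_toFinset.2 ⟨z, ⟨h2, h1⟩, rfl⟩
  let TL : (Fin 4 → ℤ × ℤ) → Set (E 4) := fun L => {z | z ∈ ψ ⁻¹' T ∩ bd τ ∧ lb m τ z = L}
  have hTL : ∀ L ∈ F, IsCompact (TL L) := by
    intro L hL
    have h1 : TL L = (bd τ ∩ ψ ⁻¹' T) ∩ QL m τ L := by
      ext z
      constructor
      · rintro ⟨⟨h1, h2⟩, h3⟩
        exact ⟨⟨h2, h1⟩, by rw [← h3]; exact mem_QL m τ z⟩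
      · rintro ⟨⟨h1, h2⟩, h3⟩
        refine ⟨⟨h2, h1⟩, ?_⟩
        rw [← hyL L hL] at h3 ⊢
        exact lb_closed' hm (hyb L hL) (hys L hL) h1 (hTs z h2 h1) h3
    rw [h1]
    exact ((isCompact_bd τ).inter_right (hT.isClosed.preimage hψ.cont)).inter_right
      (isClosed_QL m τ L)
  have hTLn : ∀ L, Measure.hausdorffMeasure 1 (TL L) = 0 := fun L =>
    measure_mono_null (fun z hz => hz.1) g1
  set T' : Set X := (((T \ ψ '' qo τ) ∪ ⋃ L ∈ F, ψ '' cone (y L) (TL L)) ∪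
    ⋃ L ∈ F, ψ '' cone τ {y L}) ∪ {ψ τ} with hT'
  refine ⟨T', ?_, ?_, ?_⟩
  · refine (((hT.diff (hψ.open_image (isOpen_qo τ))).union (F.isCompact_biUnion fun L hL =>
      (cone_cpt _ (hTL L hL)).image hψ.cont)).union (F.isCompact_biUnion fun L hL =>
      (cone_cpt _ isCompact_singleton).image hψ.cont)).union isCompact_singleton
  · refine NullH2.union (NullH2.union (NullH2.union (NullH2.mono sdiff_subset hTn)
      (nullH2_biUnion F _ fun L hL => nullH2_chart hψ (cone_null _ (hTLn L))))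
      (nullH2_biUnion F _ fun L hL => nullH2_chart hψ (cone_null _ (single_null _))))
      (null_single _)
  -- the main part
  intro W hW hTW
  have hTW1 : T \ ψ '' qo τ ⊆ W := fun x hx => hTW (Or.inl (Or.inl (Or.inl (Or.inl hx))))
  have hTW2 : ∀ L ∈ F, ∀ P ∈ cone (y L) (TL L), ψ P ∈ W := fun L hL P hP =>
    hTW (Or.inl (Or.inl (Or.inl (Or.inr (mem_iUnion₂.2 ⟨L, hL, P, hP, rfl⟩)))))
  have hTW3 : ∀ L ∈ F, ∀ P ∈ cone τ {y L}, ψ P ∈ W := fun L hL P hP =>
    hTW (Or.inl (Or.inl (Or.inr (mem_iUnion₂.2 ⟨L, hL, P, hP, rfl⟩))))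
  have hAW : ∀ x, x ∉ A' → x ∉ ψ '' ball 0 1 → x ∈ W := fun x h1 h2 =>
    hTW (Or.inr fun h3 => h3.elim h1 h2)
  let O : (Fin 4 → ℤ × ℤ) → Set (E 4) := fun L =>
    {P | ∀ t ∈ Icc (0 : ℝ) 1, ψ (ln (y L) P t) ∈ W}
  have hOo : ∀ L, IsOpen (O L) := fun L => isOpen_see hψ hW (y L)
  set B : Set X := ⋃ L ∈ F, ψ '' ((QL m τ L ∩ bd τ) \ O L) with hB
  have hBc : IsClosed B := by
    refine (F.isCompact_biUnion fun L hL => ?_).isClosed
    exact (((isCompact_bd τ).inter_left (isClosed_QL m τ L)).diff (hOo L)).image hψ.cont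
  set W₁ : Set X := (W ∪ ψ '' qo τ) \ B with hW₁
  have hW₁o : IsOpen W₁ := (hW.union (hψ.open_image (isOpen_qo τ))).sdiff hBc
  have hTAW : T ∪ Aᶜ ⊆ W₁ := by
    rintro x hx
    refine ⟨?_, ?_⟩
    · by_cases h1 : x ∈ ψ '' qo τ
      · exact Or.inr h1
      · left
        rcases hx with hx | hx
        · exact hTW1 ⟨hx, h1⟩
        · exact hAW x (fun h => hx (hAA (subset_closure h))) (fun h => h1 (image_mono hball h))
    · intro hxB
      obtain ⟨L, hL, z, ⟨⟨hz1, hz2⟩, hz3⟩, rfl⟩ := mem_iUnion₂.1 hxB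
      apply hz3
      rcases hx with hx | hx
      · have h1 : lb m τ z = L := by
          rw [← hyL L hL] at hz1 ⊢
          exact lb_closed' hm (hyb L hL) (hys L hL) hz2 (hTs z hx hz2) hz1
        intro t ht
        exact hTW2 L hL _ ⟨z, ⟨⟨hx, hz2⟩, h1⟩, t, ht, rfl⟩
      · intro t ht
        have h1 : z ∈ QL m τ (lb m τ (y L)) := by rw [hyL L hL]; exact hz1
        obtain ⟨h2, h3⟩ := seg_QL hm (hyb L hL) h1 hz2 ht
        have h4 := hmesh z (ln (y L) z t) hz2.1 hx (QL_dist hm h2 h1)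
        refine hAW _ (fun h => h4 (subset_closure h)) ?_
        rintro ⟨w, hw, hwz⟩
        rw [hψ.1 hwz] at hw
        exact h3.2 (hball hw)
  obtain ⟨Z₀, hZ₀, hZ₀W⟩ := hP W₁ hW₁o hTAW
  obtain ⟨Z₁, hZ₁, hZ₁W, hZ₁s⟩ := hF.skeleton hψ hm τ hW₁o.isClosed_compl hZ₀
    (disjoint_compl_left_iff_subset.2 hZ₀W)
  rw [disjoint_compl_left_iff_subset] at hZ₁W
  -- compression over the cubes
  set OT : Set (E 4) := {P | ∀ t ∈ Icc (0 : ℝ) 1, ψ (ln τ P t) ∈ W} with hOT
  have hOTo : IsOpen OT := isOpen_see hψ hW τ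
  have hyOT : ∀ L ∈ F, y L ∈ OT := fun L hL t ht => hTW3 L hL _ ⟨_, rfl, t, ht, rfl⟩
  have key : ∀ s : Finset (Fin 4 → ℤ × ℤ), s ⊆ F → ∃ Z, 𝒢 Z ∧ Z \ ψ '' qo τ ⊆ W ∧
      (∀ z ∈ bd τ, ψ z ∈ Z → z ∉ Sk m τ) ∧
      ∀ z ∈ bd τ, ψ z ∈ Z → (lb m τ z ∉ s → z ∈ O (lb m τ z)) ∧ (lb m τ z ∈ s → z ∈ OT) := by
    intro s
    induction s using Finset.induction_on with
    | empty =>
      intro _
      refine ⟨Z₁, hZ₁, ?_, fun z hz hzZ hzs => hZ₁s z hz hzs hzZ, fun z hz hzZ =>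
        ⟨fun _ => ?_, fun h => absurd h (Finset.notMem_empty _)⟩⟩
      · rintro x ⟨hx, hxo⟩
        rcases (hZ₁W hx).1 with h1 | h1
        · exact h1
        · exact absurd h1 hxo
      · by_contra hcon
        have hzs : z ∉ Sk m τ := fun h => hZ₁s z hz h hzZ
        refine (hZ₁W hzZ).2 (mem_iUnion₂.2 ⟨lb m τ z, hlF z hz hzs, z, ⟨⟨mem_QL m τ z, hz⟩, hcon⟩,
          rfl⟩)
    | insert L s hL ih =>
      intro hs
      have hLF : L ∈ F := hs (Finset.mem_insert_self _ _)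
      obtain ⟨Z, h1, h2, h3, h4⟩ := ih ((Finset.subset_insert _ _).trans hs)
      obtain ⟨Z', e1, e2, e3⟩ := hF.squash hψ hm (hyb L hLF) (hys L hLF) hOTo (hyOT L hLF) hW h1
        h2 h3 (by
          intro z hz hzZ hzL t ht
          rw [hyL L hLF] at hzL
          have h5 := (h4 z hz hzZ).1 (by rw [hzL]; exact hL)
          rw [hzL] at h5
          exact h5 t ht)
      rw [hyL L hLF] at e3
      refine ⟨Z', e1, e2, fun z hz hzZ => ?_, fun z hz hzZ => ?_⟩
      · rcases e3 z hz hzZ with ⟨h5, -⟩ | ⟨-, h5⟩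
        · exact notMem_Sk (hyb L hLF) (hys L hLF) (by rw [hyL L hLF]; exact h5)
        · exact h3 z hz h5
      · rcases e3 z hz hzZ with ⟨h5, h6⟩ | ⟨h5, h6⟩
        · exact ⟨fun h => absurd (by rw [h5]; exact Finset.mem_insert_self _ _) h, fun _ => h6⟩
        · refine ⟨fun h => (h4 z hz h6).1 fun h7 => h (Finset.mem_insert_of_mem h7), fun h => ?_⟩
          rcases Finset.mem_insert.1 h with h7 | h7
          · exact absurd h7 h5
          · exact (h4 z hz h6).2 h7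
  obtain ⟨Z, h1, h2, h3, h4⟩ := key F (Finset.Subset.refl F)
  have hτW : ψ τ ∈ W := hTW (Or.inl (Or.inr rfl))
  exact hF.squash_box hψ hW h1 h2 hτW fun z hz hzZ =>
    (h4 z hz hzZ).2 (hlF z hz (h3 z hz hzZ))

/-- **The spine theorem** -/
theorem spine [CompactSpace X] [T2Space X] [IsManifold (𝓡 4) ∞ X] {𝒢 : Set X → Prop}
    (hF : Fam 𝒢) (hne : ∃ Z, 𝒢 Z) : ∃ T : Set X, IsCompact T ∧ NullH2 4 T ∧
      ∀ W, IsOpen W → T ⊆ W → ∃ Z, 𝒢 Z ∧ Z ⊆ W := by
  classical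
  choose ψ hi hl h0 using fun x : X => exists_cell0 (n := 4) x
  have hψ : ∀ x, Cell (ψ x) := fun x => ⟨hi x, hl x⟩
  have key : ∀ (s : Finset X) (r : ℝ), 0 < r → ∃ T, IsCompact T ∧ NullH2 4 T ∧
      Ctl 𝒢 (⋃ x ∈ s, ψ x '' ball 0 r) T := by
    intro s
    induction s using Finset.induction_on with
    | empty =>
      intro r _
      refine ⟨∅, isCompact_empty, fun h _ _ => by rw [preimage_empty]; exact measure_empty,
        fun W _ hW => ?_⟩
      obtain ⟨Z, hZ⟩ := hne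
      refine ⟨Z, hZ, fun x _ => hW (Or.inr ?_)⟩
      simp
    | insert x s _ ih =>
      intro r hr
      obtain ⟨T, h1, h2, h3⟩ := ih (r + 1) (by linarith)
      obtain ⟨T', e1, e2, e3⟩ := step hF (A' := ⋃ x ∈ s, ψ x '' ball 0 r)
        (isOpen_biUnion fun x _ => (hψ x).open_image isOpen_ball) h1 h2 h3 (by
          have hc : IsClosed (⋃ x ∈ s, ψ x '' closedBall 0 r) := (s.isCompact_biUnion fun x _ =>
            (isCompact_closedBall (0 : E 4) r).image (hψ x).cont).isClosed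
          refine (closure_minimal ?_ hc).trans ?_
          · exact iUnion₂_mono fun x _ => image_mono ball_subset_closedBall
          · exact iUnion₂_mono fun x _ => image_mono (closedBall_subset_ball (by linarith)))
        ((hψ x).scale hr)
      refine ⟨T', e1, e2, ?_⟩
      have h4 : (fun z => ψ x (r • z)) '' ball 0 1 = ψ x '' ball 0 r := by
        ext p
        constructor
        · rintro ⟨z, hz, rfl⟩
          refine ⟨r • z, ?_, rfl⟩
          rw [mem_ball_zero_iff] at hz ⊢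
          rw [norm_smul, Real.norm_of_nonneg hr.le]
          nlinarith
        · rintro ⟨z, hz, rfl⟩
          refine ⟨r⁻¹ • z, ?_, ?_⟩
          · rw [mem_ball_zero_iff] at hz ⊢
            rw [norm_smul, Real.norm_of_nonneg (by positivity), inv_mul_lt_iff₀ hr, mul_one]
            exact hz
          · show ψ x (r • (r⁻¹ • z)) = ψ x z
            rw [smul_smul, mul_inv_cancel₀ hr.ne', one_smul]
      rw [h4] at e3
      rw [Finset.set_biUnion_insert, union_comm]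
      exact e3
  obtain ⟨s, hs⟩ := isCompact_univ.elim_finite_subcover (fun x : X => ψ x '' ball 0 1)
    (fun x => (hψ x).open_image isOpen_ball)
    (fun x _ => mem_iUnion.2 ⟨x, 0, mem_ball_self one_pos, h0 x⟩)
  obtain ⟨T, h1, h2, h3⟩ := key s 1 one_pos
  refine ⟨T, h1, h2, fun W hW hTW => h3 W hW ?_⟩
  rintro x (hx | hx)
  · exact hTW hx
  · exact absurd (hs (mem_univ x)) hx

end Pool.Agent.L0h29.SP
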