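import Pool.Agent.L0h29.CS.Main
import Pool.Agent.L0h29.EN.Box

/-!
# Project SP: the steps of the proof, with control of the exceptional set
-/

set_option autoImplicit false
set_option linter.unusedSectionVars false
set_option linter.unusedVariables false

open Set Filter Topology Metric Function MeasureTheory
open scoped Manifold ContDiff

noncomputable section

namespace Pool.Agent.L0h29.SP

open Pool.Agent.Y522 Pool.Agent.N550.KH Pool.Agent.N550.KH.One Pool.Agent.L0h29.CS

/-- one handle (the exceptional set is moved by a diffeomorphism) -/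
theorem step2 (m k : ℕ) (hk : 2 ≤ k) (hMDF : MDF m k) (M N : Type)
    [TopologicalSpace M] [CompactSpace M] [T2Space M]
    [ChartedSpace (E (m + k)) M] [IsManifold (𝓡 (m + k)) ∞ M] [TopologicalSpace N]
    [CompactSpace N] [T2Space N] [ChartedSpace (E (m + k)) N] [IsManifold (𝓡 (m + k)) ∞ N]
    (f : M → N) (Z : Set N) (h : Inv (m + k) f Z) (l : E (m + k) → N) (Y : Set N)
    (hl : Injective l) (hld : ∀ z, LD (m + k) l z)
    (hY : ∀ z, l z ∈ Y ↔ 1 ≤ ‖up m k z‖) (hfY : ∀ x, f x ∈ Y → LD (m + k) f x)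
    (hYZ : ∀ y ∈ Y, y ∉ Z) :
    ∃ (f' : M → N) (K : N → N), IsDf (m + k) K ∧ Inv (m + k) f' (K '' Z) ∧
      (∀ x, f' x ∈ Y ∪ l '' {z | vp m k z = 0 ∧ ‖up m k z‖ ≤ 1} → LD (m + k) f' x) ∧
      (∀ y ∈ Y ∪ l '' {z | vp m k z = 0 ∧ ‖up m k z‖ ≤ 1}, y ∉ K '' Z) ∧
      (Bijective f → Bijective f') := by
  classical
  obtain ⟨K, hK, hKY, hKZ, hKs⟩ := position m k hk M N f Z h l Y hl hld hY
  set f1 : M → N := fun x => K (f x) with hf1
  set Z1 : Set N := K '' Z with hZ1
  have h1 : Inv (m + k) f1 Z1 := h.comp hK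
  have hf1Y : ∀ x, f1 x ∈ Y → LD (m + k) f1 x := by
    intro x hx
    exact LD.comp_fun (g := K) (f := f) (hK.2 _) (hfY x ((hKY _).1 hx))
  have hYZ1 : ∀ y ∈ Y, y ∉ Z1 := by
    rintro _ hy ⟨w, hw, rfl⟩
    exact hYZ w ((hKY w).1 hy) hw
  obtain ⟨ε, hε, hεZ⟩ := squeeze m k N l Z1
    (continuous_iff_continuousAt.2 fun z => (hld z).continuousAt) h1.closed hKZ
  set l' : E (m + k) → N := fun z => l (Sqz.tau m k ε z) with hl'
  have hl'i : Injective l' := hl.comp (Sqz.tau_inj m k hε)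
  have hl'd : ∀ z, LD (m + k) l' z := fun z =>
    LD.comp_fun (g := l) (f := Sqz.tau m k ε) (hld _) (Sqz.tau_ld m k hε z)
  have hl'Z : ∀ z, l' z ∉ Z1 := hεZ
  have hl'Y : ∀ z, l' z ∈ Y ↔ 1 ≤ ‖up m k z‖ := fun z => by
    rw [hl', hY, Sqz.tau_one]
  set F := mkG f1 Z1 h1 l' hl'i hl'd hl'Z with hF
  have hFl : ∀ x ∈ F.source, l' (F x) = f1 x := fun x hx => mkG_l f1 Z1 h1 l' hl'i hl'd hl'Z hx
  have hFsrc : ∀ x, x ∈ F.source ↔ f1 x ∈ range l' := fun x => Iff.rfl
  have hFap : ∀ x, F x = linv l' (f1 x) := fun x => rfl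
  have hFZ : ∀ x ∈ F.source, f1 x ∉ Z1 := by
    rintro x ⟨z, hz⟩
    rw [← hz]; exact hl'Z z
  have hFsm : ∀ x ∈ F.source, Sm (m + k) F x := by
    intro x hx
    have h2 := h1.sm (hFZ x hx)
    obtain ⟨z, hz⟩ := hx
    refine sm_comp (f := f1) (g := linv l') h2 ?_
    rw [← hz]
    exact ld_sm (linv_ld hl'i hl'd z)
  have hld1 : ∀ x ∈ F.source, LD (m + k) f1 x → LD (m + k) F x := by
    rintro x ⟨z, hz⟩ h
    refine LD.comp_fun (g := linv l') (f := f1) ?_ h
    rw [← hz]
    exact linv_ld hl'i hl'd z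
  have hld2 : ∀ x ∈ F.source, 1 ≤ ‖up m k (F x)‖ → LD (m + k) f1 x := by
    intro x hx h
    apply hf1Y
    rw [← hFl x hx, hl'Y]
    exact h
  have hpos : ∀ x ∈ F.source, vp m k (F x) = 0 → ‖up m k (F x)‖ < 2 → Sm (m + k) F x ∧
      Surjective (mfderiv (𝓡 (m + k)) (𝓡 k) (fun y => vp m k (F y)) x) := by
    intro x hx h0 _
    refine ⟨hFsm x hx, ?_⟩
    have h2 : f1 x = l (Sqz.tau m k ε (F x)) := (hFl x hx).symm
    have h3 := hKs x (Sqz.tau m k ε (F x)) h2 ((Sqz.tau_zero m k hε _).2 h0)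
      (by linarith [Sqz.tau_up m k ε (F x)])
    have hev : (fun y => vp m k (linv l (K (f y)))) =ᶠ[𝓝 x]
        (fun z : E k => ε • Sqz.bb k z) ∘ (fun y => vp m k (F y)) := by
      filter_upwards [F.open_source.mem_nhds hx] with y hy
      show vp m k (linv l (f1 y)) = ε • Sqz.bb k (vp m k (F y))
      rw [← hFl y hy, ← Sqz.vp_tau]
      show vp m k (linv l (l (Sqz.tau m k ε (F y)))) = _
      rw [linv_l hl]
    rw [hev.mfderiv_eq] at h3
    have hq : MDifferentiableAt (𝓡 (m + k)) (𝓡 k) (fun y => vp m k (F y)) x := by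
      have h4 : ContMDiffAt (𝓡 (m + k)) (𝓡 k) ∞ (fun y => vp m k (F y)) x :=
        (vp m k).contMDiff.contMDiffAt.comp x (hFsm x hx).self_of_nhds
      exact h4.mdifferentiableAt (by simp)
    have hs : MDifferentiableAt (𝓡 k) (𝓡 k) (fun z : E k => ε • Sqz.bb k z) (vp m k (F x)) := by
      rw [mdifferentiableAt_iff_differentiableAt]
      have h5 : ContDiff ℝ ∞ (fun z : E k => ε • Sqz.bb k z) := (Sqz.bb_smooth k).const_smul _
      exact h5.contDiffAt.differentiableAt (by simp)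
    rw [mfderiv_comp x hs hq] at h3
    set A : E k →L[ℝ] E k := mfderiv (𝓡 k) (𝓡 k) (fun z : E k => ε • Sqz.bb k z) (vp m k (F x))
      with hA
    have hAs : Surjective A := by
      intro w
      obtain ⟨v, hv⟩ := h3 w
      exact ⟨_, hv⟩
    have hAi : Injective A := by
      have h6 : Injective (A : E k →ₗ[ℝ] E k) := LinearMap.injective_iff_surjective.2 hAs
      exact h6
    intro w
    obtain ⟨v, hv⟩ := h3 (A w)
    exact ⟨v, hAi hv⟩
  obtain ⟨F', C, hs, ht, hC, hCs, hFC, hF1, hsm, hcore⟩ :=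
    hMDF M F rfl hpos (fun x hx _ h => hld1 x hx (hld2 x hx h))
  let g : M → N := fun x => if x ∈ F.source then l' (F' x) else f1 x
  have hgin : ∀ x ∈ F.source, g x = l' (F' x) := fun x hx => if_pos hx
  have hgout : ∀ x, x ∉ F.source → g x = f1 x := fun x hx => if_neg hx
  have hgC : ∀ x, x ∉ C → g x = f1 x := by
    intro x hx
    by_cases h : x ∈ F.source
    · rw [hgin x h, hFC x h hx, hFl x h]
    · exact hgout x h
  have hCo : IsOpen Cᶜ := hC.isClosed.isOpen_compl
  have hgCev : ∀ x, x ∉ C → g =ᶠ[𝓝 x] f1 := by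
    intro x hx
    filter_upwards [hCo.mem_nhds hx] with y hy
    exact hgC y hy
  have hgsev : ∀ x ∈ F.source, g =ᶠ[𝓝 x] fun y => l' (F' y) := by
    intro x hx
    filter_upwards [F.open_source.mem_nhds hx] with y hy
    exact hgin y hy
  have hgc : Continuous g := by
    rw [continuous_iff_continuousAt]
    intro x
    by_cases h : x ∈ F.source
    · have h1 : ContinuousAt F' x := F'.continuousAt (by rw [hs]; exact h)
      exact ContinuousAt.congr (ContinuousAt.comp (g := l') (f := F') (hl'd _).continuousAt h1)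
        (hgsev x h).symm
    · exact ContinuousAt.congr h1.cont.continuousAt (hgCev x (fun hx => h (hCs hx))).symm
  have hF'inj : InjOn F' F.source := by rw [← hs]; exact F'.injOn
  have hgu : ∀ x y, x ∈ F.source → g x = g y → x = y := by
    intro x y hx hxy
    by_cases hy : y ∈ F.source
    · rw [hgin x hx, hgin y hy] at hxy
      exact hF'inj hx hy (hl'i hxy)
    · rw [hgin x hx, hgout y hy] at hxy
      exact absurd ((hFsrc y).2 ⟨_, hxy⟩) hy
  have hlsm : ∀ x, Sm (m + k) F' x → Sm (m + k) (fun y => l' (F' y)) x := fun x h =>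
    sm_comp (f := F') (g := l') h (Eventually.of_forall fun z => (hl'd z).contMDiffAt)
  have hlld : ∀ x ∈ F.source, LD (m + k) F' x → LD (m + k) g x := fun x hx h =>
    LD.congr (LD.comp_fun (g := l') (f := F') (hl'd _) h) (hgsev x hx)
  have hgsrc : ∀ z, ∃ x ∈ F.source, g x = l' z := by
    intro z
    have hz : z ∈ F'.target := by rw [ht]; trivial
    have h1 : F'.symm z ∈ F.source := by rw [← hs]; exact F'.map_target hz
    exact ⟨F'.symm z, h1, by rw [hgin _ h1, F'.right_inv hz]⟩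
  have hginv : Inv (m + k) g Z1 := by
    refine ⟨hgc, h1.closed, h1.null, fun y hy => ?_⟩
    by_cases hyr : y ∈ range l'
    · obtain ⟨z, rfl⟩ := hyr
      obtain ⟨x, hx, hxz⟩ := hgsrc z
      refine ⟨x, hxz, sm_congr (hlsm x (hsm x hx (hFsm x hx))) (hgsev x hx), fun x' hx' => ?_⟩
      exact (hgu x x' hx (hxz.trans hx'.symm)).symm
    · obtain ⟨x, hx, hxs, hxu⟩ := h1.good y hy
      have hxn : x ∉ F.source := fun hc => hyr (by rw [← hx]; exact hc)
      refine ⟨x, by rw [hgout x hxn]; exact hx, sm_congr hxs (hgCev x (fun hc => hxn (hCs hc))),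
        fun x' hx' => ?_⟩
      by_cases hx's : x' ∈ F.source
      · rw [hgin x' hx's] at hx'
        exact absurd ⟨_, hx'⟩ hyr
      · rw [hgout x' hx's] at hx'
        exact hxu x' hx'
  refine ⟨g, K, hK, hginv, ?_, ?_, ?_⟩
  · intro x hx
    rcases hx with hx | ⟨z, ⟨hz1, hz2⟩, hz⟩
    · by_cases h : x ∈ F.source
      · rw [hgin x h, hl'Y] at hx
        have hz : F' x ∈ F.target := mem_univ _
        have h1 : F.symm (F' x) ∈ F.source := F.map_target hz
        have h2 : F (F.symm (F' x)) = F' x := F.right_inv hz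
        have h3 : F' (F.symm (F' x)) = F (F.symm (F' x)) := (hF1 _ h1 (by rw [h2]; exact hx)).1
        have h4 : F.symm (F' x) = x := hF'inj h1 h (by rw [h3, h2])
        rw [h4] at h2
        have h5 : 1 ≤ ‖up m k (F x)‖ := by rw [h2]; exact hx
        exact hlld x h ((hF1 x h h5).2 (hld1 x h (hld2 x h h5)))
      · rw [hgout x h] at hx
        exact LD.congr (hf1Y x hx) (hgCev x (fun hxC => h (hCs hxC)))
    · obtain ⟨w, hw1, hw2, hw3⟩ := Sqz.tau_core m k hε z hz1 hz2
      have hwz : l' w = l z := by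
        show l (Sqz.tau m k ε w) = l z
        rw [hw1]
      obtain ⟨x', hx's, hx'⟩ := hgsrc w
      have h4 : x' = x := hgu x' x hx's (by rw [hx', hwz, hz])
      rw [← h4]
      have h5 : F' x' = w := by
        rw [hgin x' hx's] at hx'
        exact hl'i hx'
      exact hlld x' hx's (hcore x' hx's (by rw [h5]; exact hw2) (by rw [h5]; exact hw3))
  · intro y hy
    rcases hy with hy | ⟨z, ⟨hz1, hz2⟩, rfl⟩
    · exact hYZ1 y hy
    · exact hKZ z hz1 (by linarith)
  · intro hb
    have hb1 : Bijective f1 := hK.1.comp hb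
    constructor
    · intro x y hxy
      by_cases hx : x ∈ F.source
      · exact hgu x y hx hxy
      · by_cases hy : y ∈ F.source
        · exact (hgu y x hy hxy.symm).symm
        · rw [hgout x hx, hgout y hy] at hxy
          exact hb1.1 hxy
    · intro w
      by_cases hw : w ∈ range l'
      · obtain ⟨z, rfl⟩ := hw
        obtain ⟨x, -, hx⟩ := hgsrc z
        exact ⟨x, hx⟩
      · obtain ⟨x, hx⟩ := hb1.2 w
        have hxn : x ∉ F.source := fun hc => hw (by rw [← hx]; exact hc)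
        exact ⟨x, by rw [hgout x hxn]; exact hx⟩

end Pool.Agent.L0h29.SP
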